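import Pool.Agent.Lib.P83e.Defs

/-!
# Abel summation with a monotone weight

PROOF. With `A t = ∑_{i ∈ Icc 1 t} (F i - lam)`, `|A t| ≤ E`, `A 0 = 0`:
`∑_{i=1}^X (F i - lam) w i = A X * w X - ∑_{i=1}^{X-1} A i (w (i+1) - w i)`, absolute value
`≤ E w X + E (w X - w 1) ≤ 2 E w X`.
-/

set_option autoImplicit false

open Finset

namespace Pool.Agent.P83e

theorem abel (X : ℕ) (F w : ℕ → ℝ) (lam E : ℝ) (hF : ∀ t ≤ X, |∑ i ∈ Icc 1 t, F i - lam * t| ≤ E)
    (hw0 : ∀ i, 0 ≤ w i) (hw : ∀ i j, i ≤ j → j ≤ X → w i ≤ w j) :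
    |∑ i ∈ Icc 1 X, F i * w i - lam * ∑ i ∈ Icc 1 X, w i| ≤ 2 * E * w X := by
  have key : ∀ n ≤ X, |(∑ i ∈ Icc 1 n, F i * w i - lam * ∑ i ∈ Icc 1 n, w i) -
      (∑ i ∈ Icc 1 n, F i - lam * n) * w n| ≤ E * (w n - w 0) := by
    intro n
    induction n with
    | zero => intro _; simp
    | succ n ih =>
      intro hn
      have h1 := ih (by omega)
      have h2 := hF n (by omega)
      have h3 : w n ≤ w (n + 1) := hw n (n + 1) (by omega) hn
      have e1 : Icc 1 (n + 1) = insert (n + 1) (Icc 1 n) := by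
        ext i; simp only [mem_Icc, mem_insert]; omega
      have e2 : n + 1 ∉ Icc 1 n := by simp
      rw [e1, sum_insert e2, sum_insert e2, sum_insert e2]
      have e3 : (F (n + 1) * w (n + 1) + ∑ i ∈ Icc 1 n, F i * w i -
          lam * (w (n + 1) + ∑ i ∈ Icc 1 n, w i)) -
          (F (n + 1) + ∑ i ∈ Icc 1 n, F i - lam * ((n + 1 : ℕ) : ℝ)) * w (n + 1) =
          ((∑ i ∈ Icc 1 n, F i * w i - lam * ∑ i ∈ Icc 1 n, w i) -
            (∑ i ∈ Icc 1 n, F i - lam * n) * w n) +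
          (∑ i ∈ Icc 1 n, F i - lam * n) * (w n - w (n + 1)) := by
        push_cast
        ring
      rw [e3]
      refine (abs_add_le _ _).trans ?_
      rw [abs_mul]
      have h4 : |w n - w (n + 1)| = w (n + 1) - w n := by
        rw [abs_sub_comm]; exact abs_of_nonneg (by linarith)
      rw [h4]
      have h5 : |∑ i ∈ Icc 1 n, F i - lam * n| * (w (n + 1) - w n) ≤ E * (w (n + 1) - w n) :=
        mul_le_mul_of_nonneg_right h2 (by linarith)
      linarith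
  have h1 := key X le_rfl
  have h2 := hF X le_rfl
  have h3 := hw0 X
  have h4 := hw0 0
  have hE : 0 ≤ E := (abs_nonneg _).trans h2
  have h5 : |(∑ i ∈ Icc 1 X, F i - lam * X) * w X| ≤ E * w X := by
    rw [abs_mul, abs_of_nonneg h3]
    exact mul_le_mul_of_nonneg_right h2 h3
  have h6 : ∑ i ∈ Icc 1 X, F i * w i - lam * ∑ i ∈ Icc 1 X, w i =
      ((∑ i ∈ Icc 1 X, F i * w i - lam * ∑ i ∈ Icc 1 X, w i) -
        (∑ i ∈ Icc 1 X, F i - lam * X) * w X) + (∑ i ∈ Icc 1 X, F i - lam * X) * w X := by ring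
  rw [h6]
  refine (abs_add_le _ _).trans ?_
  have h7 : 0 ≤ E * w 0 := mul_nonneg hE h4
  linarith

/-- Weight used for `p ≤ (1 - η²) x`. -/
noncomputable def ww (x y t : ℕ) : ℝ := √((x : ℝ) + y - t) - √((x : ℝ) - t)

private theorem ww_eq {x y t : ℕ} (h : t < x) :
    ww x y t = (y : ℝ) / (√((x : ℝ) + y - t) + √((x : ℝ) - t)) ∧ 0 < √((x : ℝ) - t) := by
  have h0 : (0 : ℝ) < (x : ℝ) - t := by
    have : (t : ℝ) < x := by exact_mod_cast h
    linarith
  have hy : (0 : ℝ) ≤ y := Nat.cast_nonneg y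
  have hs : 0 < √((x : ℝ) - t) := Real.sqrt_pos.2 h0
  have hs2 : 0 ≤ √((x : ℝ) + y - t) := Real.sqrt_nonneg _
  refine ⟨?_, hs⟩
  rw [eq_div_iff (by positivity), ww]
  have e1 := Real.mul_self_sqrt (show (0 : ℝ) ≤ (x : ℝ) + y - t by linarith)
  have e2 := Real.mul_self_sqrt h0.le
  linear_combination e1 - e2

theorem ww_bounds {x y t : ℕ} (h : t < x) :
    (y : ℝ) / (2 * √((x : ℝ) + y)) ≤ ww x y t ∧ ww x y t ≤ y / (2 * √((x : ℝ) - t)) := by
  obtain ⟨e, hs⟩ := ww_eq (y := y) h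
  have hy : (0 : ℝ) ≤ y := Nat.cast_nonneg y
  have ht : (0 : ℝ) ≤ t := Nat.cast_nonneg t
  rw [e]
  have h1 : √((x : ℝ) - t) ≤ √((x : ℝ) + y - t) := Real.sqrt_le_sqrt (by linarith)
  have h2 : √((x : ℝ) + y - t) ≤ √((x : ℝ) + y) := Real.sqrt_le_sqrt (by linarith)
  constructor
  · exact div_le_div_of_nonneg_left hy (by positivity) (by linarith)
  · exact div_le_div_of_nonneg_left hy (by positivity) (by linarith)

theorem ww_mono {x y s t : ℕ} (h : s ≤ t) (ht : t < x) : ww x y s ≤ ww x y t := by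
  obtain ⟨e1, h1⟩ := ww_eq (y := y) ht
  obtain ⟨e2, h2⟩ := ww_eq (y := y) (lt_of_le_of_lt h ht)
  have hy : (0 : ℝ) ≤ y := Nat.cast_nonneg y
  have hst : (s : ℝ) ≤ t := by exact_mod_cast h
  rw [e1, e2]
  have h3 : √((x : ℝ) - t) ≤ √((x : ℝ) - s) := Real.sqrt_le_sqrt (by linarith)
  have h4 : √((x : ℝ) + y - t) ≤ √((x : ℝ) + y - s) := Real.sqrt_le_sqrt (by linarith)
  have h5 : 0 ≤ √((x : ℝ) + y - t) := Real.sqrt_nonneg _
  exact div_le_div_of_nonneg_left hy (by positivity) (by linarith)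

end Pool.Agent.P83e
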