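import Pool.Agent.Lib.P83e.Defs
import Pool.Agent.Lib.Pe70ed2.SieveAP

/-!
# Brun-Titchmarsh inequality up to a constant

PROOF. `Pool.Agent.Lib.Pe70ed2.sieve_ap` with `β = 0`, `D = ⌈√h⌉` and `z = h^(1/12)` (so `z^6 ≤ D`; `z ≥ 2` for
`h ≥ 2^12`). A prime `p > z` of the class `v mod q`, `(v, q) = 1`, is `rough z q`. So the number of primes is at
most `z + |R| ≤ z + (h / q) (Lam + Xi) + D (log z + 3) ≤ z + 2 C0 h / (φ(q) log z) + 3 √h (log h + 3)`, and
`q ≤ h^(1/4)` makes the last terms `≤ C h / (φ(q) log h)`. For `h < 2^12` the count is `≤ h` and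
`φ(q) log h ≤ 2^12`.
-/

set_option autoImplicit false

open Finset

namespace Pool.Agent.P83e

open Classical in
/-- The primes of the class in the interval: those below `z`, and rough ones. -/
private theorem card_split (u h q v : ℕ) (z : ℝ) (hz : 0 ≤ z) (R : Finset ℕ)
    (hR : ∀ x, x ∈ R ↔ x ∈ (Ioc u (u + h)).filter (fun x => x ≡ v [MOD q]) ∧ Lib.Pe70ed2.rough z q x) :
    (((Ioc u (u + h)).filter (fun p => p.Prime ∧ p ≡ v [MOD q])).card : ℝ) ≤ z + R.card := by
  have h1 : (Ioc u (u + h)).filter (fun p => p.Prime ∧ p ≡ v [MOD q]) ⊆ Icc 1 ⌊z⌋₊ ∪ R := by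
    intro p hp
    rw [mem_filter] at hp
    obtain ⟨hp1, hp2, hp3⟩ := hp
    rw [mem_union]
    by_cases hpz : (p : ℝ) < z
    · left
      rw [mem_Icc]
      exact ⟨hp2.one_lt.le, Nat.le_floor hpz.le⟩
    · right
      rw [hR, mem_filter]
      refine ⟨⟨hp1, hp3⟩, ?_⟩
      intro r hr hrz hrp
      exfalso
      rcases (Nat.dvd_prime hp2).1 hrp with h2 | h2
      · exact hr.one_lt.ne' h2
      · rw [h2] at hrz
        exact hpz hrz
  have h2 := card_le_card h1
  have h3 := card_union_le (Icc 1 ⌊z⌋₊) R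
  have h4 : (Icc 1 ⌊z⌋₊).card = ⌊z⌋₊ := by simp
  rw [h4] at h3
  have h5 : ((⌊z⌋₊ : ℕ) : ℝ) ≤ z := Nat.floor_le hz
  have h6 : (((Ioc u (u + h)).filter (fun p => p.Prime ∧ p ≡ v [MOD q])).card : ℝ) ≤ ((⌊z⌋₊ + R.card : ℕ) : ℝ) := by
    exact_mod_cast h2.trans h3
  push_cast at h6
  linarith

open Classical in
theorem brun_titchmarsh : ∃ C : ℝ, 0 < C ∧ ∀ h : ℕ, 2 ≤ h → ∀ u q v : ℕ, 0 < q → q ^ 4 ≤ h → v.Coprime q →
    (((Ioc u (u + h)).filter (fun p => p.Prime ∧ p ≡ v [MOD q])).card : ℝ) ≤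
      C * h / ((q.totient : ℝ) * Real.log h) := by
  obtain ⟨C0, hC0, hs⟩ := Lib.Pe70ed2.sieve_ap
  refine ⟨24 * C0 + 80 + 4096 ^ 2, by positivity, ?_⟩
  intro h hh u q v hq hq4 hv
  have hq0 : (0 : ℝ) < q := by exact_mod_cast hq
  have hφ0 : (0 : ℝ) < (q.totient : ℝ) := by exact_mod_cast Nat.totient_pos.2 hq
  have hφq : (q.totient : ℝ) ≤ q := by exact_mod_cast Nat.totient_le q
  have hh0 : (0 : ℝ) < h := by
    have : 0 < h := by omega
    exact_mod_cast this
  have hL : 0 < Real.log h := Real.log_pos (by exact_mod_cast (by omega : 1 < h))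
  rw [le_div_iff₀ (by positivity)]
  have hqh : q ≤ h := (Nat.le_self_pow (by norm_num) q).trans hq4
  by_cases h12 : h < 4096
  · have h1 : (((Ioc u (u + h)).filter (fun p => p.Prime ∧ p ≡ v [MOD q])).card : ℝ) ≤ h := by
      have := card_filter_le (Ioc u (u + h)) (fun p => p.Prime ∧ p ≡ v [MOD q])
      rw [Nat.card_Ioc, Nat.add_sub_cancel_left] at this
      exact_mod_cast this
    have h2 : Real.log h ≤ 4096 := by
      have := Real.log_le_sub_one_of_pos hh0
      have h3 : (h : ℝ) ≤ 4096 := by exact_mod_cast h12.le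
      linarith
    have h3 : (q.totient : ℝ) ≤ 4096 := by
      have h4 : (q : ℝ) ≤ 4096 := by exact_mod_cast hqh.trans h12.le
      linarith
    have h4 : (q.totient : ℝ) * Real.log h ≤ 4096 ^ 2 := by nlinarith
    calc _ ≤ (h : ℝ) * 4096 ^ 2 := mul_le_mul h1 h4 (by positivity) (by positivity)
      _ ≤ _ := by nlinarith
  · push Not at h12
    set t : ℝ := (h : ℝ) ^ (1 / 12 : ℝ) with ht
    have ht12 : t ^ 12 = h := by
      rw [ht, ← Real.rpow_natCast, ← Real.rpow_mul hh0.le]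
      norm_num
    have ht2 : 2 ≤ t := by
      have h1 : (2 : ℝ) ^ 12 ≤ t ^ 12 := by
        rw [ht12]
        norm_num
        exact_mod_cast h12
      exact le_of_pow_le_pow_left₀ (by norm_num) (by positivity) h1
    have ht0 : 0 < t := by linarith
    have hlog : Real.log h = 12 * Real.log t := by
      rw [← ht12, Real.log_pow]
      norm_num
    have hlt : Real.log t ≤ t := by
      have := Real.log_le_sub_one_of_pos ht0
      linarith
    have hlt0 : 0 < Real.log t := Real.log_pos (by linarith)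
    have hqt : (q : ℝ) ≤ t ^ 3 := by
      have h1 : (q : ℝ) ^ 4 ≤ (t ^ 3) ^ 4 := by
        rw [← pow_mul, ht12]
        exact_mod_cast hq4
      exact le_of_pow_le_pow_left₀ (by norm_num) (by positivity) h1
    obtain ⟨lam, Lam, Xi, l1, l2, l3, l4, l5, hmain⟩ := hs t ht2 q hq 0 ⌈t ^ 6⌉₊ (by
      simpa using Nat.le_ceil (t ^ 6))
    set S := (Ioc u (u + h)).filter (fun x => x ≡ v [MOD q]) with hS
    have hR : ∀ x, x ∈ S.filter (fun x => Lib.Pe70ed2.rough t q x) ↔ x ∈ S ∧ Lib.Pe70ed2.rough t q x := by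
      intro x
      rw [mem_filter]
    have hcard := card_split u h q v t ht0.le _ hR
    have hm := (hmain u h v S hS _ hR).1
    have hD : ((⌈t ^ 6⌉₊ : ℕ) : ℝ) ≤ 2 * t ^ 6 := by
      have h1 := Nat.ceil_lt_add_one (a := t ^ 6) (by positivity)
      have h2 : 1 ≤ t ^ 6 := one_le_pow₀ (by linarith)
      linarith
    have h3 : ((S.filter (fun x => Lib.Pe70ed2.rough t q x)).card : ℝ) ≤
        (h : ℝ) / q * (2 * C0 * ((q : ℝ) / (q.totient : ℝ) / Real.log t)) + 2 * t ^ 6 * (Real.log t + 3) := by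
      have h4 := (abs_le.1 hm).2
      have h5 : (h : ℝ) / q * Lam ≤ (h : ℝ) / q * (C0 * ((q : ℝ) / (q.totient : ℝ) / Real.log t)) :=
        mul_le_mul_of_nonneg_left l4 (by positivity)
      have h6 : (h : ℝ) / q * Xi ≤ (h : ℝ) / q * (C0 * ((q : ℝ) / (q.totient : ℝ) / Real.log t)) := by
        refine mul_le_mul_of_nonneg_left ?_ (by positivity)
        simpa using l5
      have h7 : ((⌈t ^ 6⌉₊ : ℕ) : ℝ) * (Real.log t + 3) ≤ 2 * t ^ 6 * (Real.log t + 3) :=
        mul_le_mul_of_nonneg_right hD (by linarith)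
      linarith
    have h4 : (h : ℝ) / q * (2 * C0 * ((q : ℝ) / (q.totient : ℝ) / Real.log t)) * ((q.totient : ℝ) * Real.log h) =
        24 * C0 * h := by
      rw [hlog]
      field_simp
      ring
    have h5 : (t + 2 * t ^ 6 * (Real.log t + 3)) * ((q.totient : ℝ) * Real.log h) ≤ 80 * h := by
      rw [hlog, ← ht12]
      have h6 : (q.totient : ℝ) * (12 * Real.log t) ≤ t ^ 3 * (12 * t) :=
        mul_le_mul (hφq.trans hqt) (by linarith) (by positivity) (by positivity)
      have h7 : t + 2 * t ^ 6 * (Real.log t + 3) ≤ t + 2 * t ^ 6 * (5 / 2 * t) := by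
        have : Real.log t + 3 ≤ 5 / 2 * t := by linarith
        have := mul_le_mul_of_nonneg_left this (by positivity : 0 ≤ 2 * t ^ 6)
        linarith
      calc _ ≤ (t + 2 * t ^ 6 * (5 / 2 * t)) * (t ^ 3 * (12 * t)) :=
            mul_le_mul h7 h6 (by positivity) (by positivity)
        _ = 12 * t ^ 5 + 60 * t ^ 11 := by ring
        _ ≤ 80 * t ^ 12 := by
          have h8 : t ^ 5 ≤ t ^ 12 := pow_le_pow_right₀ (by linarith) (by norm_num)
          have h9 : t ^ 11 ≤ t ^ 12 := pow_le_pow_right₀ (by linarith) (by norm_num)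
          have h10 : 0 < t ^ 12 := by positivity
          linarith
    calc _ ≤ (t + ((h : ℝ) / q * (2 * C0 * ((q : ℝ) / (q.totient : ℝ) / Real.log t)) +
          2 * t ^ 6 * (Real.log t + 3))) * ((q.totient : ℝ) * Real.log h) := by
          refine mul_le_mul_of_nonneg_right ?_ (by positivity)
          linarith
      _ = (h : ℝ) / q * (2 * C0 * ((q : ℝ) / (q.totient : ℝ) / Real.log t)) * ((q.totient : ℝ) * Real.log h) +
          (t + 2 * t ^ 6 * (Real.log t + 3)) * ((q.totient : ℝ) * Real.log h) := by ring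
      _ ≤ 24 * C0 * h + 80 * h := by rw [h4]; linarith
      _ ≤ _ := by nlinarith

end Pool.Agent.P83e
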