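import Pool.Agent.Lib.P83e.BTa

/-!
# Brun-Titchmarsh for sums of periodic functions

PROOF. Split the primes `p` coprime to `q` according to `a = p % q` (`a` coprime to `q`), `G p = G a`, and use
`brun_titchmarsh` for every `a`.
-/

set_option autoImplicit false

open Finset

namespace Pool.Agent.P83e

namespace BTsAux

theorem per (q : ℕ) (G : ℕ → ℝ) (hG : ∀ a, G (a + q) = G a) (a k : ℕ) : G (a + q * k) = G a := by
  induction k with
  | zero => simp
  | succ k ih => rw [Nat.mul_succ, ← add_assoc, hG, ih]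

end BTsAux

open Classical in
theorem bt_sum : ∃ C : ℝ, 0 < C ∧ ∀ h : ℕ, 2 ≤ h → ∀ u q : ℕ, 0 < q → q ^ 4 ≤ h → ∀ G : ℕ → ℝ,
    (∀ a, 0 ≤ G a) → (∀ a, G (a + q) = G a) →
    ∑ p ∈ (Ioc u (u + h)).filter (fun p => p.Prime ∧ p.Coprime q), G p ≤
      C * h / ((q.totient : ℝ) * Real.log h) * ∑ a ∈ (range q).filter (fun a => a.Coprime q), G a := by
  obtain ⟨C, hC, hbt⟩ := brun_titchmarsh
  refine ⟨C, hC, ?_⟩
  intro h hh u q hq hq4 G hG0 hGp
  have hmaps : ∀ p ∈ (Ioc u (u + h)).filter (fun p => p.Prime ∧ p.Coprime q),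
      p % q ∈ (range q).filter (fun a => a.Coprime q) := by
    intro p hp
    rw [mem_filter] at hp ⊢
    refine ⟨mem_range.2 (Nat.mod_lt _ hq), ?_⟩
    have h1 : (p % q).gcd q = p.gcd q := Nat.ModEq.gcd_eq (Nat.mod_modEq p q)
    unfold Nat.Coprime
    rw [h1]
    exact hp.2.2
  rw [← Finset.sum_fiberwise_of_maps_to hmaps, Finset.mul_sum]
  refine Finset.sum_le_sum fun a ha => ?_
  rw [mem_filter] at ha
  have h2 : ∀ p ∈ ((Ioc u (u + h)).filter (fun p => p.Prime ∧ p.Coprime q)).filter (fun p => p % q = a),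
      G p = G a := by
    intro p hp
    rw [mem_filter] at hp
    have h3 := BTsAux.per q G hGp (p % q) (p / q)
    rw [Nat.mod_add_div] at h3
    rw [h3, hp.2]
  rw [Finset.sum_congr rfl h2, Finset.sum_const, nsmul_eq_mul]
  refine mul_le_mul_of_nonneg_right ?_ (hG0 a)
  refine le_trans ?_ (hbt h hh u q a hq hq4 ha.2)
  have h4 : ((Ioc u (u + h)).filter (fun p => p.Prime ∧ p.Coprime q)).filter (fun p => p % q = a) ⊆
      (Ioc u (u + h)).filter (fun p => p.Prime ∧ p ≡ a [MOD q]) := by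
    intro p hp
    rw [mem_filter, mem_filter] at hp
    rw [mem_filter]
    refine ⟨hp.1.1, hp.1.2.1, ?_⟩
    have h5 := mem_range.1 ha.1
    unfold Nat.ModEq
    rw [Nat.mod_eq_of_lt h5]
    exact hp.2
  exact_mod_cast Finset.card_le_card h4

end Pool.Agent.P83e
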