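import Pool.Agent.Lib.P83e.Glob
import Pool.Agent.Lib.P83e.BTs

/-!
# The primes `p > (1 - η²) x`

PROOF. Swap: the sum counts pairs `(m, p)` with `x < p + m^2 ≤ x + y`, `Pat`, `p > (1 - η²) x - 1`, so
`m^2 ≤ η² x + y + 1` and `m ≤ 2 η √x` (`y ≤ x^(3/4)`). Cut `[0, 2 η √x]` into blocks `[j Q, (j+1) Q)`, at most
`2 η √x / Q + 1 ≤ 3 η √x / Q` of them. For `m` in a block all `p` lie in `Ioc u (u + h)`, `u = x - ((j+1) Q)^2`,
`h = y + 2 (j + 1) Q^2 ≤ 2 y` (as `Q^2 ≤ x^δ`, `y ≥ x^(1/2 + δ)`). For a fixed `p` (coprime to `Q`, since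
`p > x / 2 > Q`) the number of `m` in the block is at most `Q rho FF(p)` (`glob_rep`), so the block
contributes `≤ Q rho ∑_{p ∈ Ioc u (u+h)} FF(p) ≤ Q rho C 2 y / log x * 2` by `bt_sum` and `glob_FF`
(`log h ≥ log x / 2`, `Q^4 ≤ h`).
-/

set_option autoImplicit false

open Finset

namespace Pool.Agent.P83e

namespace PartBAux

theorem pat_mul (e : ℕ → ℤ) {Q : ℕ} (hQ : 0 < Q) (n k : ℕ) : Pat e Q (n + k * Q) ↔ Pat e Q n := by
  induction k with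
  | zero => simp
  | succ k ih =>
    have h1 : n + (k + 1) * Q = (n + k * Q) + Q := by ring
    rw [h1, Pat_add e hQ, ih]

theorem pat_sq (e : ℕ → ℤ) {Q : ℕ} (hQ : 0 < Q) (p j r : ℕ) :
    Pat e Q (p + (j * Q + r) ^ 2) ↔ Pat e Q (p + r ^ 2) := by
  have h1 : p + (j * Q + r) ^ 2 = (p + r ^ 2) + (j ^ 2 * Q + 2 * j * r) * Q := by ring
  rw [h1, pat_mul e hQ]

theorem sum_blocks (f : ℕ → ℕ) (Q J : ℕ) :
    ∑ m ∈ range (J * Q), f m = ∑ j ∈ range J, ∑ r ∈ range Q, f (j * Q + r) := by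
  induction J with
  | zero => simp
  | succ J ih =>
    have h1 : (J + 1) * Q = J * Q + Q := by ring
    rw [h1, Finset.sum_range_add, ih, Finset.sum_range_succ]

open Classical in
/-- the number of `m` in the block `j` -/
noncomputable def blk (e : ℕ → ℤ) (Q x y p j : ℕ) : ℕ :=
  ((range Q).filter (fun r => x < p + (j * Q + r) ^ 2 ∧ p + (j * Q + r) ^ 2 ≤ x + y ∧
    Pat e Q (p + (j * Q + r) ^ 2))).card

open Classical in
theorem cnt_le (e : ℕ → ℤ) (Q x y p J : ℕ)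
    (hm : ∀ m : ℕ, p + m ^ 2 ≤ x + y → m < J * Q) :
    cnt e Q x y p ≤ ∑ j ∈ range J, blk e Q x y p j := by
  have h1 : cnt e Q x y p ≤ ((range (J * Q)).filter (fun m => x < p + m ^ 2 ∧ p + m ^ 2 ≤ x + y ∧
      Pat e Q (p + m ^ 2))).card := by
    unfold cnt
    apply Finset.card_le_card
    intro m hm1
    rw [mem_filter] at hm1 ⊢
    exact ⟨mem_range.2 (hm m hm1.2.2.1), hm1.2⟩
  refine h1.trans (le_of_eq ?_)
  rw [Finset.card_filter, sum_blocks]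
  refine Finset.sum_congr rfl fun j _ => ?_
  unfold blk
  rw [Finset.card_filter]

open Classical in
theorem blk_le {e : ℕ → ℤ} {Q : ℕ} (hG : Good e Q) (hQ : 0 < Q) (x y p j : ℕ) (hp : p.Coprime Q) :
    (blk e Q x y p j : ℝ) ≤ Q * rho e Q * FF e Q p := by
  rw [← glob_rep hG hp]
  have h1 : blk e Q x y p j ≤ ((range Q).filter (fun r => Pat e Q (p + r ^ 2))).card := by
    unfold blk
    apply Finset.card_le_card
    intro r hr
    rw [mem_filter] at hr ⊢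
    exact ⟨hr.1, (pat_sq e hQ p j r).1 hr.2.2.2⟩
  exact_mod_cast h1

open Classical in
theorem blk_zero (e : ℕ → ℤ) (Q x y p j : ℕ) (hp0 : 0 < p) (hy : (2 * j + 1) * Q ^ 2 ≤ y)
    (hp : p ∉ Ioc (x - ((j + 1) * Q) ^ 2) (x - ((j + 1) * Q) ^ 2 + 2 * y)) :
    blk e Q x y p j = 0 := by
  unfold blk
  rw [Finset.card_eq_zero, Finset.filter_eq_empty_iff]
  intro r hr
  rintro ⟨h1, h2, -⟩
  apply hp
  rw [mem_range] at hr
  have h3 : (j * Q) ^ 2 ≤ (j * Q + r) ^ 2 := Nat.pow_le_pow_left (by omega) 2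
  have h4 : (j * Q + r) ^ 2 ≤ ((j + 1) * Q) ^ 2 := by
    apply Nat.pow_le_pow_left
    have : (j + 1) * Q = j * Q + Q := by ring
    omega
  have h5 : ((j + 1) * Q) ^ 2 = (j * Q) ^ 2 + (2 * j + 1) * Q ^ 2 := by ring
  rw [mem_Ioc]
  constructor <;> omega

theorem size (η δ : ℝ) (hη : 0 < η) (hη2 : η < 1 / 2) (hδ : 0 < δ) (hδ2 : δ ≤ 1 / 4) :
    ∃ x0 : ℕ, ∀ x : ℕ, x0 ≤ x → ∀ y : ℕ, (x : ℝ) ^ (1 / 2 + δ) ≤ y → y ^ 4 ≤ x ^ 3 →
    ∀ Q : ℕ, 0 < Q → ((Q : ℝ)) ^ 2 ≤ (x : ℝ) ^ δ →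
    (y : ℝ) ≤ 3 * η ^ 2 * x ∧ 1 + (Q : ℝ) ≤ η * √(x : ℝ) ∧ 3 * √(x : ℝ) * Q ≤ y ∧
    Q ^ 4 ≤ 2 * y ∧ 1 / 2 * Real.log x ≤ Real.log ((2 * y : ℕ) : ℝ) ∧ (Q : ℝ) < 3 / 4 * x ∧ 2 ≤ x := by
  refine ⟨max (max ⌈(2 / η) ^ 4⌉₊ ⌈(3 : ℝ) ^ (2 / δ)⌉₊) (max ⌈1 / (81 * η ^ 8)⌉₊ 2), ?_⟩
  intro x hx y hy hy2 Q hQ hQ2
  have h1 : (2 / η) ^ 4 ≤ (x : ℝ) :=
    (Nat.le_ceil _).trans (by exact_mod_cast (le_trans (le_trans (le_max_left _ _) (le_max_left _ _)) hx))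
  have h2 : (3 : ℝ) ^ (2 / δ) ≤ (x : ℝ) :=
    (Nat.le_ceil _).trans (by exact_mod_cast (le_trans (le_trans (le_max_right _ _) (le_max_left _ _)) hx))
  have h3 : 1 / (81 * η ^ 8) ≤ (x : ℝ) :=
    (Nat.le_ceil _).trans (by exact_mod_cast (le_trans (le_trans (le_max_left _ _) (le_max_right _ _)) hx))
  have h4 : 2 ≤ x := le_trans (le_trans (le_max_right _ _) (le_max_right _ _)) hx
  have hx0 : (0 : ℝ) < x := by
    have : 0 < x := by omega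
    exact_mod_cast this
  have hx1 : (1 : ℝ) ≤ x := by
    have : 1 ≤ x := by omega
    exact_mod_cast this
  set t : ℝ := (x : ℝ) ^ (1 / 4 : ℝ) with ht
  have ht0 : 0 < t := Real.rpow_pos_of_pos hx0 _
  have ht4 : t ^ 4 = x := by
    rw [ht, ← Real.rpow_natCast, ← Real.rpow_mul hx0.le]
    norm_num
  have hsq : √(x : ℝ) = t ^ 2 := by
    rw [← ht4]
    have : t ^ 4 = (t ^ 2) ^ 2 := by ring
    rw [this, Real.sqrt_sq (by positivity)]
  have htη : 2 / η ≤ t := by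
    have : (2 / η) ^ 4 ≤ t ^ 4 := by rw [ht4]; exact h1
    exact le_of_pow_le_pow_left₀ (by norm_num) ht0.le this
  have ht2 : 2 ≤ η * t := by
    rw [div_le_iff₀ hη] at htη
    linarith
  have ht3 : 4 < t := by nlinarith
  have hd : (3 : ℝ) ≤ (x : ℝ) ^ (δ / 2) := by
    have h5 : ((3 : ℝ) ^ (2 / δ)) ^ (δ / 2) ≤ (x : ℝ) ^ (δ / 2) :=
      Real.rpow_le_rpow (by positivity) h2 (by positivity)
    rw [← Real.rpow_mul (by norm_num)] at h5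
    have h6 : 2 / δ * (δ / 2) = 1 := by field_simp
    rw [h6, Real.rpow_one] at h5
    exact h5
  have hd2 : ((x : ℝ) ^ (δ / 2)) ^ 2 = (x : ℝ) ^ δ := by
    rw [← Real.rpow_natCast, ← Real.rpow_mul hx0.le]
    congr 1
    push_cast
    ring
  have hdt : (x : ℝ) ^ δ ≤ t := Real.rpow_le_rpow_of_exponent_le hx1 hδ2
  have hQ1 : (1 : ℝ) ≤ Q := by exact_mod_cast hQ
  have hQd : (Q : ℝ) ≤ (x : ℝ) ^ (δ / 2) := by
    rw [← hd2] at hQ2
    exact le_of_pow_le_pow_left₀ (by norm_num) (by positivity) hQ2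
  have hQt : (Q : ℝ) ≤ t := by nlinarith
  have hyd : √(x : ℝ) * (x : ℝ) ^ δ ≤ y := by
    have : (x : ℝ) ^ (1 / 2 + δ) = √(x : ℝ) * (x : ℝ) ^ δ := by
      rw [Real.rpow_add hx0, Real.sqrt_eq_rpow]
    rw [← this]
    exact hy
  have hxy : (x : ℝ) ^ (1 / 2 : ℝ) ≤ y := by
    refine le_trans (Real.rpow_le_rpow_of_exponent_le hx1 (by linarith)) hy
  have hxδ1 : (1 : ℝ) ≤ (x : ℝ) ^ δ := Real.one_le_rpow hx1 hδ.le
  refine ⟨?_, ?_, ?_, ?_, ?_, ?_, h4⟩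
  · by_contra hcon
    push Not at hcon
    have h5 : (y : ℝ) ^ 4 ≤ (x : ℝ) ^ 3 := by exact_mod_cast hy2
    have h6 : (3 * η ^ 2 * x) ^ 4 < (y : ℝ) ^ 4 :=
      pow_lt_pow_left₀ hcon (by positivity) (by norm_num)
    have h7 : (3 * η ^ 2 * (x : ℝ)) ^ 4 = (81 * η ^ 8 * x) * (x : ℝ) ^ 3 := by ring
    have h8 : 1 ≤ 81 * η ^ 8 * x := by
      rw [div_le_iff₀ (by positivity)] at h3
      linarith
    have h9 : (x : ℝ) ^ 3 ≤ (81 * η ^ 8 * x) * (x : ℝ) ^ 3 := by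
      have : 0 < (x : ℝ) ^ 3 := by positivity
      nlinarith
    linarith
  · rw [hsq]
    nlinarith
  · have h5 : 3 * (Q : ℝ) ≤ (x : ℝ) ^ δ := by
      rw [← hd2]
      nlinarith
    calc 3 * √(x : ℝ) * Q = √(x : ℝ) * (3 * Q) := by ring
      _ ≤ √(x : ℝ) * (x : ℝ) ^ δ := mul_le_mul_of_nonneg_left h5 (Real.sqrt_nonneg _)
      _ ≤ y := hyd
  · have h5 : ((Q : ℝ)) ^ 4 ≤ 2 * y := by
      have h6 : ((Q : ℝ)) ^ 4 = ((Q : ℝ) ^ 2) ^ 2 := by ring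
      have h7 : ((Q : ℝ) ^ 2) ^ 2 ≤ ((x : ℝ) ^ δ) ^ 2 := pow_le_pow_left₀ (by positivity) hQ2 2
      have h8 : ((x : ℝ) ^ δ) ^ 2 ≤ t ^ 2 := pow_le_pow_left₀ (by positivity) hdt 2
      have h9 : t ^ 2 ≤ √(x : ℝ) * (x : ℝ) ^ δ := by
        rw [hsq]
        nlinarith [sq_nonneg t]
      have h10 : (0 : ℝ) ≤ y := Nat.cast_nonneg y
      linarith
    exact_mod_cast h5
  · have h5 : Real.log ((x : ℝ) ^ (1 / 2 : ℝ)) = 1 / 2 * Real.log x := Real.log_rpow hx0 _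
    rw [← h5]
    apply Real.log_le_log (by positivity)
    push_cast
    have h10 : (0 : ℝ) ≤ y := Nat.cast_nonneg y
    linarith
  · rw [← ht4]
    have h5 : t < 3 / 4 * t ^ 4 := by
      have h6 : 64 ≤ t ^ 3 := by
        have : (4 : ℝ) ^ 3 ≤ t ^ 3 := pow_le_pow_left₀ (by norm_num) ht3.le 3
        linarith
      nlinarith
    linarith

end PartBAux

open PartBAux in
open Classical in
theorem part_b : ∃ C : ℝ, 0 < C ∧ ∀ η δ : ℝ, 0 < η → η < 1 / 2 → 0 < δ → δ ≤ 1 / 4 →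
    ∃ x0 : ℕ, ∀ x : ℕ, x0 ≤ x → ∀ y : ℕ, (x : ℝ) ^ (1 / 2 + δ) ≤ y → y ^ 4 ≤ x ^ 3 →
    ∀ (e : ℕ → ℤ) (Q : ℕ), Good e Q → ((Q : ℝ)) ^ 2 ≤ (x : ℝ) ^ δ →
    ∑ p ∈ (Ioc ⌊(1 - η ^ 2) * (x : ℝ)⌋₊ (x + y)).filter Nat.Prime, (cnt e Q x y p : ℝ) ≤
      C * η * (rho e Q * (y * √(x : ℝ)) / Real.log x) := by
  obtain ⟨C0, hC0, hbt⟩ := bt_sum
  refine ⟨12 * C0, by positivity, fun η δ hη hη2 hδ hδ2 => ?_⟩
  obtain ⟨x0, hx0⟩ := size η δ hη hη2 hδ hδ2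
  refine ⟨x0, fun x hx y hy hy2 e Q hG hQ2 => ?_⟩
  have hQ : 0 < Q := hG.1.pos
  obtain ⟨a1, a2, a3, a4, a5, a6, a7⟩ := hx0 x hx y hy hy2 Q hQ hQ2
  have hxr : (2 : ℝ) ≤ x := by exact_mod_cast a7
  have hlog : 0 < Real.log x := Real.log_pos (by linarith)
  have hsx : 0 ≤ √(x : ℝ) := Real.sqrt_nonneg _
  have hQ1 : (1 : ℝ) ≤ Q := by exact_mod_cast hQ
  set M : ℕ := ⌊2 * η * √(x : ℝ)⌋₊ + 1 with hM
  set J : ℕ := M / Q + 1 with hJ
  have hJQ : M < J * Q := by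
    have h1 := Nat.lt_div_mul_add (a := M) hQ
    have h2 : J * Q = M / Q * Q + Q := by rw [hJ]; ring
    omega
  have hJQ2 : ((J * Q : ℕ) : ℝ) ≤ 3 * η * √(x : ℝ) := by
    have h1 : J * Q ≤ M + Q := by
      have h2 : J * Q = M / Q * Q + Q := by rw [hJ]; ring
      have h3 := Nat.div_mul_le_self M Q
      omega
    have h2 : (M : ℝ) ≤ 2 * η * √(x : ℝ) + 1 := by
      rw [hM]
      push_cast
      have := Nat.floor_le (show 0 ≤ 2 * η * √(x : ℝ) by positivity)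
      linarith
    have h3 : ((J * Q : ℕ) : ℝ) ≤ (M : ℝ) + Q := by exact_mod_cast h1
    linarith
  have hrho : 0 ≤ rho e Q := by
    unfold rho
    have h1 := (dens_bounds hG).1
    have h2 := (PP_bounds hG).1
    have h3 : (0 : ℝ) ≤ 1 / Q := by positivity
    exact mul_nonneg (h3.trans h1) (h3.trans h2)
  -- bound of one block
  have hblock : ∀ j ∈ range J,
      ∑ p ∈ (Ioc ⌊(1 - η ^ 2) * (x : ℝ)⌋₊ (x + y)).filter Nat.Prime, (blk e Q x y p j : ℝ) ≤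
        4 * C0 * (Q * rho e Q * y / Real.log x) := by
    intro j hj
    rw [mem_range] at hj
    have hjy : (2 * j + 1) * Q ^ 2 ≤ y := by
      have h1 : (((2 * j + 1) * Q ^ 2 : ℕ) : ℝ) ≤ y := by
        have h2 : ((j : ℝ) + 1) ≤ J := by exact_mod_cast hj
        have h3 : (J : ℝ) * Q ≤ 3 * η * √(x : ℝ) := by exact_mod_cast hJQ2
        have h4 : (2 * (j : ℝ) + 1) * Q ≤ 3 * √(x : ℝ) := by
          have h5 : (2 * (j : ℝ) + 1) * Q ≤ 2 * (J * Q) := by nlinarith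
          have h6 : 2 * (3 * η * √(x : ℝ)) ≤ 3 * √(x : ℝ) := by nlinarith
          linarith
        push_cast
        calc (2 * (j : ℝ) + 1) * (Q : ℝ) ^ 2 = ((2 * (j : ℝ) + 1) * Q) * Q := by ring
          _ ≤ 3 * √(x : ℝ) * Q := mul_le_mul_of_nonneg_right h4 (by positivity)
          _ ≤ y := a3
      exact_mod_cast h1
    set u : ℕ := x - ((j + 1) * Q) ^ 2 with hu
    have hcop : ∀ p ∈ (Ioc ⌊(1 - η ^ 2) * (x : ℝ)⌋₊ (x + y)).filter Nat.Prime, p.Coprime Q := by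
      intro p hp
      rw [mem_filter, mem_Ioc] at hp
      have h1 : (1 - η ^ 2) * (x : ℝ) < p := Nat.lt_of_floor_lt hp.1.1
      have h2a : 3 / 4 ≤ 1 - η ^ 2 := by nlinarith
      have h2 : 3 / 4 * (x : ℝ) ≤ (1 - η ^ 2) * x := mul_le_mul_of_nonneg_right h2a (by linarith)
      have h3 : (Q : ℝ) < p := by linarith
      have h4 : Q < p := by exact_mod_cast h3
      exact (Nat.Prime.coprime_iff_not_dvd hp.2).2 (fun hd => absurd (Nat.le_of_dvd hQ hd) (by omega))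
    have h1 : ∑ p ∈ (Ioc ⌊(1 - η ^ 2) * (x : ℝ)⌋₊ (x + y)).filter Nat.Prime, (blk e Q x y p j : ℝ) ≤
        ∑ p ∈ (Ioc u (u + 2 * y)).filter (fun p => p.Prime ∧ p.Coprime Q),
          Q * rho e Q * FF e Q p := by
      have h2 : ∑ p ∈ (Ioc ⌊(1 - η ^ 2) * (x : ℝ)⌋₊ (x + y)).filter Nat.Prime, (blk e Q x y p j : ℝ) ≤
          ∑ p ∈ ((Ioc ⌊(1 - η ^ 2) * (x : ℝ)⌋₊ (x + y)).filter Nat.Prime).filter
            (fun p => p ∈ Ioc u (u + 2 * y)), Q * rho e Q * FF e Q p := by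
        rw [Finset.sum_filter (s := (Ioc ⌊(1 - η ^ 2) * (x : ℝ)⌋₊ (x + y)).filter Nat.Prime)]
        refine Finset.sum_le_sum fun p hp => ?_
        by_cases hpu : p ∈ Ioc u (u + 2 * y)
        · rw [if_pos hpu]
          exact blk_le hG hQ x y p j (hcop p hp)
        · rw [if_neg hpu, blk_zero e Q x y p j ((mem_filter.1 hp).2.pos) hjy hpu]
          simp
      refine h2.trans (Finset.sum_le_sum_of_subset_of_nonneg ?_ ?_)
      · intro p hp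
        rw [mem_filter] at hp
        rw [mem_filter]
        exact ⟨hp.2, (mem_filter.1 hp.1).2, hcop p hp.1⟩
      · intro p _ _
        have := FF_nonneg hG p
        positivity
    have h2 := hbt (2 * y) (by
      have : 0 < Q ^ 4 := by positivity
      by_contra hcon
      have hy0 : y = 0 := by omega
      rw [hy0] at a4
      omega) u Q hQ a4 (FF e Q) (FF_nonneg hG) (FF_add hG)
    rw [glob_FF hG] at h2
    have htot : (0 : ℝ) < (Q.totient : ℝ) := by exact_mod_cast Nat.totient_pos.2 hQ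
    have hl2 : 0 < Real.log ((2 * y : ℕ) : ℝ) := by linarith
    have h3 : C0 * ((2 * y : ℕ) : ℝ) / ((Q.totient : ℝ) * Real.log ((2 * y : ℕ) : ℝ)) * (Q.totient : ℝ) =
        C0 * ((2 * y : ℕ) : ℝ) / Real.log ((2 * y : ℕ) : ℝ) := by
      field_simp
    rw [h3] at h2
    have h4 : C0 * ((2 * y : ℕ) : ℝ) / Real.log ((2 * y : ℕ) : ℝ) ≤ 4 * C0 * (y / Real.log x) := by
      have h5 : C0 * ((2 * y : ℕ) : ℝ) / Real.log ((2 * y : ℕ) : ℝ) ≤
          C0 * ((2 * y : ℕ) : ℝ) / (1 / 2 * Real.log x) :=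
        div_le_div_of_nonneg_left (by positivity) (by positivity) a5
      refine h5.trans (le_of_eq ?_)
      push_cast
      field_simp
      ring
    calc ∑ p ∈ (Ioc ⌊(1 - η ^ 2) * (x : ℝ)⌋₊ (x + y)).filter Nat.Prime, (blk e Q x y p j : ℝ)
        ≤ ∑ p ∈ (Ioc u (u + 2 * y)).filter (fun p => p.Prime ∧ p.Coprime Q),
          Q * rho e Q * FF e Q p := h1
      _ = Q * rho e Q * ∑ p ∈ (Ioc u (u + 2 * y)).filter (fun p => p.Prime ∧ p.Coprime Q),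
          FF e Q p := by rw [Finset.mul_sum]
      _ ≤ Q * rho e Q * (4 * C0 * (y / Real.log x)) :=
          mul_le_mul_of_nonneg_left (h2.trans h4) (by positivity)
      _ = 4 * C0 * (Q * rho e Q * y / Real.log x) := by ring
  have hm : ∀ p ∈ (Ioc ⌊(1 - η ^ 2) * (x : ℝ)⌋₊ (x + y)).filter Nat.Prime, ∀ m : ℕ,
      p + m ^ 2 ≤ x + y → m < J * Q := by
    intro p hp m hpm
    rw [mem_filter, mem_Ioc] at hp
    have h1 : (1 - η ^ 2) * (x : ℝ) < p := Nat.lt_of_floor_lt hp.1.1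
    have h2 : (p : ℝ) + (m : ℝ) ^ 2 ≤ x + y := by exact_mod_cast hpm
    have h3 : (m : ℝ) ^ 2 < (2 * η * √(x : ℝ)) ^ 2 := by
      have h4 : (2 * η * √(x : ℝ)) ^ 2 = 4 * η ^ 2 * x := by
        rw [mul_pow, Real.sq_sqrt (by positivity)]
        ring
      rw [h4]
      nlinarith
    have h4 : (m : ℝ) < 2 * η * √(x : ℝ) := lt_of_pow_lt_pow_left₀ 2 (by positivity) h3
    have h5 : m ≤ ⌊2 * η * √(x : ℝ)⌋₊ := Nat.le_floor h4.le
    omega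
  calc ∑ p ∈ (Ioc ⌊(1 - η ^ 2) * (x : ℝ)⌋₊ (x + y)).filter Nat.Prime, (cnt e Q x y p : ℝ)
      ≤ ∑ p ∈ (Ioc ⌊(1 - η ^ 2) * (x : ℝ)⌋₊ (x + y)).filter Nat.Prime,
          ∑ j ∈ range J, (blk e Q x y p j : ℝ) := by
        refine Finset.sum_le_sum fun p hp => ?_
        have := cnt_le e Q x y p J (hm p hp)
        exact_mod_cast this
    _ = ∑ j ∈ range J, ∑ p ∈ (Ioc ⌊(1 - η ^ 2) * (x : ℝ)⌋₊ (x + y)).filter Nat.Prime,
          (blk e Q x y p j : ℝ) := Finset.sum_comm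
    _ ≤ ∑ _j ∈ range J, 4 * C0 * (Q * rho e Q * y / Real.log x) := Finset.sum_le_sum hblock
    _ = ((J * Q : ℕ) : ℝ) * (4 * C0 * (rho e Q * y / Real.log x)) := by
        rw [Finset.sum_const, card_range, nsmul_eq_mul]
        push_cast
        ring
    _ ≤ (3 * η * √(x : ℝ)) * (4 * C0 * (rho e Q * y / Real.log x)) :=
        mul_le_mul_of_nonneg_right hJQ2 (by positivity)
    _ = 12 * C0 * η * (rho e Q * (y * √(x : ℝ)) / Real.log x) := by ring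

end Pool.Agent.P83e
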