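import Pool.Agent.Lib.P83e.Glob
import Pool.Agent.Lib.P83e.Abel

/-!
# Counting `m` for a fixed prime

PROOF. `per_count`: an interval of length `L` contains between `⌊L/Q⌋` and `⌊L/Q⌋ + 1` complete residue systems.
`cnt_eq`: for `p ≤ x` the condition `x < p + m^2 ≤ x + y` is `m ∈ Ioc (Nat.sqrt (x - p)) (Nat.sqrt (x + y - p))`;
`|(Nat.sqrt B - Nat.sqrt A) - (√B - √A)| ≤ 1`, then `per_count` and `glob_rep`
(`K = Q * rho e Q * FF e Q p`, error `2 K + K / Q ≤ 3 K`).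
-/

set_option autoImplicit false

open Finset

namespace Pool.Agent.P83e

namespace RescAux

open Classical in
theorem block {Q : ℕ} (R : ℕ → Prop) (hR : ∀ m, R (m + Q) ↔ R m) (c : ℕ) :
    ((Ico c (c + Q)).filter R).card = ((range Q).filter R).card := by
  have hp : Function.Periodic R Q := fun m => propext (hR m)
  have h1 := Nat.filter_Ico_card_eq_of_periodic c Q R hp
  rw [h1, Nat.count_eq_card_filter_range]

open Classical in
theorem blocks {Q : ℕ} (R : ℕ → Prop) (hR : ∀ m, R (m + Q) ↔ R m) (c k : ℕ) :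
    ((Ico c (c + Q * k)).filter R).card = k * ((range Q).filter R).card := by
  induction k with
  | zero => simp
  | succ k ih =>
    have e1 : Ico c (c + Q * (k + 1)) = Ico c (c + Q * k) ∪ Ico (c + Q * k) (c + Q * k + Q) := by
      rw [Finset.Ico_union_Ico_eq_Ico (by omega) (by omega)]
      congr 1
      ring
    rw [e1, filter_union, card_union_of_disjoint, ih, block R hR]
    · ring
    · apply Finset.disjoint_filter_filter
      exact Finset.Ico_disjoint_Ico_consecutive _ _ _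

open Classical in
theorem cnt_set (e : ℕ → ℤ) (Q : ℕ) {x y p : ℕ} (hp : p < x) :
    cnt e Q x y p = ((Ioc (Nat.sqrt (x - p)) (Nat.sqrt (x + y - p))).filter
      (fun m => Pat e Q (p + m ^ 2))).card := by
  unfold cnt
  congr 1
  ext m
  simp only [mem_filter, mem_range, mem_Ioc]
  have h1 : Nat.sqrt (x - p) < m ↔ x < p + m ^ 2 := by
    rw [Nat.sqrt_lt']
    omega
  have h2 : m ≤ Nat.sqrt (x + y - p) ↔ p + m ^ 2 ≤ x + y := by
    rw [Nat.le_sqrt']
    omega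
  rw [h1, h2]
  constructor
  · rintro ⟨_, h3, h4, h5⟩
    exact ⟨⟨h3, h4⟩, h5⟩
  · rintro ⟨⟨h3, h4⟩, h5⟩
    refine ⟨?_, h3, h4, h5⟩
    have h6 : m ≤ m ^ 2 := Nat.le_self_pow (by norm_num) m
    omega

theorem sqrt_bounds (A : ℕ) : (Nat.sqrt A : ℝ) ≤ √(A : ℝ) ∧ √(A : ℝ) ≤ Nat.sqrt A + 1 := by
  refine ⟨Real.nat_sqrt_le_real_sqrt, ?_⟩
  exact (Real.real_sqrt_lt_nat_sqrt_succ).le

theorem ww_cast {x y p : ℕ} (hp : p < x) :
    ww x y p = √((x + y - p : ℕ) : ℝ) - √((x - p : ℕ) : ℝ) := by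
  unfold ww
  rw [Nat.cast_sub (by omega), Nat.cast_sub (by omega)]
  push_cast
  rfl

theorem Pat_mul (e : ℕ → ℤ) {Q : ℕ} (hQ : 0 < Q) (n k : ℕ) : Pat e Q (n + Q * k) ↔ Pat e Q n := by
  induction k with
  | zero => simp
  | succ k ih =>
    have : n + Q * (k + 1) = (n + Q * k) + Q := by ring
    rw [this, Pat_add e hQ, ih]

theorem alg (q k r K : ℝ) (hq : q ≠ 0) : (q * k + r) * (K / q) = k * K + r * K / q := by
  field_simp

theorem alg2 (q r K : ℝ) (hq : 0 < q) (hr : 0 ≤ r) (hK : 0 ≤ K) (h : r ≤ q) : 0 ≤ r * K / q ∧ r * K / q ≤ K := by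
  refine ⟨by positivity, ?_⟩
  rw [div_le_iff₀ hq]
  nlinarith

end RescAux

open Classical in
theorem per_count {Q : ℕ} (hQ : 0 < Q) (R : ℕ → Prop) (hR : ∀ m, R (m + Q) ↔ R m) (a b : ℕ) (hab : a ≤ b) :
    |(((Ioc a b).filter R).card : ℝ) - ((b : ℝ) - a) * ((((range Q).filter R).card : ℝ) / Q)| ≤
      2 * (((range Q).filter R).card : ℝ) := by
  set K := ((range Q).filter R).card with hK
  set k := (b - a) / Q with hk
  set r := (b - a) % Q with hr
  have hrQ : r < Q := Nat.mod_lt _ hQ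
  have hL : b - a = Q * k + r := (Nat.div_add_mod (b - a) Q).symm
  have hb : b = a + Q * k + r := by omega
  have e1 : Ioc a b = Ico (a + 1) (a + 1 + Q * k) ∪ Ico (a + 1 + Q * k) (a + 1 + Q * k + r) := by
    rw [Finset.Ico_union_Ico_eq_Ico (by omega) (by omega)]
    ext m
    simp only [mem_Ioc, mem_Ico]
    omega
  have e2 : ((Ioc a b).filter R).card = k * K +
      ((Ico (a + 1 + Q * k) (a + 1 + Q * k + r)).filter R).card := by
    rw [e1, filter_union, card_union_of_disjoint, RescAux.blocks R hR]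
    apply Finset.disjoint_filter_filter
    exact Finset.Ico_disjoint_Ico_consecutive _ _ _
  have e3 : ((Ico (a + 1 + Q * k) (a + 1 + Q * k + r)).filter R).card ≤ K := by
    rw [hK, ← RescAux.block R hR (a + 1 + Q * k)]
    apply card_le_card
    apply filter_subset_filter
    exact Finset.Ico_subset_Ico le_rfl (by omega)
  set t := ((Ico (a + 1 + Q * k) (a + 1 + Q * k + r)).filter R).card with ht
  have hQR : (0 : ℝ) < Q := by exact_mod_cast hQ
  have hba : (b : ℝ) - a = Q * k + r := by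
    have h9 : (b : ℝ) = ((a + Q * k + r : ℕ) : ℝ) := congrArg (Nat.cast : ℕ → ℝ) hb
    rw [h9]
    simp only [Nat.cast_add, Nat.cast_mul]
    ring
  rw [e2, hba]
  push_cast
  rw [RescAux.alg (Q : ℝ) k r K hQR.ne']
  have hK0 : (0 : ℝ) ≤ K := Nat.cast_nonneg _
  have ht0 : (0 : ℝ) ≤ t := Nat.cast_nonneg _
  have htK : (t : ℝ) ≤ K := by exact_mod_cast e3
  have hr0 : (0 : ℝ) ≤ r := Nat.cast_nonneg _
  have hrQ' : (r : ℝ) ≤ Q := by exact_mod_cast hrQ.le
  obtain ⟨h5, h6⟩ := RescAux.alg2 (Q : ℝ) r K hQR hr0 hK0 hrQ'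
  rw [abs_le]
  constructor <;> linarith

theorem cnt_eq {e : ℕ → ℤ} {Q : ℕ} (hG : Good e Q) {x y p : ℕ} (hp : p < x) (hpQ : p.Coprime Q) :
    |(cnt e Q x y p : ℝ) - ww x y p * (rho e Q * FF e Q p)| ≤ 3 * (Q * rho e Q * FF e Q p) := by
  classical
  have hQ : 0 < Q := Nat.pos_of_ne_zero hG.2.1.ne_zero
  set A := x - p with hA
  set B := x + y - p with hB
  have hAB : Nat.sqrt A ≤ Nat.sqrt B := Nat.sqrt_le_sqrt (by omega)
  have hR : ∀ m, Pat e Q (p + (m + Q) ^ 2) ↔ Pat e Q (p + m ^ 2) := by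
    intro m
    have : p + (m + Q) ^ 2 = (p + m ^ 2) + Q * (2 * m + Q) := by ring
    rw [this, RescAux.Pat_mul e hQ]
  have h1 := per_count hQ (fun m => Pat e Q (p + m ^ 2)) hR (Nat.sqrt A) (Nat.sqrt B) hAB
  have h2 := glob_rep hG hpQ
  rw [h2] at h1
  rw [RescAux.cnt_set e Q hp, RescAux.ww_cast hp]
  have hQR : (1 : ℝ) ≤ Q := by exact_mod_cast hQ
  have hK0 : 0 ≤ (Q : ℝ) * rho e Q * FF e Q p := by
    rw [← h2]; exact Nat.cast_nonneg _
  set M := rho e Q * FF e Q p with hM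
  have e1 : (Q : ℝ) * rho e Q * FF e Q p = Q * M := by rw [hM]; ring
  rw [e1] at h1 hK0 ⊢
  have e2 : (Q : ℝ) * M / Q = M := by field_simp
  rw [e2] at h1
  have hM0 : 0 ≤ M := by
    by_contra h
    push Not at h
    nlinarith
  obtain ⟨a1, a2⟩ := RescAux.sqrt_bounds A
  obtain ⟨b1, b2⟩ := RescAux.sqrt_bounds B
  set sA := √(A : ℝ)
  set sB := √(B : ℝ)
  have hMQ : M ≤ Q * M := by nlinarith
  have u1 : (((Nat.sqrt B : ℝ) - Nat.sqrt A) - (sB - sA)) * M ≤ 1 * M :=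
    mul_le_mul_of_nonneg_right (by linarith) hM0
  have u2 : (-1) * M ≤ (((Nat.sqrt B : ℝ) - Nat.sqrt A) - (sB - sA)) * M :=
    mul_le_mul_of_nonneg_right (by linarith) hM0
  rw [abs_le] at h1 ⊢
  obtain ⟨h3, h4⟩ := h1
  constructor
  · nlinarith
  · nlinarith

theorem cnt_le {e : ℕ → ℤ} {Q x y p : ℕ} (hp : p < x) : (cnt e Q x y p : ℝ) ≤ ww x y p + 1 := by
  classical
  rw [RescAux.cnt_set e Q hp, RescAux.ww_cast hp]
  have h1 : ((Ioc (Nat.sqrt (x - p)) (Nat.sqrt (x + y - p))).filter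
      (fun m => Pat e Q (p + m ^ 2))).card ≤ Nat.sqrt (x + y - p) - Nat.sqrt (x - p) := by
    refine (card_filter_le _ _).trans ?_
    rw [Nat.card_Ioc]
  have hAB : Nat.sqrt (x - p) ≤ Nat.sqrt (x + y - p) := Nat.sqrt_le_sqrt (by omega)
  have h2 : (((Ioc (Nat.sqrt (x - p)) (Nat.sqrt (x + y - p))).filter
      (fun m => Pat e Q (p + m ^ 2))).card : ℝ) ≤ (Nat.sqrt (x + y - p) : ℝ) - Nat.sqrt (x - p) := by
    rw [← Nat.cast_sub hAB]
    exact_mod_cast h1
  obtain ⟨a1, a2⟩ := RescAux.sqrt_bounds (x - p)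
  obtain ⟨b1, b2⟩ := RescAux.sqrt_bounds (x + y - p)
  linarith

end Pool.Agent.P83e
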