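import Pool.Agent.Lib.P83e.Glob
import Pool.Agent.Lib.P83e.Resc

/-!
# The right-hand side, and the swap of summations

PROOF. `rhs`: for `n ∈ (x, x+y]`, `y ≤ x^(3/4)`, `√n / log n = (1 + o(1)) √x / log x`; `|SS| = y dens Q + O(2 Q dens Q)`
(`per_count`, `glob_pat`), `Q = o(y)`.
`swap`: both sides count pairs `(m, p)` with `p` prime, `x < p + m^2 ≤ x + y`, `Pat e Q (p + m^2)`.
-/

set_option autoImplicit false

open Finset

namespace Pool.Agent.P83e

theorem RhsAux.term_bounds {κ : ℝ} (hκ : 0 < κ) {x y n : ℕ} (hx : (3 : ℝ) ≤ x) (hy : (y : ℝ) ≤ κ * x)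
    (h1 : x < n) (h2 : n ≤ x + y) :
    (1 - κ) * (√(x : ℝ) / Real.log x) ≤ √(n : ℝ) / Real.log n ∧
      √(n : ℝ) / Real.log n ≤ (1 + κ) * (√(x : ℝ) / Real.log x) := by
  have hx0 : (0 : ℝ) < x := by linarith
  have hlog : 1 ≤ Real.log x := by
    rw [Real.le_log_iff_exp_le hx0]
    have := Real.exp_one_lt_d9
    linarith
  have hn1 : (x : ℝ) ≤ n := by exact_mod_cast h1.le
  have hn2 : (n : ℝ) ≤ x + y := by exact_mod_cast h2
  have hn3 : (n : ℝ) ≤ (1 + κ) * x := by linarith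
  have hn0 : (0 : ℝ) < n := lt_of_lt_of_le hx0 hn1
  have hlogn : Real.log x ≤ Real.log n := Real.log_le_log hx0 hn1
  have hs0 : 0 ≤ √(x : ℝ) := Real.sqrt_nonneg _
  have hs : √(x : ℝ) ≤ √(n : ℝ) := Real.sqrt_le_sqrt hn1
  have hL : 0 < Real.log x := by linarith
  have hLn : 0 < Real.log n := by linarith
  constructor
  · have h3 : Real.log n ≤ Real.log x + κ := by
      have h4 : Real.log n ≤ Real.log ((1 + κ) * x) := Real.log_le_log hn0 hn3
      rw [Real.log_mul (by positivity) hx0.ne'] at h4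
      have h5 : Real.log (1 + κ) ≤ κ := by
        have := Real.log_le_sub_one_of_pos (show (0 : ℝ) < 1 + κ by positivity)
        linarith
      linarith
    have h6 : (1 - κ) * (√(x : ℝ) / Real.log x) = ((1 - κ) * √(x : ℝ)) / Real.log x := by ring
    rw [h6, div_le_div_iff₀ hL hLn]
    rcases le_or_gt κ 1 with hk | hk
    · have h7 : (1 - κ) * Real.log n ≤ Real.log x := by nlinarith
      calc (1 - κ) * √(x : ℝ) * Real.log n = √(x : ℝ) * ((1 - κ) * Real.log n) := by ring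
        _ ≤ √(x : ℝ) * Real.log x := mul_le_mul_of_nonneg_left h7 hs0
        _ ≤ √(n : ℝ) * Real.log x := mul_le_mul_of_nonneg_right hs hL.le
    · have h8 : (1 - κ) * √(x : ℝ) * Real.log n ≤ 0 := by
        have : (1 - κ) * √(x : ℝ) ≤ 0 := mul_nonpos_of_nonpos_of_nonneg (by linarith) hs0
        exact mul_nonpos_of_nonpos_of_nonneg this hLn.le
      have h9 : 0 ≤ √(n : ℝ) * Real.log x := by positivity
      linarith
  · have h3 : √(n : ℝ) ≤ (1 + κ) * √(x : ℝ) := by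
      rw [Real.sqrt_le_left (by positivity), mul_pow, Real.sq_sqrt hx0.le]
      nlinarith
    have h6 : (1 + κ) * (√(x : ℝ) / Real.log x) = ((1 + κ) * √(x : ℝ)) / Real.log x := by ring
    rw [h6, div_le_div_iff₀ hLn hL]
    calc √(n : ℝ) * Real.log x ≤ ((1 + κ) * √(x : ℝ)) * Real.log x := mul_le_mul_of_nonneg_right h3 hL.le
      _ ≤ (1 + κ) * √(x : ℝ) * Real.log n := mul_le_mul_of_nonneg_left hlogn (by positivity)

theorem rhs (η δ : ℝ) (h0 : 0 < η) (hδ : 0 < δ) (hδ2 : δ ≤ 1 / 4) :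
    ∃ x0 : ℕ, ∀ x : ℕ, x0 ≤ x → ∀ y : ℕ, (x : ℝ) ^ (1 / 2 + δ) ≤ y → y ^ 4 ≤ x ^ 3 →
    ∀ (e : ℕ → ℤ) (Q : ℕ), Good e Q → ((Q : ℝ)) ^ 2 ≤ (x : ℝ) ^ δ →
    |PP e Q * ∑ n ∈ SS e Q x y, √(n : ℝ) / Real.log n - rho e Q * (y * √(x : ℝ)) / Real.log x| ≤
      η * (rho e Q * (y * √(x : ℝ)) / Real.log x) := by
  classical
  obtain ⟨κ, hκ, hκ1, hκη⟩ : ∃ κ : ℝ, 0 < κ ∧ κ ≤ 1 / 3 ∧ 3 * κ ≤ η := by
    refine ⟨min (1 / 3) (η / 3), by positivity, min_le_left _ _, ?_⟩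
    have : min (1 / 3 : ℝ) (η / 3) ≤ η / 3 := min_le_right _ _
    linarith
  obtain ⟨x0, hx0⟩ := exists_nat_ge (max (1 / κ ^ 4) (max (4 / κ ^ 2) 3))
  refine ⟨x0, fun x hx y hy hy2 e Q hG hQ => ?_⟩
  have hxr : max (1 / κ ^ 4) (max (4 / κ ^ 2) 3) ≤ (x : ℝ) := hx0.trans (by exact_mod_cast hx)
  have hx1 : 1 / κ ^ 4 ≤ (x : ℝ) := (le_max_left _ _).trans hxr
  have hx2 : 4 / κ ^ 2 ≤ (x : ℝ) := ((le_max_left _ _).trans (le_max_right _ _)).trans hxr
  have hx3 : (3 : ℝ) ≤ (x : ℝ) := ((le_max_right _ _).trans (le_max_right _ _)).trans hxr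
  have hxp : (0 : ℝ) < x := by linarith
  have hlog : 1 ≤ Real.log x := by
    rw [Real.le_log_iff_exp_le hxp]
    have := Real.exp_one_lt_d9
    linarith
  have hQ0 : 0 < Q := Nat.pos_of_ne_zero hG.2.1.ne_zero
  have hQ1 : (1 : ℝ) ≤ Q := by exact_mod_cast hQ0
  -- `y ≤ κ x`
  have hyx : (y : ℝ) ≤ κ * x := by
    by_contra h
    push Not at h
    have h1 : (κ * x) ^ 4 < (y : ℝ) ^ 4 := pow_lt_pow_left₀ h (by positivity) (by norm_num)
    have h2 : (y : ℝ) ^ 4 ≤ (x : ℝ) ^ 3 := by exact_mod_cast hy2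
    have h3 : 1 ≤ κ ^ 4 * x := by
      rw [div_le_iff₀ (by positivity)] at hx1
      linarith
    have h4 : (x : ℝ) ^ 3 ≤ (κ * x) ^ 4 := by
      calc (x : ℝ) ^ 3 = 1 * (x : ℝ) ^ 3 := by ring
        _ ≤ (κ ^ 4 * x) * (x : ℝ) ^ 3 := mul_le_mul_of_nonneg_right h3 (by positivity)
        _ = (κ * x) ^ 4 := by ring
    linarith
  -- `2 Q ≤ κ y`
  have hQy : 2 * (Q : ℝ) ≤ κ * y := by
    have h1 : (x : ℝ) ^ (1 / 2 + δ) = √(x : ℝ) * (x : ℝ) ^ δ := by
      rw [Real.rpow_add hxp, Real.sqrt_eq_rpow]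
    have h2 : 2 / κ ≤ √(x : ℝ) := by
      apply Real.le_sqrt_of_sq_le
      have h21 : (2 / κ) ^ 2 = 4 / κ ^ 2 := by rw [div_pow]; norm_num
      rw [h21]
      exact hx2
    have h3 : (Q : ℝ) ≤ (x : ℝ) ^ δ := le_trans (by nlinarith) hQ
    have h4 : 2 / κ * (Q : ℝ) ≤ y := by
      calc 2 / κ * (Q : ℝ) ≤ √(x : ℝ) * (x : ℝ) ^ δ :=
            mul_le_mul h2 h3 (by positivity) (Real.sqrt_nonneg _)
        _ ≤ y := by rw [← h1]; exact hy
    calc 2 * (Q : ℝ) = κ * (2 / κ * (Q : ℝ)) := by field_simp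
      _ ≤ κ * y := mul_le_mul_of_nonneg_left h4 hκ.le
  have hd0 : 0 < dens Q := lt_of_lt_of_le (by positivity) (dens_bounds hG).1
  have hP0 : 0 < PP e Q := lt_of_lt_of_le (by positivity) (PP_bounds hG).1
  -- the number of elements
  have hcard : |((SS e Q x y).card : ℝ) - y * dens Q| ≤ 2 * (Q * dens Q) := by
    have h1 := per_count hQ0 (fun n => Pat e Q n) (fun n => Pat_add e hQ0 n) x (x + y) (by omega)
    have h2 := glob_pat hG
    have h3 : (((range Q).filter (fun n => Pat e Q n)).card : ℝ) = Q * dens Q := by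
      convert h2 using 2
    rw [h3] at h1
    have h4 : (((x + y : ℕ) : ℝ) - x) * (Q * dens Q / Q) = y * dens Q := by
      push_cast
      field_simp
      ring
    rw [h4] at h1
    unfold SS
    convert h1 using 5
  set N := ((SS e Q x y).card : ℝ) with hN
  set w := √(x : ℝ) / Real.log x with hw
  have hw0 : 0 < w := by positivity
  set S := ∑ n ∈ SS e Q x y, √(n : ℝ) / Real.log n with hS
  have hlow : N * ((1 - κ) * w) ≤ S := by
    rw [hS, hN, ← nsmul_eq_mul]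
    apply Finset.card_nsmul_le_sum
    intro n hn
    simp only [SS, mem_filter, mem_Ioc] at hn
    exact (RhsAux.term_bounds hκ hx3 hyx hn.1.1 hn.1.2).1
  have hup : S ≤ N * ((1 + κ) * w) := by
    rw [hS, hN, ← nsmul_eq_mul]
    apply Finset.sum_le_card_nsmul
    intro n hn
    simp only [SS, mem_filter, mem_Ioc] at hn
    exact (RhsAux.term_bounds hκ hx3 hyx hn.1.1 hn.1.2).2
  rw [abs_le] at hcard
  have hQd : 2 * (Q * dens Q) ≤ κ * (y * dens Q) := by nlinarith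
  have hN1 : (1 - κ) * (y * dens Q) ≤ N := by linarith [hcard.1]
  have hN2 : N ≤ (1 + κ) * (y * dens Q) := by linarith [hcard.2]
  have hM0 : 0 ≤ y * dens Q := by positivity
  have hS1 : (1 - 3 * κ) * (y * dens Q * w) ≤ S := by
    have h1 : (1 - κ) * (y * dens Q) * ((1 - κ) * w) ≤ N * ((1 - κ) * w) :=
      mul_le_mul_of_nonneg_right hN1 (mul_nonneg (by linarith) hw0.le)
    have h2 : (1 - 3 * κ) * (y * dens Q * w) ≤ (1 - κ) * (y * dens Q) * ((1 - κ) * w) := by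
      have h3 : (1 - κ) * (y * dens Q) * ((1 - κ) * w) - (1 - 3 * κ) * (y * dens Q * w) =
          (κ + κ ^ 2) * (y * dens Q * w) := by ring
      have h4 : 0 ≤ (κ + κ ^ 2) * (y * dens Q * w) := by positivity
      linarith
    linarith
  have hS2 : S ≤ (1 + 3 * κ) * (y * dens Q * w) := by
    have h1 : N * ((1 + κ) * w) ≤ (1 + κ) * (y * dens Q) * ((1 + κ) * w) :=
      mul_le_mul_of_nonneg_right hN2 (by positivity)
    have h2 : (1 + κ) * (y * dens Q) * ((1 + κ) * w) ≤ (1 + 3 * κ) * (y * dens Q * w) := by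
      have h3 : (1 + 3 * κ) * (y * dens Q * w) - (1 + κ) * (y * dens Q) * ((1 + κ) * w) =
          κ * (1 - κ) * (y * dens Q * w) := by ring
      have h4 : 0 ≤ κ * (1 - κ) * (y * dens Q * w) :=
        mul_nonneg (mul_nonneg hκ.le (by linarith)) (by positivity)
      linarith
    linarith
  have hR : rho e Q * (y * √(x : ℝ)) / Real.log x = PP e Q * (y * dens Q * w) := by
    rw [hw, rho]; ring
  have hZ : 0 ≤ y * dens Q * w := by positivity
  rw [hR, ← mul_sub, abs_mul, abs_of_pos hP0]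
  have h5 : |S - y * dens Q * w| ≤ η * (y * dens Q * w) := by
    have h6 : 3 * κ * (y * dens Q * w) ≤ η * (y * dens Q * w) := mul_le_mul_of_nonneg_right hκη hZ
    rw [abs_le]
    constructor <;> linarith
  calc PP e Q * |S - y * dens Q * w| ≤ PP e Q * (η * (y * dens Q * w)) :=
        mul_le_mul_of_nonneg_left h5 hP0.le
    _ = η * (PP e Q * (y * dens Q * w)) := by ring

open Classical in
theorem swap (e : ℕ → ℤ) (Q x y : ℕ) :
    ∑ n ∈ SS e Q x y, (reps n : ℝ) = ∑ p ∈ (Icc 1 (x + y)).filter Nat.Prime, (cnt e Q x y p : ℝ) := by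
  rw [← Nat.cast_sum, ← Nat.cast_sum]
  congr 1
  unfold reps cnt
  rw [← Finset.card_sigma, ← Finset.card_sigma]
  refine Finset.card_bij' (fun a _ => ⟨a.1 - a.2 ^ 2, a.2⟩) (fun a _ => ⟨a.1 + a.2 ^ 2, a.2⟩) ?_ ?_ ?_ ?_
  · rintro ⟨n, m⟩ h
    simp only [SS, mem_sigma, mem_filter, mem_Ioc, mem_range, mem_Icc] at h ⊢
    obtain ⟨⟨⟨h1, h2⟩, h3⟩, h4, h5⟩ := h
    have h6 := h5.pos
    have h7 : n - m ^ 2 + m ^ 2 = n := by omega
    refine ⟨⟨⟨by omega, by omega⟩, h5⟩, by omega, ?_⟩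
    rw [h7]
    exact ⟨h1, h2, h3⟩
  · rintro ⟨p, m⟩ h
    simp only [SS, mem_sigma, mem_filter, mem_Ioc, mem_range, mem_Icc] at h ⊢
    obtain ⟨⟨⟨h1, h2⟩, h3⟩, h4, h5, h6, h7⟩ := h
    have h8 : p + m ^ 2 - m ^ 2 = p := by omega
    have h9 : m ≤ m ^ 2 := Nat.le_self_pow (by norm_num) m
    refine ⟨⟨⟨h5, h6⟩, h7⟩, by omega, ?_⟩
    rw [h8]
    exact h3
  · rintro ⟨n, m⟩ h
    simp only [SS, mem_sigma, mem_filter, mem_Ioc, mem_range] at h
    obtain ⟨⟨⟨h1, h2⟩, h3⟩, h4, h5⟩ := h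
    have h6 := h5.pos
    have h7 : n - m ^ 2 + m ^ 2 = n := by omega
    simp only [h7]
  · rintro ⟨p, m⟩ h
    simp only [Nat.add_sub_cancel]

end Pool.Agent.P83e
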