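import Pool.Agent.Lib.P83e.PartA
import Pool.Agent.Lib.P83e.PartB
import Pool.Agent.Lib.P83e.Rhs

/-!
# The mean value for `x^(1/2+δ) ≤ y ≤ x^(3/4)`
-/

set_option autoImplicit false

open Finset

namespace Pool.Agent.P83e

theorem base (ε δ : ℝ) (hε : 0 < ε) (hδ : 0 < δ) (hδ2 : δ ≤ 1 / 4) :
    ∃ x0 : ℕ, ∀ x : ℕ, x0 ≤ x → ∀ y : ℕ, (x : ℝ) ^ (1 / 2 + δ) ≤ y → y ^ 4 ≤ x ^ 3 →
    ∀ (e : ℕ → ℤ) (Q : ℕ), Good e Q → ((Q : ℝ)) ^ 2 ≤ (x : ℝ) ^ δ →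
    |∑ n ∈ SS e Q x y, (reps n : ℝ) - PP e Q * ∑ n ∈ SS e Q x y, √(n : ℝ) / Real.log n| ≤
      ε * (PP e Q * ∑ n ∈ SS e Q x y, √(n : ℝ) / Real.log n) := by
  obtain ⟨C, hC, hB⟩ := part_b
  obtain ⟨η, hη0, hη1, hη2⟩ : ∃ η : ℝ, 0 < η ∧ η < 1 / 2 ∧ (4 + C) * η ≤ ε * (1 - η) := by
    refine ⟨min (1 / 4) (ε / (2 * (4 + C))), by positivity, ?_, ?_⟩
    · exact lt_of_le_of_lt (min_le_left _ _) (by norm_num)
    · have h1 : min (1 / 4 : ℝ) (ε / (2 * (4 + C))) ≤ 1 / 4 := min_le_left _ _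
      have h2 : min (1 / 4 : ℝ) (ε / (2 * (4 + C))) ≤ ε / (2 * (4 + C)) := min_le_right _ _
      have h3 : (4 + C) * min (1 / 4 : ℝ) (ε / (2 * (4 + C))) ≤ (4 + C) * (ε / (2 * (4 + C))) :=
        mul_le_mul_of_nonneg_left h2 (by positivity)
      have h4 : (4 + C) * (ε / (2 * (4 + C))) = ε / 2 := by field_simp
      nlinarith
  obtain ⟨x1, h1⟩ := part_a η δ hη0 hη1 hδ hδ2
  obtain ⟨x2, h2⟩ := hB η δ hη0 hη1 hδ hδ2
  obtain ⟨x3, h3⟩ := rhs η δ hη0 hδ hδ2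
  refine ⟨max (max x1 x2) (max x3 2), fun x hx y hy hy2 e Q hG hQ => ?_⟩
  have hx1 : x1 ≤ x := le_trans (le_trans (le_max_left _ _) (le_max_left _ _)) hx
  have hx2 : x2 ≤ x := le_trans (le_trans (le_max_right _ _) (le_max_left _ _)) hx
  have hx3 : x3 ≤ x := le_trans (le_trans (le_max_left _ _) (le_max_right _ _)) hx
  have hx4 : 2 ≤ x := le_trans (le_trans (le_max_right _ _) (le_max_right _ _)) hx
  have a1 := h1 x hx1 y hy hy2 e Q hG hQ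
  have a2 := h2 x hx2 y hy hy2 e Q hG hQ
  have a3 := h3 x hx3 y hy hy2 e Q hG hQ
  rw [swap]
  set M := rho e Q * (y * √(x : ℝ)) / Real.log x with hM
  set R := PP e Q * ∑ n ∈ SS e Q x y, √(n : ℝ) / Real.log n with hR
  have hX : ⌊(1 - η ^ 2) * (x : ℝ)⌋₊ ≤ x + y := by
    apply Nat.floor_le_of_le
    push_cast
    have : (0 : ℝ) ≤ η ^ 2 * x := by positivity
    have hy0 : (0 : ℝ) ≤ y := Nat.cast_nonneg y
    nlinarith
  have hsplit : ∑ p ∈ (Icc 1 (x + y)).filter Nat.Prime, (cnt e Q x y p : ℝ) =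
      ∑ p ∈ (Icc 1 ⌊(1 - η ^ 2) * (x : ℝ)⌋₊).filter Nat.Prime, (cnt e Q x y p : ℝ) +
      ∑ p ∈ (Ioc ⌊(1 - η ^ 2) * (x : ℝ)⌋₊ (x + y)).filter Nat.Prime, (cnt e Q x y p : ℝ) := by
    rw [← Finset.sum_union]
    · congr 1
      ext p
      simp only [mem_filter, mem_Icc, mem_Ioc, mem_union]
      constructor
      · rintro ⟨⟨h1, h2⟩, h3⟩
        rcases le_or_gt p ⌊(1 - η ^ 2) * (x : ℝ)⌋₊ with h | h
        · exact Or.inl ⟨⟨h1, h⟩, h3⟩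
        · exact Or.inr ⟨⟨h, h2⟩, h3⟩
      · rintro (⟨⟨h1, h2⟩, h3⟩ | ⟨⟨h1, h2⟩, h3⟩)
        · exact ⟨⟨h1, h2.trans hX⟩, h3⟩
        · exact ⟨⟨by omega, h2⟩, h3⟩
    · rw [Finset.disjoint_left]
      intro p hp hp2
      simp only [mem_filter, mem_Icc, mem_Ioc] at hp hp2
      omega
  have hB0 : 0 ≤ ∑ p ∈ (Ioc ⌊(1 - η ^ 2) * (x : ℝ)⌋₊ (x + y)).filter Nat.Prime, (cnt e Q x y p : ℝ) :=
    Finset.sum_nonneg fun p _ => Nat.cast_nonneg _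
  rw [hsplit]
  set A := ∑ p ∈ (Icc 1 ⌊(1 - η ^ 2) * (x : ℝ)⌋₊).filter Nat.Prime, (cnt e Q x y p : ℝ)
  set B := ∑ p ∈ (Ioc ⌊(1 - η ^ 2) * (x : ℝ)⌋₊ (x + y)).filter Nat.Prime, (cnt e Q x y p : ℝ)
  rw [abs_le] at a1 a3
  have hM0 : 0 ≤ M := by
    by_contra h
    push Not at h
    have : C * η * M < 0 := mul_neg_of_pos_of_neg (by positivity) h
    linarith
  have hRM : (1 - η) * M ≤ R := by linarith
  have key : (4 + C) * η * M ≤ ε * R := by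
    calc (4 + C) * η * M ≤ ε * (1 - η) * M := mul_le_mul_of_nonneg_right hη2 hM0
      _ = ε * ((1 - η) * M) := by ring
      _ ≤ ε * R := mul_le_mul_of_nonneg_left hRM hε.le
  have hCM : 0 ≤ C * η * M := by positivity
  rw [abs_le]
  constructor <;> nlinarith

end Pool.Agent.P83e
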