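import Mathlib

/-!
# Mean value of the number of representations `n = m^2 + p` over thin sets: definitions

`Pat e Q n`: `(n / q) = e q` for all primes `q ∣ Q`. `chi q p = (-p / q)`, `bb e q = 1 / (q - 1 - e q)`,
`FF e Q p = ∏_{q ∣ Q} (1 - chi q p * bb e q)`, `PP e Q = ∏_{q ∣ Q} (1 - e q / (q - 1))`,
`dens Q = ∏_{q ∣ Q} (q - 1) / (2 q)`, `rho e Q = dens Q * PP e Q`.
-/

set_option autoImplicit false

open Finset

namespace Pool.Agent.P83e

open Classical in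
/-- The number of `m` with `n - m^2` prime. -/
noncomputable def reps (n : ℕ) : ℕ := ((range (n + 1)).filter (fun m => (n - m ^ 2).Prime)).card

/-- `(n / q) = e q` for all primes `q ∣ Q`. -/
def Pat (e : ℕ → ℤ) (Q n : ℕ) : Prop := ∀ q ∈ Q.primeFactors, jacobiSym (n : ℤ) q = e q

/-- Odd squarefree modulus and signs. -/
def Good (e : ℕ → ℤ) (Q : ℕ) : Prop := Odd Q ∧ Squarefree Q ∧ ∀ q, e q = 1 ∨ e q = -1

noncomputable def chi (q p : ℕ) : ℝ := ((jacobiSym (-(p : ℤ)) q : ℤ) : ℝ)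

noncomputable def bb (e : ℕ → ℤ) (q : ℕ) : ℝ := 1 / ((q : ℝ) - 1 - (e q : ℝ))

noncomputable def FF (e : ℕ → ℤ) (Q p : ℕ) : ℝ := ∏ q ∈ Q.primeFactors, (1 - chi q p * bb e q)

noncomputable def PP (e : ℕ → ℤ) (Q : ℕ) : ℝ := ∏ q ∈ Q.primeFactors, (1 - (e q : ℝ) / ((q : ℝ) - 1))

noncomputable def dens (Q : ℕ) : ℝ := ∏ q ∈ Q.primeFactors, (((q : ℝ) - 1) / (2 * (q : ℝ)))

noncomputable def rho (e : ℕ → ℤ) (Q : ℕ) : ℝ := dens Q * PP e Q

open Classical in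
/-- The primes up to `t` not dividing `Q`. -/
noncomputable def prs (Q t : ℕ) : Finset ℕ := (Icc 1 t).filter (fun p => p.Prime ∧ p.Coprime Q)

noncomputable def TT (e : ℕ → ℤ) (Q t : ℕ) : ℝ := ∑ p ∈ prs Q t, FF e Q p

open Classical in
/-- The number of `m` with `x < p + m^2 ≤ x + y` and `Pat e Q (p + m^2)`. -/
noncomputable def cnt (e : ℕ → ℤ) (Q x y p : ℕ) : ℕ :=
  ((range (x + y + 1)).filter (fun m => x < p + m ^ 2 ∧ p + m ^ 2 ≤ x + y ∧ Pat e Q (p + m ^ 2))).card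

open Classical in
/-- The set `S`: the integers `n ∈ (x, x + y]` with `Pat e Q n`. -/
noncomputable def SS (e : ℕ → ℤ) (Q x y : ℕ) : Finset ℕ := (Ioc x (x + y)).filter (fun n => Pat e Q n)

end Pool.Agent.P83e
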