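import Pool.Agent.Lib.P83e.Defs
import Pool.Agent.Lib.P4a7640L.MertensB

/-!
# The products over the primes up to `log n`

`Qc c x = ∏ (primes 2 < q ≤ c log x) q`.
PROOF. `Qc_le`: `primorial_le_4_pow`: `Qc c x ≤ 4^(c log x) = x^(c log 4)`.
`prod_ratio`: `∏_{c log x < q ≤ log n} q / (q - 1) ≤ exp (∑ 1/(q-1)) ≤ 1 + ε`, because
`∑_{c log x < q ≤ 2 log x} 1/q → 0` (`mertens_nat` / `mertens_upper` in `P4a7640L.MertensB`, or any Mertens estimate of the
library), `n ≤ x^2`.
-/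

set_option autoImplicit false

open Finset

namespace Pool.Agent.P83e

open Classical in
/-- The odd primes up to `t`. -/
noncomputable def oddPr (t : ℝ) : Finset ℕ := (range (⌊t⌋₊ + 1)).filter (fun q => q.Prime ∧ 2 < q)

noncomputable def Qc (c : ℝ) (x : ℕ) : ℕ := ∏ q ∈ oddPr (c * Real.log x), q

namespace ProdAux

open Pool.Agent.Lib.P4a7640L

theorem mem_oddPr {t : ℝ} {q : ℕ} : q ∈ oddPr t ↔ q ≤ ⌊t⌋₊ ∧ q.Prime ∧ 2 < q := by
  simp only [oddPr, mem_filter, mem_range, Nat.lt_succ_iff]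

theorem squarefree_prod {s : Finset ℕ} (hs : ∀ q ∈ s, q.Prime) : Squarefree (∏ q ∈ s, q) := by
  classical
  induction s using Finset.induction_on with
  | empty => simp
  | insert a s ha ih =>
    rw [Finset.prod_insert ha]
    have h1 : Nat.Coprime a (∏ q ∈ s, q) := by
      apply Nat.Coprime.prod_right
      intro q hq
      rw [Nat.coprime_primes (hs a (mem_insert_self _ _)) (hs q (mem_insert_of_mem hq))]
      rintro rfl
      exact ha hq
    rw [Nat.squarefree_mul h1]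
    exact ⟨(hs a (mem_insert_self _ _)).squarefree, ih fun q hq => hs q (mem_insert_of_mem hq)⟩

theorem odd_prod {s : Finset ℕ} (hs : ∀ q ∈ s, Odd q) : Odd (∏ q ∈ s, q) :=
  Finset.prod_induction _ Odd (fun _ _ => Odd.mul) odd_one hs

/-- the sum of `3/q` over the primes between `c log x` and `2 log x` is small -/
theorem small_sum (c ε : ℝ) (hc : 0 < c) (hc1 : c ≤ 1) (hε : 0 < ε) : ∃ x0 : ℕ, ∀ x : ℕ, x0 ≤ x → 3 ≤ x ∧
    ∀ s : Finset ℕ, (∀ q ∈ s, q.Prime ∧ c * Real.log x ≤ q ∧ (q : ℝ) ≤ 2 * Real.log x) →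
    ∑ q ∈ s, 3 * ((1 : ℝ) / q) ≤ ε := by
  obtain ⟨C, hC, hM⟩ := mertens_upper
  set d : ℝ := Real.log 2 - Real.log c with hd
  have hd0 : 0 ≤ d := by
    have h1 : Real.log c ≤ 0 := Real.log_nonpos hc.le hc1
    have h2 : 0 ≤ Real.log 2 := Real.log_nonneg (by norm_num)
    linarith
  have ht : Filter.Tendsto (fun x : ℕ => Real.log (c * Real.log (x : ℝ))) Filter.atTop Filter.atTop :=
    Real.tendsto_log_atTop.comp (Filter.Tendsto.const_mul_atTop hc
      (Real.tendsto_log_atTop.comp tendsto_natCast_atTop_atTop))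
  have h2 := (ht.eventually_ge_atTop (max 1 (3 * (d + C) / ε))).and (Filter.eventually_ge_atTop 3)
  obtain ⟨x0, hx0⟩ := Filter.eventually_atTop.1 h2
  refine ⟨x0, fun x hx => ⟨(hx0 x hx).2, fun s hs => ?_⟩⟩
  obtain ⟨hK, hx3⟩ := hx0 x hx
  set v := Real.log (c * Real.log (x : ℝ)) with hv
  have hv1 : 1 ≤ v := le_trans (le_max_left _ _) hK
  have hv2 : 3 * (d + C) / ε ≤ v := le_trans (le_max_right _ _) hK
  have hx3' : (3 : ℝ) ≤ x := by exact_mod_cast hx3
  have hL : 0 < Real.log (x : ℝ) := Real.log_pos (by linarith)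
  have hcL : 0 < c * Real.log (x : ℝ) := by positivity
  have hcL1 : 1 < c * Real.log (x : ℝ) := by
    by_contra h
    push Not at h
    have : v ≤ 0 := Real.log_nonpos hcL.le h
    linarith
  have hvd : Real.log (2 * Real.log (x : ℝ)) = v + d := by
    rw [hv, Real.log_mul hc.ne' hL.ne', Real.log_mul (by norm_num) hL.ne', hd]
    ring
  have h3 : ∀ q ∈ s, q.Prime ∧ ll (c * Real.log (x : ℝ)) ≤ ll q ∧ ll q ≤ ll (2 * Real.log (x : ℝ)) := by
    intro q hq
    obtain ⟨h4, h5, h6⟩ := hs q hq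
    have h7 : v ≤ Real.log q := Real.log_le_log hcL h5
    have h8 : Real.log q ≤ Real.log (2 * Real.log (x : ℝ)) := Real.log_le_log (by linarith) h6
    exact ⟨h4, Real.log_le_log (by linarith) h7, Real.log_le_log (by linarith) h8⟩
  have hα : 0 ≤ ll (c * Real.log (x : ℝ)) := by
    show 0 ≤ Real.log v
    exact Real.log_nonneg hv1
  have hαβ : ll (c * Real.log (x : ℝ)) ≤ ll (2 * Real.log (x : ℝ)) := by
    show Real.log v ≤ Real.log (Real.log (2 * Real.log (x : ℝ)))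
    rw [hvd]
    exact Real.log_le_log (by linarith) (by linarith)
  have h9 := hM _ _ hα hαβ s h3
  have h10 : ll (2 * Real.log (x : ℝ)) - ll (c * Real.log (x : ℝ)) ≤ d / v := by
    show Real.log (Real.log (2 * Real.log (x : ℝ))) - Real.log v ≤ d / v
    rw [hvd, ← Real.log_div (by positivity) (by positivity)]
    have h11 : (v + d) / v = 1 + d / v := by field_simp
    rw [h11]
    have := Real.log_le_sub_one_of_pos (show (0 : ℝ) < 1 + d / v by positivity)
    linarith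
  have h12 : Real.exp (-ll (c * Real.log (x : ℝ))) = 1 / v := by
    show Real.exp (-Real.log v) = 1 / v
    rw [Real.exp_neg, Real.exp_log (by linarith), one_div]
  rw [h12] at h9
  rw [← Finset.mul_sum]
  have hv0 : 0 < v := by linarith
  calc 3 * ∑ q ∈ s, (1 : ℝ) / q ≤ 3 * (d / v + C * (1 / v)) := by linarith
    _ = 3 * (d + C) / v := by ring
    _ ≤ ε := by
      rw [div_le_iff₀ hv0]
      rw [div_le_iff₀ hε] at hv2
      linarith

/-- The real sets. -/
theorem sub_and_between {c : ℝ} (hc : 0 < c) (hc1 : c ≤ 1) {x n : ℕ} (hx : 3 ≤ x) (hn : x ≤ n) (hn2 : n ≤ x ^ 2) :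
    oddPr (c * Real.log x) ⊆ oddPr (Real.log n) ∧
    ∀ q ∈ oddPr (Real.log n) \ oddPr (c * Real.log x),
      3 ≤ q ∧ q.Prime ∧ c * Real.log x ≤ q ∧ (q : ℝ) ≤ 2 * Real.log x := by
  have hx' : (3 : ℝ) ≤ x := by exact_mod_cast hx
  have hL : 0 < Real.log (x : ℝ) := Real.log_pos (by linarith)
  have h1 : Real.log (x : ℝ) ≤ Real.log n := Real.log_le_log (by linarith) (by exact_mod_cast hn)
  have h2 : Real.log (n : ℝ) ≤ 2 * Real.log x := by
    have h3 : (n : ℝ) ≤ (x : ℝ) ^ 2 := by exact_mod_cast hn2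
    have h4 := Real.log_le_log (by have : (x : ℝ) ≤ n := by exact_mod_cast hn
                                   linarith) h3
    rw [Real.log_pow] at h4
    exact_mod_cast h4
  have h5 : c * Real.log (x : ℝ) ≤ Real.log n := by nlinarith
  constructor
  · intro q hq
    rw [mem_oddPr] at hq ⊢
    exact ⟨hq.1.trans (Nat.floor_le_floor h5), hq.2⟩
  · intro q hq
    rw [mem_sdiff, mem_oddPr, mem_oddPr] at hq
    obtain ⟨⟨h6, h7, h8⟩, h9⟩ := hq
    have h10 : ⌊c * Real.log (x : ℝ)⌋₊ < q := by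
      by_contra h
      push Not at h
      exact h9 ⟨h, h7, h8⟩
    have h11 : c * Real.log (x : ℝ) < q := (Nat.floor_lt (by positivity)).1 h10
    have h12 : (q : ℝ) ≤ Real.log n := (Nat.le_floor_iff (by linarith)).1 h6
    exact ⟨h8, h7, h11.le, h12.trans h2⟩

end ProdAux

open ProdAux

theorem Qc_good (e : ℕ → ℤ) (he : ∀ q, e q = 1 ∨ e q = -1) (c : ℝ) (x : ℕ) : Good e (Qc c x) := by
  refine ⟨?_, ?_, he⟩
  · apply ProdAux.odd_prod
    intro q hq
    rw [mem_oddPr] at hq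
    exact hq.2.1.odd_of_ne_two (by omega)
  · apply squarefree_prod
    intro q hq
    rw [mem_oddPr] at hq
    exact hq.2.1

theorem Qc_primeFactors (c : ℝ) (x : ℕ) : (Qc c x).primeFactors = oddPr (c * Real.log x) := by
  apply Nat.primeFactors_prod
  intro q hq
  rw [mem_oddPr] at hq
  exact hq.2.1

theorem Qc_le {c : ℝ} (hc : 0 < c) {x : ℕ} (hx : 1 ≤ x) : (Qc c x : ℝ) ≤ (x : ℝ) ^ (c * Real.log 4) := by
  have hx' : (1 : ℝ) ≤ x := by exact_mod_cast hx
  have hL : 0 ≤ Real.log (x : ℝ) := Real.log_nonneg hx'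
  have h1 : Qc c x ≤ 4 ^ ⌊c * Real.log (x : ℝ)⌋₊ := by
    refine le_trans ?_ (primorial_le_four_pow _)
    unfold Qc primorial
    apply Finset.prod_le_prod_of_subset_of_one_le'
    · intro q hq
      rw [mem_oddPr] at hq
      rw [mem_filter, mem_range]
      exact ⟨by omega, hq.2.1⟩
    · intro q hq _
      rw [mem_filter] at hq
      exact hq.2.one_lt.le
  have h2 : (Qc c x : ℝ) ≤ (4 : ℝ) ^ ⌊c * Real.log (x : ℝ)⌋₊ := by exact_mod_cast h1
  have h3 : (4 : ℝ) ^ ⌊c * Real.log (x : ℝ)⌋₊ ≤ (4 : ℝ) ^ (c * Real.log (x : ℝ)) := by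
    rw [← Real.rpow_natCast]
    exact Real.rpow_le_rpow_of_exponent_le (by norm_num) (Nat.floor_le (by positivity))
  have h4 : (4 : ℝ) ^ (c * Real.log (x : ℝ)) = (x : ℝ) ^ (c * Real.log 4) := by
    rw [Real.rpow_def_of_pos (by norm_num), Real.rpow_def_of_pos (by linarith)]
    congr 1
    ring
  rw [← h4]
  exact h2.trans h3

theorem prod_ratio (c ε : ℝ) (hc : 0 < c) (hc1 : c ≤ 1) (hε : 0 < ε) : ∃ x0 : ℕ, ∀ x : ℕ, x0 ≤ x → ∀ n : ℕ, x ≤ n →
    n ≤ x ^ 2 →
    ∏ q ∈ oddPr (Real.log n), ((q : ℝ) / ((q : ℝ) - 1)) ≤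
      (1 + ε) * ∏ q ∈ oddPr (c * Real.log x), ((q : ℝ) / ((q : ℝ) - 1)) ∧
    ∏ q ∈ oddPr (c * Real.log x), (((q : ℝ) - 2) / ((q : ℝ) - 1)) ≤
      (1 + ε) * ∏ q ∈ oddPr (Real.log n), (((q : ℝ) - 2) / ((q : ℝ) - 1)) := by
  classical
  obtain ⟨x0, hx0⟩ := small_sum c (Real.log (1 + ε)) hc hc1 (Real.log_pos (by linarith))
  refine ⟨x0, fun x hx n hn hn2 => ?_⟩
  obtain ⟨hx3, hsm⟩ := hx0 x hx
  obtain ⟨hsub, hbt⟩ := sub_and_between hc hc1 hx3 hn hn2
  have hsum := hsm (oddPr (Real.log n) \ oddPr (c * Real.log x)) (fun q hq => (hbt q hq).2)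
  have hexp : ∏ q ∈ oddPr (Real.log n) \ oddPr (c * Real.log x), Real.exp (3 * ((1 : ℝ) / q)) ≤ 1 + ε := by
    rw [← Real.exp_sum]
    calc Real.exp _ ≤ Real.exp (Real.log (1 + ε)) := Real.exp_le_exp.2 hsum
      _ = 1 + ε := Real.exp_log (by linarith)
  have hpos : ∀ t : ℝ, ∀ q ∈ oddPr t, (3 : ℝ) ≤ q := by
    intro t q hq
    rw [mem_oddPr] at hq
    exact_mod_cast hq.2.2
  constructor
  · rw [← Finset.prod_sdiff hsub]
    apply mul_le_mul_of_nonneg_right
    · refine le_trans (Finset.prod_le_prod ?_ ?_) hexp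
      · intro q hq
        have h3 : (3 : ℝ) ≤ q := by exact_mod_cast (hbt q hq).1
        exact div_nonneg (by linarith) (by linarith)
      · intro q hq
        have h3 : (3 : ℝ) ≤ q := by exact_mod_cast (hbt q hq).1
        have h4 : (q : ℝ) / ((q : ℝ) - 1) ≤ 3 * ((1 : ℝ) / q) + 1 := by
          rw [div_le_iff₀ (by linarith)]
          have h5 : (3 * ((1 : ℝ) / q) + 1) * ((q : ℝ) - 1) = q + (2 * q - 3) / q := by
            field_simp
            ring
          rw [h5]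
          have : 0 ≤ (2 * (q : ℝ) - 3) / q := div_nonneg (by linarith) (by linarith)
          linarith
        exact h4.trans (Real.add_one_le_exp _)
    · apply Finset.prod_nonneg
      intro q hq
      have h3 := hpos _ q hq
      exact div_nonneg (by linarith) (by linarith)
  · rw [← Finset.prod_sdiff hsub]
    have hP : 0 ≤ ∏ q ∈ oddPr (c * Real.log x), (((q : ℝ) - 2) / ((q : ℝ) - 1)) := by
      apply Finset.prod_nonneg
      intro q hq
      have h3 := hpos _ q hq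
      exact div_nonneg (by linarith) (by linarith)
    set D := oddPr (Real.log n) \ oddPr (c * Real.log x) with hD
    have h1 : 1 ≤ (1 + ε) * ∏ q ∈ D, (((q : ℝ) - 2) / ((q : ℝ) - 1)) := by
      have h2 : (∏ q ∈ D, Real.exp (3 * ((1 : ℝ) / q))) * ∏ q ∈ D, (((q : ℝ) - 2) / ((q : ℝ) - 1)) =
          ∏ q ∈ D, (Real.exp (3 * ((1 : ℝ) / q)) * (((q : ℝ) - 2) / ((q : ℝ) - 1))) := by
        rw [Finset.prod_mul_distrib]
      have h3 : 1 ≤ ∏ q ∈ D, (Real.exp (3 * ((1 : ℝ) / q)) * (((q : ℝ) - 2) / ((q : ℝ) - 1))) := by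
        have h31 : ∏ q ∈ D, (1 : ℝ) ≤ ∏ q ∈ D, (Real.exp (3 * ((1 : ℝ) / q)) * (((q : ℝ) - 2) / ((q : ℝ) - 1))) := by
          apply Finset.prod_le_prod (fun _ _ => zero_le_one)
          intro q hq
          have h4 : (3 : ℝ) ≤ q := by exact_mod_cast (hbt q hq).1
          have h5 : 3 * ((1 : ℝ) / q) + 1 ≤ Real.exp (3 * ((1 : ℝ) / q)) := Real.add_one_le_exp _
          have h6 : 0 ≤ ((q : ℝ) - 2) / ((q : ℝ) - 1) := div_nonneg (by linarith) (by linarith)
          refine le_trans ?_ (mul_le_mul_of_nonneg_right h5 h6)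
          rw [← mul_div_assoc, le_div_iff₀ (by linarith)]
          have h7 : (3 * ((1 : ℝ) / q) + 1) * ((q : ℝ) - 2) = (q - 1) + (2 * q - 6) / q := by
            field_simp
            ring
          rw [h7, one_mul]
          have : 0 ≤ (2 * (q : ℝ) - 6) / q := div_nonneg (by linarith) (by linarith)
          linarith
        simpa using h31
      have h8 : 0 ≤ ∏ q ∈ D, (((q : ℝ) - 2) / ((q : ℝ) - 1)) := by
        apply Finset.prod_nonneg
        intro q hq
        have h4 : (3 : ℝ) ≤ q := by exact_mod_cast (hbt q hq).1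
        exact div_nonneg (by linarith) (by linarith)
      rw [← h2] at h3
      exact h3.trans (mul_le_mul_of_nonneg_right hexp h8)
    calc ∏ q ∈ oddPr (c * Real.log x), (((q : ℝ) - 2) / ((q : ℝ) - 1))
        = 1 * ∏ q ∈ oddPr (c * Real.log x), (((q : ℝ) - 2) / ((q : ℝ) - 1)) := (one_mul _).symm
      _ ≤ ((1 + ε) * ∏ q ∈ D, (((q : ℝ) - 2) / ((q : ℝ) - 1))) *
          ∏ q ∈ oddPr (c * Real.log x), (((q : ℝ) - 2) / ((q : ℝ) - 1)) :=
          mul_le_mul_of_nonneg_right h1 hP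
      _ = _ := by ring

end Pool.Agent.P83e
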