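import Pool.Agent.Lib.P83e.Long
import Pool.Agent.Lib.P83e.Prod

/-!
# Extreme values in short intervals

PROOF. `mean_value` with `ε/4`, `y = ⌈x^(1/2+δ)⌉` or larger, `Q = Qc c' x`, `c' log 4 ≤ c`, `c' ≤ 1`.
Large values: `e = -1`, `PP = ∏ q/(q-1)`; some `n ∈ SS` has `reps n ≥ (1 - ε/4) PP √n / log n` (the sum is over a
nonempty set: `|SS| ≥ 1` because the weighted sum of `rhs` is positive, or by `per_count`), `prod_ratio`.
Small values: `e = 1`, `PP = ∏ (q-2)/(q-1)`; if all non-squares `n ∈ SS` had `reps n > (1 + ε/2) PP √n/log n`, then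
`∑_{n ∈ SS} reps n > (1 + ε/2) PP (∑_{SS} √n / log n - #squares * √(x+y) )`, and the number of squares in
`(x, x+y]` is `≤ √(x+y) - √x + 1 ≤ y/√x + 1`, negligible against `|SS| ≥ y dens Q - 2 Q`, `dens Q ≥ 1/Q`. Take `y ≤ x` here
(if `y > x`, use the interval `(x, 2 x]`).
-/

set_option autoImplicit false

open Finset

namespace Pool.Agent.P83e

namespace ExtrAux

theorem squares_card (x y : ℕ) (hx : 1 ≤ x) :
    ((((Ioc x (x + y)).filter (fun n => IsSquare n)).card : ℕ) : ℝ) ≤ (y : ℝ) / √(x : ℝ) + 1 := by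
  have h1 : ((Ioc x (x + y)).filter (fun n => IsSquare n)).card ≤ (Ioc (Nat.sqrt x) (Nat.sqrt (x + y))).card := by
    refine Finset.card_le_card_of_injOn (fun n => Nat.sqrt n) ?_ ?_
    · intro n hn
      simp only [coe_filter, mem_Ioc, Set.mem_setOf_eq] at hn
      obtain ⟨⟨h1, h2⟩, m, rfl⟩ := hn
      simp only [coe_Ioc, Set.mem_Ioc]
      rw [Nat.sqrt_eq]
      refine ⟨Nat.sqrt_lt.2 h1, ?_⟩
      rw [Nat.le_sqrt]
      exact h2
    · intro n hn n' hn' h
      simp only [coe_filter, mem_Ioc, Set.mem_setOf_eq] at hn hn'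
      obtain ⟨-, m, rfl⟩ := hn
      obtain ⟨-, m', rfl⟩ := hn'
      simp only [Nat.sqrt_eq] at h
      rw [h]
  rw [Nat.card_Ioc] at h1
  have hxr : (1 : ℝ) ≤ x := by exact_mod_cast hx
  have hsx : 0 < √(x : ℝ) := Real.sqrt_pos.2 (by linarith)
  have h2 : ((Nat.sqrt (x + y) : ℕ) : ℝ) ≤ √((x : ℝ) + y) := by
    apply Real.le_sqrt_of_sq_le
    have := Nat.sqrt_le' (x + y)
    exact_mod_cast this
  have h3 : √(x : ℝ) ≤ (Nat.sqrt x : ℝ) + 1 := by
    rw [Real.sqrt_le_left (by positivity)]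
    have h31 := Nat.lt_succ_sqrt' x
    have : x ≤ (Nat.sqrt x + 1) ^ 2 := by
      have := h31.le
      simpa [Nat.succ_eq_add_one] using this
    exact_mod_cast this
  have h4 : √((x : ℝ) + y) - √(x : ℝ) ≤ (y : ℝ) / √(x : ℝ) := by
    rw [le_div_iff₀ hsx]
    have h5 : √(x : ℝ) ≤ √((x : ℝ) + y) := Real.sqrt_le_sqrt (by
      have : (0 : ℝ) ≤ y := Nat.cast_nonneg y
      linarith)
    have h6 : √((x : ℝ) + y) ^ 2 = (x : ℝ) + y := Real.sq_sqrt (by positivity)
    have h7 : √(x : ℝ) ^ 2 = (x : ℝ) := Real.sq_sqrt (by positivity)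
    nlinarith
  have h8 : Nat.sqrt x ≤ Nat.sqrt (x + y) := Nat.sqrt_le_sqrt (by omega)
  have h9 : ((((Ioc x (x + y)).filter (fun n => IsSquare n)).card : ℕ) : ℝ) ≤
      ((Nat.sqrt (x + y) - Nat.sqrt x : ℕ) : ℝ) := by exact_mod_cast h1
  rw [Nat.cast_sub h8] at h9
  linarith

/-- the data at one `x` -/
theorem core (κ δ c : ℝ) (hκ : 0 < κ) (hκ1 : κ ≤ 1) (hδ : 0 < δ) (hδ4 : δ ≤ 1 / 4) (hc : 0 < c)
    (hc4 : c * Real.log 4 ≤ 1 / 4) :
    ∃ x0 : ℕ, ∀ x : ℕ, x0 ≤ x → ∀ y : ℕ, (x : ℝ) ^ (1 / 2 + δ) ≤ y → y ≤ x →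
    ∀ e : ℕ → ℤ, (∀ q, e q = 1 ∨ e q = -1) →
      0 < ∑ n ∈ SS e (Qc c x) x y, √(n : ℝ) / Real.log n ∧
      ∑ n ∈ (SS e (Qc c x) x y).filter (fun n => IsSquare n), √(n : ℝ) / Real.log n ≤
        κ * ∑ n ∈ SS e (Qc c x) x y, √(n : ℝ) / Real.log n := by
  classical
  obtain ⟨x0, hx0⟩ := exists_nat_ge (max ((12 / κ) ^ (4 : ℕ)) 4)
  refine ⟨x0, fun x hx y hy hyx e he => ?_⟩
  have hxr : max ((12 / κ) ^ (4 : ℕ)) 4 ≤ (x : ℝ) := hx0.trans (by exact_mod_cast hx)
  have hx1 : (12 / κ) ^ (4 : ℕ) ≤ (x : ℝ) := (le_max_left _ _).trans hxr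
  have hx4 : (4 : ℝ) ≤ (x : ℝ) := (le_max_right _ _).trans hxr
  have hxp : (0 : ℝ) < x := by linarith
  have hxn : 1 ≤ x := by
    have : (1 : ℝ) ≤ x := by linarith
    exact_mod_cast this
  have hG := Qc_good e he c x
  set Q := Qc c x with hQdef
  have hQ0 : 0 < Q := Nat.pos_of_ne_zero hG.2.1.ne_zero
  have hQ1 : (1 : ℝ) ≤ Q := by exact_mod_cast hQ0
  have hQq : (Q : ℝ) ≤ (x : ℝ) ^ (1 / 4 : ℝ) :=
    (Qc_le hc hxn).trans (Real.rpow_le_rpow_of_exponent_le (by linarith) hc4)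
  have hq4 : (x : ℝ) ^ (1 / 4 : ℝ) * (x : ℝ) ^ (1 / 4 : ℝ) = √(x : ℝ) := by
    rw [← Real.rpow_add hxp, Real.sqrt_eq_rpow]
    norm_num
  have hq5 : 12 / κ ≤ (x : ℝ) ^ (1 / 4 : ℝ) := by
    have h1 : ((12 / κ) ^ (4 : ℕ)) ^ (1 / 4 : ℝ) = 12 / κ := by
      rw [← Real.rpow_natCast, ← Real.rpow_mul (by positivity)]
      norm_num
    rw [← h1]
    exact Real.rpow_le_rpow (by positivity) hx1 (by norm_num)
  have hsx : 0 < √(x : ℝ) := Real.sqrt_pos.2 hxp
  have hx14 : 0 < (x : ℝ) ^ (1 / 4 : ℝ) := Real.rpow_pos_of_pos hxp _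
  have hQs : 12 * (Q : ℝ) ≤ κ * √(x : ℝ) := by
    rw [div_le_iff₀ hκ] at hq5
    calc 12 * (Q : ℝ) ≤ ((x : ℝ) ^ (1 / 4 : ℝ) * κ) * (x : ℝ) ^ (1 / 4 : ℝ) :=
          mul_le_mul hq5 hQq (by positivity) (by positivity)
      _ = κ * √(x : ℝ) := by rw [← hq4]; ring
  have hsy : √(x : ℝ) ≤ y := by
    refine le_trans ?_ hy
    rw [Real.sqrt_eq_rpow]
    exact Real.rpow_le_rpow_of_exponent_le (by linarith) (by linarith)
  have hyx' : (y : ℝ) ≤ x := by exact_mod_cast hyx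
  have hQy : 4 * (Q : ℝ) ≤ y := by nlinarith
  have hlog : 0 < Real.log x := Real.log_pos (by linarith)
  -- number of elements
  have hcard : |((SS e Q x y).card : ℝ) - y * dens Q| ≤ 2 * (Q * dens Q) := by
    have h1 := per_count hQ0 (fun n => Pat e Q n) (fun n => Pat_add e hQ0 n) x (x + y) (by omega)
    have h2 := glob_pat hG
    have h3 : (((range Q).filter (fun n => Pat e Q n)).card : ℝ) = Q * dens Q := by
      convert h2 using 2
    rw [h3] at h1
    have h4 : (((x + y : ℕ) : ℝ) - x) * (Q * dens Q / Q) = y * dens Q := by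
      push_cast
      field_simp
      ring
    rw [h4] at h1
    unfold SS
    convert h1 using 5
  have hd := (dens_bounds hG).1
  have hN : (y : ℝ) / (2 * Q) ≤ ((SS e Q x y).card : ℝ) := by
    have h1 := (abs_le.1 hcard).1
    have h2 : (y : ℝ) / (2 * Q) ≤ (y - 2 * Q) * dens Q := by
      calc (y : ℝ) / (2 * Q) = (y / 2) * (1 / Q) := by field_simp
        _ ≤ (y - 2 * Q) * dens Q := mul_le_mul (by linarith) hd (by positivity) (by linarith)
    nlinarith
  set W := ∑ n ∈ SS e Q x y, √(n : ℝ) / Real.log n with hW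
  set ω := √(x : ℝ) / Real.log x with hω
  have hω0 : 0 < ω := by positivity
  have hlow : ((SS e Q x y).card : ℝ) * (ω / 2) ≤ W := by
    rw [hW, ← nsmul_eq_mul]
    apply Finset.card_nsmul_le_sum
    intro n hn
    simp only [SS, mem_filter, mem_Ioc] at hn
    have hn1 : (x : ℝ) ≤ n := by exact_mod_cast hn.1.1.le
    have hn2 : (n : ℝ) ≤ (x : ℝ) ^ 2 := by
      have : (n : ℝ) ≤ x + y := by exact_mod_cast hn.1.2
      nlinarith
    have h1 : Real.log n ≤ 2 * Real.log x := by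
      have := Real.log_le_log (by linarith) hn2
      rw [Real.log_pow] at this
      exact_mod_cast this
    have h2 : 0 < Real.log n := Real.log_pos (by linarith)
    have h3 : √(x : ℝ) ≤ √(n : ℝ) := Real.sqrt_le_sqrt hn1
    rw [hω, div_div, div_le_div_iff₀ (by positivity) h2]
    nlinarith
  have hypos : (0 : ℝ) < y := by linarith
  have hNpos : 0 < (y : ℝ) / (2 * Q) := by positivity
  have hWlow : (y : ℝ) / (2 * Q) * (ω / 2) ≤ W :=
    (mul_le_mul_of_nonneg_right hN (by positivity)).trans hlow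
  refine ⟨lt_of_lt_of_le (by positivity) hWlow, ?_⟩
  have hsq : ∑ n ∈ (SS e Q x y).filter (fun n => IsSquare n), √(n : ℝ) / Real.log n ≤
      (((SS e Q x y).filter (fun n => IsSquare n)).card : ℝ) * (3 / 2 * ω) := by
    rw [← nsmul_eq_mul]
    apply Finset.sum_le_card_nsmul
    intro n hn
    simp only [SS, mem_filter, mem_Ioc] at hn
    obtain ⟨⟨⟨h1, h2⟩, -⟩, -⟩ := hn
    have hn1 : (x : ℝ) ≤ n := by exact_mod_cast h1.le
    have hn2 : (n : ℝ) ≤ x + y := by exact_mod_cast h2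
    have h3 : Real.log x ≤ Real.log n := Real.log_le_log hxp hn1
    have h4 : √(n : ℝ) ≤ 3 / 2 * √(x : ℝ) := by
      rw [Real.sqrt_le_left (by positivity), mul_pow, Real.sq_sqrt hxp.le]
      linarith
    rw [hω, ← mul_div_assoc, div_le_div_iff₀ (by linarith) hlog]
    exact mul_le_mul h4 h3 hlog.le (by positivity)
  have hsc : (((SS e Q x y).filter (fun n => IsSquare n)).card : ℝ) ≤ (y : ℝ) / √(x : ℝ) + 1 := by
    refine le_trans ?_ (squares_card x y hxn)
    have : (SS e Q x y).filter (fun n => IsSquare n) ⊆ (Ioc x (x + y)).filter (fun n => IsSquare n) := by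
      intro n hn
      simp only [SS, mem_filter] at hn ⊢
      exact ⟨hn.1.1, hn.2⟩
    exact_mod_cast Finset.card_le_card this
  have h1y : 1 ≤ (y : ℝ) / √(x : ℝ) := by
    rw [le_div_iff₀ hsx]
    linarith
  calc ∑ n ∈ (SS e Q x y).filter (fun n => IsSquare n), √(n : ℝ) / Real.log n
      ≤ (((SS e Q x y).filter (fun n => IsSquare n)).card : ℝ) * (3 / 2 * ω) := hsq
    _ ≤ (2 * ((y : ℝ) / √(x : ℝ))) * (3 / 2 * ω) :=
        mul_le_mul_of_nonneg_right (by linarith) (by positivity)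
    _ = (y * ω) * (3 / √(x : ℝ)) := by ring
    _ ≤ (y * ω) * (κ / (4 * Q)) := by
        refine mul_le_mul_of_nonneg_left ?_ (by positivity)
        rw [div_le_div_iff₀ hsx (by positivity)]
        linarith
    _ = κ * ((y : ℝ) / (2 * Q) * (ω / 2)) := by
        field_simp
        ring
    _ ≤ κ * W := mul_le_mul_of_nonneg_left hWlow hκ.le

end ExtrAux

open ExtrAux

theorem extremes (ε δ : ℝ) (hε : 0 < ε) (hδ : 0 < δ) :
    ∃ x0 : ℕ, ∀ x : ℕ, x0 ≤ x → ∀ y : ℕ, (x : ℝ) ^ (1 / 2 + δ) ≤ y →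
    (∃ n : ℕ, x < n ∧ n ≤ x + y ∧
      (1 - ε) * (√(n : ℝ) / Real.log n) * ∏ q ∈ oddPr (Real.log n), ((q : ℝ) / ((q : ℝ) - 1)) ≤ (reps n : ℝ)) ∧
    (∃ n : ℕ, x < n ∧ n ≤ x + y ∧ ¬ IsSquare n ∧
      (reps n : ℝ) ≤ (1 + ε) * (√(n : ℝ) / Real.log n) *
        ∏ q ∈ oddPr (Real.log n), (((q : ℝ) - 2) / ((q : ℝ) - 1))) := by
  classical
  obtain ⟨a, ha, ha1, haε⟩ : ∃ a : ℝ, 0 < a ∧ a ≤ 1 / 2 ∧ a ≤ ε :=
    ⟨min ε (1 / 2), by positivity, min_le_right _ _, min_le_left _ _⟩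
  obtain ⟨d, hd, hd1, hdδ⟩ : ∃ d : ℝ, 0 < d ∧ d ≤ 1 / 4 ∧ d ≤ δ :=
    ⟨min δ (1 / 4), by positivity, min_le_right _ _, min_le_left _ _⟩
  obtain ⟨c, hc, x1, h1⟩ := mean_value (a / 4) d (by positivity) hd
  have hl4 : 0 < Real.log 4 := Real.log_pos (by norm_num)
  obtain ⟨k, hk, hk1, hkc, hk4⟩ : ∃ k : ℝ, 0 < k ∧ k ≤ 1 ∧ k * Real.log 4 ≤ c ∧ k * Real.log 4 ≤ 1 / 4 := by
    refine ⟨min 1 (min (c / Real.log 4) (1 / 4 / Real.log 4)), by positivity, min_le_left _ _, ?_, ?_⟩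
    · rw [← le_div_iff₀ hl4]
      exact (min_le_right _ _).trans (min_le_left _ _)
    · rw [← le_div_iff₀ hl4]
      exact (min_le_right _ _).trans (min_le_right _ _)
  obtain ⟨x2, h2⟩ := prod_ratio k (a / 4) hk hk1 (by positivity)
  obtain ⟨x3, h3⟩ := core (a / 8) d k (by positivity) (by linarith) hd hd1 hk hk4
  refine ⟨max (max x1 x2) (max x3 2), fun x hx y hy => ?_⟩
  have hx1 : x1 ≤ x := le_trans (le_trans (le_max_left _ _) (le_max_left _ _)) hx
  have hx2 : x2 ≤ x := le_trans (le_trans (le_max_right _ _) (le_max_left _ _)) hx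
  have hx3 : x3 ≤ x := le_trans (le_trans (le_max_left _ _) (le_max_right _ _)) hx
  have hx4 : 2 ≤ x := le_trans (le_trans (le_max_right _ _) (le_max_right _ _)) hx
  have hxr : (2 : ℝ) ≤ x := by exact_mod_cast hx4
  obtain ⟨z, hzy, hzx, hz⟩ : ∃ z : ℕ, z ≤ y ∧ z ≤ x ∧ (x : ℝ) ^ (1 / 2 + d) ≤ z := by
    refine ⟨min y x, min_le_left _ _, min_le_right _ _, ?_⟩
    rw [Nat.cast_min]
    refine le_min ?_ ?_
    · refine le_trans ?_ hy
      exact Real.rpow_le_rpow_of_exponent_le (by linarith) (by linarith)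
    · calc (x : ℝ) ^ (1 / 2 + d) ≤ (x : ℝ) ^ (1 : ℝ) :=
            Real.rpow_le_rpow_of_exponent_le (by linarith) (by linarith)
        _ = x := Real.rpow_one _
  have hQc : (Qc k x : ℝ) ≤ (x : ℝ) ^ c :=
    (Qc_le hk (by omega)).trans (Real.rpow_le_rpow_of_exponent_le (by linarith) hkc)
  have hn2 : ∀ n : ℕ, n ≤ x + z → n ≤ x ^ 2 := by
    intro n hn
    nlinarith
  have hwpos : ∀ n : ℕ, x < n → 0 < √(n : ℝ) / Real.log n := by
    intro n hn
    have : (2 : ℝ) < n := by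
      have : 2 < n := by omega
      exact_mod_cast this
    have h5 : 0 < Real.log n := Real.log_pos (by linarith)
    have h6 : 0 < √(n : ℝ) := Real.sqrt_pos.2 (by linarith)
    positivity
  have hge3 : ∀ t : ℝ, ∀ q ∈ oddPr t, (3 : ℝ) ≤ q := by
    intro t q hq
    rw [ProdAux.mem_oddPr] at hq
    exact_mod_cast hq.2.2
  have hP1 : ∀ t : ℝ, 0 ≤ ∏ q ∈ oddPr t, ((q : ℝ) / ((q : ℝ) - 1)) := by
    intro t
    apply Finset.prod_nonneg
    intro q hq
    have := hge3 t q hq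
    exact div_nonneg (by linarith) (by linarith)
  have hP2 : ∀ t : ℝ, 0 < ∏ q ∈ oddPr t, (((q : ℝ) - 2) / ((q : ℝ) - 1)) := by
    intro t
    apply Finset.prod_pos
    intro q hq
    have := hge3 t q hq
    exact div_pos (by linarith) (by linarith)
  constructor
  · -- large values
    by_contra hcon
    push Not at hcon
    set e : ℕ → ℤ := fun _ => -1 with he
    have he' : ∀ q, e q = 1 ∨ e q = -1 := fun _ => Or.inr rfl
    have hG := Qc_good e he' k x
    have m1 := h1 x hx1 z hz e (Qc k x) hG hQc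
    obtain ⟨m2, -⟩ := h3 x hx3 z hz hzx e he'
    set W := ∑ n ∈ SS e (Qc k x) x z, √(n : ℝ) / Real.log n with hW
    have hPP : PP e (Qc k x) = ∏ q ∈ oddPr (k * Real.log x), ((q : ℝ) / ((q : ℝ) - 1)) := by
      unfold PP
      rw [Qc_primeFactors]
      apply Finset.prod_congr rfl
      intro q hq
      have := hge3 _ q hq
      have h5 : (q : ℝ) - 1 ≠ 0 := by linarith
      rw [he]
      push_cast
      field_simp
      ring
    have hPpos : 0 < PP e (Qc k x) := by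
      have hQ0 : 0 < Qc k x := Nat.pos_of_ne_zero hG.2.1.ne_zero
      have : (0 : ℝ) < Qc k x := by exact_mod_cast hQ0
      exact lt_of_lt_of_le (by positivity) (PP_bounds hG).1
    set P := PP e (Qc k x) with hP
    have hsum : ∑ n ∈ SS e (Qc k x) x z, (reps n : ℝ) ≤ (1 - a) * ((1 + a / 4) * P) * W := by
      rw [hW, Finset.mul_sum]
      apply Finset.sum_le_sum
      intro n hn
      simp only [SS, mem_filter, mem_Ioc] at hn
      obtain ⟨⟨hn1, hn3⟩, -⟩ := hn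
      have h5 := hcon n hn1 (by omega)
      have h6 := (h2 x hx2 n hn1.le (hn2 n hn3)).1
      rw [← hPP] at h6
      have hw := hwpos n hn1
      have h7 : (1 - ε) * (√(n : ℝ) / Real.log n) * ∏ q ∈ oddPr (Real.log n), ((q : ℝ) / ((q : ℝ) - 1)) ≤
          (1 - a) * (√(n : ℝ) / Real.log n) * ∏ q ∈ oddPr (Real.log n), ((q : ℝ) / ((q : ℝ) - 1)) :=
        mul_le_mul_of_nonneg_right (mul_le_mul_of_nonneg_right (by linarith) hw.le) (hP1 _)
      have h8 : (1 - a) * (√(n : ℝ) / Real.log n) * ∏ q ∈ oddPr (Real.log n), ((q : ℝ) / ((q : ℝ) - 1)) ≤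
          (1 - a) * (√(n : ℝ) / Real.log n) * ((1 + a / 4) * P) :=
        mul_le_mul_of_nonneg_left h6 (mul_nonneg (by linarith) hw.le)
      calc (reps n : ℝ) ≤ (1 - a) * (√(n : ℝ) / Real.log n) * ((1 + a / 4) * P) := by linarith
        _ = (1 - a) * ((1 + a / 4) * P) * (√(n : ℝ) / Real.log n) := by ring
    have hlow := (abs_le.1 m1).1
    have hPW : 0 < P * W := mul_pos hPpos m2
    have : (1 - a) * ((1 + a / 4) * P) * W = (1 - 3 / 4 * a - a ^ 2 / 4) * (P * W) := by ring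
    rw [this] at hsum
    have h11 : (1 - 3 / 4 * a - a ^ 2 / 4) * (P * W) < (1 - a / 4) * (P * W) :=
      mul_lt_mul_of_pos_right (by nlinarith) hPW
    linarith
  · -- small values
    by_contra hcon
    push Not at hcon
    set e : ℕ → ℤ := fun _ => 1 with he
    have he' : ∀ q, e q = 1 ∨ e q = -1 := fun _ => Or.inl rfl
    have hG := Qc_good e he' k x
    have m1 := h1 x hx1 z hz e (Qc k x) hG hQc
    obtain ⟨m2, m3⟩ := h3 x hx3 z hz hzx e he'
    set W := ∑ n ∈ SS e (Qc k x) x z, √(n : ℝ) / Real.log n with hW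
    have hPP : PP e (Qc k x) = ∏ q ∈ oddPr (k * Real.log x), (((q : ℝ) - 2) / ((q : ℝ) - 1)) := by
      unfold PP
      rw [Qc_primeFactors]
      apply Finset.prod_congr rfl
      intro q hq
      have := hge3 _ q hq
      have h5 : (q : ℝ) - 1 ≠ 0 := by linarith
      rw [he]
      push_cast
      field_simp
      ring
    have hPpos : 0 < PP e (Qc k x) := by
      rw [hPP]
      exact hP2 _
    set P := PP e (Qc k x) with hP
    have hsplit : ∑ n ∈ SS e (Qc k x) x z, √(n : ℝ) / Real.log n =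
        ∑ n ∈ (SS e (Qc k x) x z).filter (fun n => IsSquare n), √(n : ℝ) / Real.log n +
        ∑ n ∈ (SS e (Qc k x) x z).filter (fun n => ¬ IsSquare n), √(n : ℝ) / Real.log n :=
      (Finset.sum_filter_add_sum_filter_not _ _ _).symm
    have hsum : (1 + a / 2) * P * ∑ n ∈ (SS e (Qc k x) x z).filter (fun n => ¬ IsSquare n),
        √(n : ℝ) / Real.log n ≤ ∑ n ∈ SS e (Qc k x) x z, (reps n : ℝ) := by
      calc (1 + a / 2) * P * ∑ n ∈ (SS e (Qc k x) x z).filter (fun n => ¬ IsSquare n),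
            √(n : ℝ) / Real.log n
          ≤ ∑ n ∈ (SS e (Qc k x) x z).filter (fun n => ¬ IsSquare n), (reps n : ℝ) := by
            rw [Finset.mul_sum]
            apply Finset.sum_le_sum
            intro n hn
            simp only [SS, mem_filter, mem_Ioc] at hn
            obtain ⟨⟨⟨hn1, hn3⟩, -⟩, hns⟩ := hn
            have h5 := hcon n hn1 (by omega) hns
            have h6 := (h2 x hx2 n hn1.le (hn2 n hn3)).2
            rw [← hPP] at h6
            have hw := hwpos n hn1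
            set T := ∏ q ∈ oddPr (Real.log n), (((q : ℝ) - 2) / ((q : ℝ) - 1)) with hT
            have hT0 : 0 < T := hP2 _
            have h7 : (1 + a) * (√(n : ℝ) / Real.log n) * T ≤ (1 + ε) * (√(n : ℝ) / Real.log n) * T :=
              mul_le_mul_of_nonneg_right (mul_le_mul_of_nonneg_right (by linarith) hw.le) hT0.le
            have h8 : (1 + a / 2) * P ≤ (1 + a) * T := by
              calc (1 + a / 2) * P ≤ (1 + a / 2) * ((1 + a / 4) * T) :=
                    mul_le_mul_of_nonneg_left h6 (by linarith)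
                _ = (1 + 3 / 4 * a + a ^ 2 / 8) * T := by ring
                _ ≤ (1 + a) * T := mul_le_mul_of_nonneg_right (by nlinarith) hT0.le
            calc (1 + a / 2) * P * (√(n : ℝ) / Real.log n) ≤ (1 + a) * T * (√(n : ℝ) / Real.log n) :=
                  mul_le_mul_of_nonneg_right h8 hw.le
              _ = (1 + a) * (√(n : ℝ) / Real.log n) * T := by ring
              _ ≤ (reps n : ℝ) := by linarith
        _ ≤ ∑ n ∈ SS e (Qc k x) x z, (reps n : ℝ) :=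
            Finset.sum_le_sum_of_subset_of_nonneg (Finset.filter_subset _ _)
              (fun n _ _ => Nat.cast_nonneg _)
    have hup := (abs_le.1 m1).2
    have hns : (1 - a / 8) * W ≤ ∑ n ∈ (SS e (Qc k x) x z).filter (fun n => ¬ IsSquare n),
        √(n : ℝ) / Real.log n := by
      have : W = ∑ n ∈ (SS e (Qc k x) x z).filter (fun n => IsSquare n), √(n : ℝ) / Real.log n +
        ∑ n ∈ (SS e (Qc k x) x z).filter (fun n => ¬ IsSquare n), √(n : ℝ) / Real.log n := hsplit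
      linarith
    have hPW : 0 < P * W := mul_pos hPpos m2
    have h9 : (1 + a / 2) * P * ((1 - a / 8) * W) ≤ ∑ n ∈ SS e (Qc k x) x z, (reps n : ℝ) :=
      (mul_le_mul_of_nonneg_left hns (by positivity)).trans hsum
    have h10 : (1 + a / 2) * P * ((1 - a / 8) * W) = (1 + 3 / 8 * a - a ^ 2 / 16) * (P * W) := by ring
    rw [h10] at h9
    have h11 : (1 + a / 4) * (P * W) < (1 + 3 / 8 * a - a ^ 2 / 16) * (P * W) :=
      mul_lt_mul_of_pos_right (by nlinarith) hPW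
    linarith

end Pool.Agent.P83e
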