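import Pool.Agent.Lib.P83e.Defs

/-!
# Local computations modulo an odd prime `q`

PROOF. `jacobiSym n q = legendreSym q n` for `q` prime, `= quadraticChar (ZMod q) n`.
`loc_pat`: `∑_a χ(a) = 0`, `#{a : χ(a) = e} = ∑_{a ≠ 0} (1 + e χ(a)) / 2`.
`loc_rep`: `∑_r χ(p + r^2) = -1` for `q ∤ p` (Mathlib or by `#{(r, s) : s^2 - r^2 = p} = q - 1`), the number of
`r` with `p + r^2 = 0` is `1 + χ(-p)`, so the count is `(q + e * (-1) - (1 + χ(-p))) / 2`.
-/

set_option autoImplicit false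

open Finset

namespace Pool.Agent.P83e

namespace LocAux

theorem sum_rng {q : ℕ} [Fact q.Prime] (g : ZMod q → ℝ) :
    ∑ a ∈ range q, g ((a : ℕ) : ZMod q) = ∑ x : ZMod q, g x := by
  refine sum_nbij' (fun a : ℕ => (a : ZMod q)) (fun x : ZMod q => x.val) ?_ ?_ ?_ ?_ ?_
  · intro a _
    exact mem_univ _
  · intro x _
    exact mem_range.mpr (ZMod.val_lt x)
  · intro a ha
    exact ZMod.val_cast_of_lt (mem_range.mp ha)
  · intro x _
    exact ZMod.natCast_zmod_val x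
  · intro a _
    rfl

theorem jac_eq {q : ℕ} [Fact q.Prime] (n : ℤ) :
    jacobiSym n q = quadraticChar (ZMod q) (n : ZMod q) := by
  rw [← jacobiSym.legendreSym.to_jacobiSym]
  rfl

theorem rc {q : ℕ} (h2 : q ≠ 2) : ringChar (ZMod q) ≠ 2 := by
  rw [ZMod.ringChar_zmod_n]
  exact h2

theorem tri {q : ℕ} [Fact q.Prime] (x : ZMod q) :
    quadraticChar (ZMod q) x = 0 ∨ quadraticChar (ZMod q) x = 1 ∨ quadraticChar (ZMod q) x = -1 := by
  by_cases hx : x = 0
  · left
    rw [hx]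
    exact quadraticChar_zero
  · right
    exact quadraticChar_dichotomy hx

/-- `[χ = e] = ([χ ≠ 0] + e χ) / 2`. -/
theorem ind {q : ℕ} [Fact q.Prime] (x : ZMod q) {e : ℤ} (he : e = 1 ∨ e = -1) :
    (if quadraticChar (ZMod q) x = e then (1 : ℝ) else 0) =
      (1 - (if x = 0 then (1 : ℝ) else 0) + (e : ℝ) * ((quadraticChar (ZMod q) x : ℤ) : ℝ)) / 2 := by
  by_cases hx : x = 0
  · rw [if_pos hx, hx, quadraticChar_zero]
    rcases he with rfl | rfl <;> norm_num
  · rw [if_neg hx]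
    rcases quadraticChar_dichotomy hx with h | h <;> rcases he with rfl | rfl <;> rw [h] <;> norm_num

theorem sum_char {q : ℕ} [Fact q.Prime] (h2 : q ≠ 2) :
    ∑ x : ZMod q, ((quadraticChar (ZMod q) x : ℤ) : ℝ) = 0 := by
  have h := quadraticChar_sum_zero (rc h2)
  have h' := congrArg (fun z : ℤ => (z : ℝ)) h
  simpa using h'

theorem card_sq {q : ℕ} [Fact q.Prime] (h2 : q ≠ 2) (t : ZMod q) :
    ((univ.filter (fun r : ZMod q => r ^ 2 = t)).card : ℝ) =
      1 + ((quadraticChar (ZMod q) t : ℤ) : ℝ) := by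
  have h := quadraticChar_card_sqrts (rc h2) t
  have h1 : ({x : ZMod q | x ^ 2 = t} : Set (ZMod q)).toFinset = univ.filter (fun r : ZMod q => r ^ 2 = t) := by
    ext x
    simp
  rw [h1] at h
  have h' := congrArg (fun z : ℤ => (z : ℝ)) h
  simp only [Int.cast_natCast, Int.cast_add, Int.cast_one] at h'
  rw [h']
  ring

theorem sum_sq {q : ℕ} [Fact q.Prime] (h2 : q ≠ 2) (g : ZMod q → ℝ) :
    ∑ r : ZMod q, g (r ^ 2) = ∑ t : ZMod q, g t * (1 + ((quadraticChar (ZMod q) t : ℤ) : ℝ)) := by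
  rw [← sum_fiberwise univ (fun r : ZMod q => r ^ 2) (fun r => g (r ^ 2))]
  refine sum_congr rfl (fun t _ => ?_)
  rw [← card_sq h2 t, mul_comm, ← nsmul_eq_mul, ← sum_const]
  refine sum_congr rfl (fun r hr => ?_)
  rw [(mem_filter.mp hr).2]

theorem sum_shift {q : ℕ} [Fact q.Prime] (h2 : q ≠ 2) (c : ZMod q) :
    ∑ t : ZMod q, ((quadraticChar (ZMod q) (c + t) : ℤ) : ℝ) = 0 := by
  rw [← sum_char h2]
  exact Fintype.sum_equiv (Equiv.addLeft c) _ _ (fun x => rfl)

theorem sum_prod {q : ℕ} [Fact q.Prime] (h2 : q ≠ 2) {c : ZMod q} (hc : c ≠ 0) :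
    ∑ t : ZMod q, ((quadraticChar (ZMod q) (c + t) : ℤ) : ℝ) * ((quadraticChar (ZMod q) t : ℤ) : ℝ) = -1 := by
  have key : ∀ t : ZMod q, ((quadraticChar (ZMod q) (c + t) : ℤ) : ℝ) * ((quadraticChar (ZMod q) t : ℤ) : ℝ) =
      ((quadraticChar (ZMod q) (1 + c * t⁻¹) : ℤ) : ℝ) - (if t = 0 then (1 : ℝ) else 0) := by
    intro t
    by_cases ht : t = 0
    · rw [if_pos ht, ht, quadraticChar_zero, inv_zero, mul_zero, add_zero, add_zero, map_one]
      norm_num
    · rw [if_neg ht, sub_zero]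
      have h1 : c + t = (1 + c * t⁻¹) * t := by
        field_simp
        ring
      have h3 : quadraticChar (ZMod q) t * quadraticChar (ZMod q) t = 1 := by
        have := quadraticChar_sq_one ht
        rw [sq] at this
        exact this
      have h4 : quadraticChar (ZMod q) (c + t) * quadraticChar (ZMod q) t =
          quadraticChar (ZMod q) (1 + c * t⁻¹) := by
        rw [h1, map_mul, mul_assoc, h3, mul_one]
      rw [← h4]
      push_cast
      ring
  rw [sum_congr rfl (fun t _ => key t), sum_sub_distrib, sum_ite_eq' univ (0 : ZMod q) (fun _ => (1 : ℝ)),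
    if_pos (mem_univ _)]
  have h5 : ∑ t : ZMod q, ((quadraticChar (ZMod q) (1 + c * t⁻¹) : ℤ) : ℝ) = 0 := by
    rw [← sum_char h2]
    have hb : Function.Bijective (fun t : ZMod q => 1 + c * t⁻¹) := by
      rw [Function.bijective_iff_has_inverse]
      refine ⟨fun u => ((u - 1) * c⁻¹)⁻¹, ?_, ?_⟩
      · intro t
        show ((1 + c * t⁻¹ - 1) * c⁻¹)⁻¹ = t
        rw [add_sub_cancel_left, mul_comm c, mul_assoc, mul_inv_cancel₀ hc, mul_one, inv_inv]
      · intro u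
        show 1 + c * (((u - 1) * c⁻¹)⁻¹)⁻¹ = u
        rw [inv_inv, mul_comm, mul_assoc, inv_mul_cancel₀ hc, mul_one]
        ring
    exact Function.Bijective.sum_comp hb (fun u : ZMod q => ((quadraticChar (ZMod q) u : ℤ) : ℝ))
  rw [h5]
  norm_num

theorem sum_rep {q : ℕ} [Fact q.Prime] (h2 : q ≠ 2) {c : ZMod q} (hc : c ≠ 0) :
    ∑ r : ZMod q, ((quadraticChar (ZMod q) (c + r ^ 2) : ℤ) : ℝ) = -1 := by
  rw [sum_sq h2 (fun t => ((quadraticChar (ZMod q) (c + t) : ℤ) : ℝ))]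
  simp only [mul_add, mul_one, sum_add_distrib]
  rw [sum_shift h2, sum_prod h2 hc, zero_add]

theorem card_zero {q : ℕ} [Fact q.Prime] (h2 : q ≠ 2) (c : ZMod q) :
    ∑ r : ZMod q, (if c + r ^ 2 = 0 then (1 : ℝ) else 0) = 1 + ((quadraticChar (ZMod q) (-c) : ℤ) : ℝ) := by
  rw [← card_sq h2 (-c), card_filter, Nat.cast_sum]
  refine sum_congr rfl (fun r _ => ?_)
  by_cases h : c + r ^ 2 = 0
  · have h' : r ^ 2 = -c := by
      rw [← zero_sub, ← h]
      ring
    rw [if_pos h, if_pos h', Nat.cast_one]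
  · have h' : ¬ r ^ 2 = -c := by
      intro h1
      apply h
      rw [h1]
      ring
    rw [if_neg h, if_neg h', Nat.cast_zero]

theorem count_pat {q : ℕ} [Fact q.Prime] (h2 : q ≠ 2) {e : ℤ} (he : e = 1 ∨ e = -1) :
    ∑ a ∈ range q, (if jacobiSym ((a : ℕ) : ℤ) q = e then (1 : ℝ) else 0) = ((q : ℝ) - 1) / 2 := by
  have h1 : ∑ a ∈ range q, (if jacobiSym ((a : ℕ) : ℤ) q = e then (1 : ℝ) else 0) =
      ∑ x : ZMod q, (if quadraticChar (ZMod q) x = e then (1 : ℝ) else 0) := by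
    rw [← sum_rng (fun x : ZMod q => if quadraticChar (ZMod q) x = e then (1 : ℝ) else 0)]
    refine sum_congr rfl (fun a _ => ?_)
    rw [jac_eq, Int.cast_natCast]
  rw [h1, sum_congr rfl (fun x _ => ind x he), ← sum_div, sum_add_distrib, sum_sub_distrib, ← mul_sum,
    sum_char h2, sum_ite_eq' univ (0 : ZMod q) (fun _ => (1 : ℝ)), if_pos (mem_univ _), sum_const, card_univ,
    ZMod.card, nsmul_eq_mul]
  ring

theorem count_rep {q : ℕ} [Fact q.Prime] (h2 : q ≠ 2) {e : ℤ} (he : e = 1 ∨ e = -1) {p : ℕ} (hp : ¬ q ∣ p) :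
    ∑ r ∈ range q, (if jacobiSym ((p + r ^ 2 : ℕ) : ℤ) q = e then (1 : ℝ) else 0) =
      ((q : ℝ) - 1 - (e : ℝ) - chi q p) / 2 := by
  have hc : (p : ZMod q) ≠ 0 := by
    intro h
    exact hp ((ZMod.natCast_eq_zero_iff p q).mp h)
  have h1 : ∑ r ∈ range q, (if jacobiSym ((p + r ^ 2 : ℕ) : ℤ) q = e then (1 : ℝ) else 0) =
      ∑ x : ZMod q, (if quadraticChar (ZMod q) ((p : ZMod q) + x ^ 2) = e then (1 : ℝ) else 0) := by
    rw [← sum_rng (fun x : ZMod q => if quadraticChar (ZMod q) ((p : ZMod q) + x ^ 2) = e then (1 : ℝ) else 0)]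
    refine sum_congr rfl (fun a _ => ?_)
    rw [jac_eq, Int.cast_natCast]
    push_cast
    rfl
  have h3 : chi q p = ((quadraticChar (ZMod q) (-(p : ZMod q)) : ℤ) : ℝ) := by
    unfold chi
    rw [jac_eq]
    push_cast
    rfl
  rw [h1, sum_congr rfl (fun x _ => ind ((p : ZMod q) + x ^ 2) he), ← sum_div, sum_add_distrib, sum_sub_distrib,
    ← mul_sum, sum_rep h2 hc, card_zero h2, sum_const, card_univ, ZMod.card, nsmul_eq_mul, h3]
  ring

end LocAux

open Classical in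
theorem loc_pat {q : ℕ} (hq : q.Prime) (h2 : q ≠ 2) {e : ℤ} (he : e = 1 ∨ e = -1) :
    (((range q).filter (fun a => jacobiSym (a : ℤ) q = e)).card : ℝ) = ((q : ℝ) - 1) / 2 := by
  have : Fact q.Prime := ⟨hq⟩
  have h7 : ((range q) >>= (fun a : ℕ => (pure (a : ℤ) : Finset ℤ))) = (range q).image (fun a : ℕ => (a : ℤ)) := by
    have h8 := congrFun (congrFun (Finset.bind_def (α := ℤ) (β := ℕ)) (range q)) (fun a : ℕ => (pure (a : ℤ) : Finset ℤ))
    ext x
    rw [show ((range q) >>= (fun a : ℕ => (pure (a : ℤ) : Finset ℤ))) = _ from h8]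
    refine (@Finset.mem_sup ℤ ℕ (fun a b => propDecidable (a = b)) _ _ _).trans ?_
    rw [mem_image]
    simp only [Finset.pure_def, mem_singleton, eq_comm]
  rw [card_filter, Nat.cast_sum, h7, sum_image (fun a _ b _ h => by exact_mod_cast h),
    ← LocAux.count_pat h2 he]
  refine sum_congr rfl (fun a _ => ?_)
  split_ifs <;> simp

open Classical in
theorem loc_rep {q : ℕ} (hq : q.Prime) (h2 : q ≠ 2) {e : ℤ} (he : e = 1 ∨ e = -1) {p : ℕ} (hp : ¬ q ∣ p) :
    (((range q).filter (fun r => jacobiSym ((p + r ^ 2 : ℕ) : ℤ) q = e)).card : ℝ) =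
      ((q : ℝ) - 1 - (e : ℝ) - chi q p) / 2 := by
  have : Fact q.Prime := ⟨hq⟩
  rw [card_filter, Nat.cast_sum, ← LocAux.count_rep h2 he hp]
  refine sum_congr rfl (fun a _ => ?_)
  split_ifs <;> simp

theorem chi_sq {q : ℕ} (hq : q.Prime) {p : ℕ} (hp : ¬ q ∣ p) : chi q p ^ 2 = 1 := by
  have : Fact q.Prime := ⟨hq⟩
  have hc : -(p : ZMod q) ≠ 0 := by
    intro h
    exact hp ((ZMod.natCast_eq_zero_iff p q).mp (neg_eq_zero.mp h))
  unfold chi
  rw [LocAux.jac_eq]
  push_cast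
  have h := quadraticChar_sq_one hc
  have h' := congrArg (fun z : ℤ => (z : ℝ)) h
  push_cast at h'
  exact h'

open Classical in
theorem chi_sum {q : ℕ} (hq : q.Prime) (h2 : q ≠ 2) :
    ∑ a ∈ (range q).filter (fun a => ¬ q ∣ a), chi q a = 0 := by
  have : Fact q.Prime := ⟨hq⟩
  rw [sum_filter]
  have h1 : ∀ a ∈ range q, (if ¬ q ∣ a then chi q a else 0) =
      (fun x : ZMod q => ((quadraticChar (ZMod q) (-x) : ℤ) : ℝ)) ((a : ℕ) : ZMod q) := by
    intro a _
    by_cases h : q ∣ a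
    · rw [if_neg (not_not.mpr h)]
      have : (a : ZMod q) = 0 := (ZMod.natCast_eq_zero_iff a q).mpr h
      simp [this]
    · rw [if_pos h]
      unfold chi
      rw [LocAux.jac_eq]
      push_cast
      rfl
  rw [sum_congr rfl h1, LocAux.sum_rng (fun x : ZMod q => ((quadraticChar (ZMod q) (-x) : ℤ) : ℝ)),
    ← LocAux.sum_char h2]
  exact Fintype.sum_equiv (Equiv.neg (ZMod q)) _ _ (fun x => rfl)

theorem chi_add (q p : ℕ) : chi q (p + q) = chi q p := by
  unfold chi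
  have h : jacobiSym (-((p + q : ℕ) : ℤ)) q = jacobiSym (-(p : ℤ)) q := by
    refine jacobiSym.mod_left' ?_
    push_cast
    rw [neg_add, ← Int.sub_eq_add_neg, Int.sub_emod_right]
  rw [h]

theorem abs_chi_le (q p : ℕ) : |chi q p| ≤ 1 := by
  unfold chi
  rcases jacobiSym.trichotomy (-(p : ℤ)) q with h | h | h <;> rw [h] <;> norm_num

end Pool.Agent.P83e
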