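import Pool.Agent.Lib.P83e.Per
import Pool.Agent.Lib.P83e.Loc

/-!
# Global counts modulo `Q`

PROOF. `per_prod` with `s = Q.primeFactors` (`∏ q ∈ Q.primeFactors, q = Q` for squarefree `Q`) and the indicator
functions of the local conditions (for `glob_FF`, `glob_FF2`: `g q a = (if q ∣ a then 0 else 1 - chi q a * bb e q)`
and its square, as `a` coprime to `Q` iff no prime `q ∣ Q` divides `a`), then the local counts in `Loc`:
`∑_{a mod q, q ∤ a} (1 - chi * b) = q - 1` and `∑ (1 - chi * b)^2 = (q - 1) (1 + b^2)`.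
For `glob_rep`: `(q - 1 - e - chi) / 2 = q * ((q-1)/(2q)) * (1 - e/(q-1)) * (1 - chi * bb)`.
`q ≥ 3` for `q ∣ Q`, so `0 < bb e q ≤ 1 / (q - 2) ≤ 1`.
-/

set_option autoImplicit false

open Finset

namespace Pool.Agent.P83e

theorem prime_ge_three {Q q : ℕ} (hQ : Odd Q) (hq : q ∈ Q.primeFactors) : 3 ≤ q := by
  have hp := Nat.prime_of_mem_primeFactors hq
  have hd := Nat.dvd_of_mem_primeFactors hq
  have h2 : q ≠ 2 := by
    rintro rfl
    exact (Nat.not_even_iff_odd.mpr hQ) (even_iff_two_dvd.mpr hd)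
  have := hp.two_le
  omega

private theorem e_bds {e : ℕ → ℤ} {Q : ℕ} (hG : Good e Q) (q : ℕ) :
    (-1 : ℝ) ≤ (e q : ℝ) ∧ (e q : ℝ) ≤ 1 := by
  rcases hG.2.2 q with h | h <;> rw [h] <;> norm_num

private theorem q_ge {e : ℕ → ℤ} {Q q : ℕ} (hG : Good e Q) (hq : q ∈ Q.primeFactors) : (3 : ℝ) ≤ (q : ℝ) := by
  exact_mod_cast prime_ge_three hG.1 hq

theorem bb_pos {e : ℕ → ℤ} {Q q : ℕ} (hG : Good e Q) (hq : q ∈ Q.primeFactors) :
    0 < bb e q ∧ bb e q ≤ 1 / ((q : ℝ) - 2) := by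
  have h3 := q_ge hG hq
  obtain ⟨h1, h2⟩ := e_bds hG q
  unfold bb
  refine ⟨by apply one_div_pos.mpr; linarith, ?_⟩
  apply one_div_le_one_div_of_le <;> linarith

private theorem bb_le_one {e : ℕ → ℤ} {Q q : ℕ} (hG : Good e Q) (hq : q ∈ Q.primeFactors) : bb e q ≤ 1 := by
  have h3 := q_ge hG hq
  refine (bb_pos hG hq).2.trans ?_
  rw [div_le_one (by linarith)]
  linarith

private theorem fac_nonneg {e : ℕ → ℤ} {Q q : ℕ} (hG : Good e Q) (hq : q ∈ Q.primeFactors) (p : ℕ) :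
    0 ≤ 1 - chi q p * bb e q := by
  have h1 := abs_chi_le q p
  have h2 := (bb_pos hG hq).1
  have h3 := bb_le_one hG hq
  have h4 := (abs_le.mp h1).2
  nlinarith

theorem FF_nonneg {e : ℕ → ℤ} {Q : ℕ} (hG : Good e Q) (p : ℕ) : 0 ≤ FF e Q p := by
  unfold FF
  exact prod_nonneg (fun q hq => fac_nonneg hG hq p)

private theorem chi_add_mul (q p k : ℕ) : chi q (p + q * k) = chi q p := by
  induction k with
  | zero => simp
  | succ k ih => rw [Nat.mul_succ, ← add_assoc, chi_add, ih]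

private theorem chi_add_dvd {q Q : ℕ} (h : q ∣ Q) (p : ℕ) : chi q (p + Q) = chi q p := by
  obtain ⟨k, rfl⟩ := h
  exact chi_add_mul q p k

theorem FF_add {e : ℕ → ℤ} {Q : ℕ} (hG : Good e Q) (p : ℕ) : FF e Q (p + Q) = FF e Q p := by
  unfold FF
  refine prod_congr rfl (fun q hq => ?_)
  rw [chi_add_dvd (Nat.dvd_of_mem_primeFactors hq)]

private theorem prod_eq {e : ℕ → ℤ} {Q : ℕ} (hG : Good e Q) : ∏ q ∈ Q.primeFactors, q = Q :=
  Nat.prod_primeFactors_of_squarefree hG.2.1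

private theorem prod_eqR {e : ℕ → ℤ} {Q : ℕ} (hG : Good e Q) : ∏ q ∈ Q.primeFactors, (q : ℝ) = (Q : ℝ) := by
  have h := congrArg (fun n : ℕ => (n : ℝ)) (prod_eq hG)
  simpa [Nat.cast_prod] using h

private theorem Q_pos {e : ℕ → ℤ} {Q : ℕ} (hG : Good e Q) : 0 < Q := by
  rcases Nat.eq_zero_or_pos Q with h | h
  · have := hG.1
    rw [h] at this
    exact absurd this (by decide)
  · exact h

theorem PP_bounds {e : ℕ → ℤ} {Q : ℕ} (hG : Good e Q) : 1 / (Q : ℝ) ≤ PP e Q ∧ PP e Q ≤ (Q : ℝ) := by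
  have key : ∀ q ∈ Q.primeFactors, ((q : ℝ))⁻¹ ≤ (1 - (e q : ℝ) / ((q : ℝ) - 1)) ∧
      (1 - (e q : ℝ) / ((q : ℝ) - 1)) ≤ (q : ℝ) := by
    intro q hq
    have h3 := q_ge hG hq
    have h1 : (0 : ℝ) < (q : ℝ) - 1 := by linarith
    have h0 : (0 : ℝ) < (q : ℝ) := by linarith
    have hinv : ((q : ℝ))⁻¹ ≤ 1 / 2 := by
      rw [inv_eq_one_div]
      exact one_div_le_one_div_of_le (by norm_num) (by linarith)
    have hi2 : 1 / ((q : ℝ) - 1) ≤ 1 / 2 := one_div_le_one_div_of_le (by norm_num) (by linarith)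
    have hi3 : 0 < 1 / ((q : ℝ) - 1) := one_div_pos.mpr h1
    have he := e_bds hG q
    have h5 : (e q : ℝ) / ((q : ℝ) - 1) = (e q : ℝ) * (1 / ((q : ℝ) - 1)) := by ring
    rw [h5]
    constructor
    · nlinarith
    · nlinarith
  constructor
  · rw [one_div, ← prod_eqR hG, ← prod_inv_distrib]
    unfold PP
    refine prod_le_prod (fun q hq => ?_) (fun q hq => (key q hq).1)
    positivity
  · rw [← prod_eqR hG]
    unfold PP
    refine prod_le_prod (fun q hq => ?_) (fun q hq => (key q hq).2)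
    exact le_trans (by positivity) (key q hq).1

theorem dens_bounds {e : ℕ → ℤ} {Q : ℕ} (hG : Good e Q) : 1 / (Q : ℝ) ≤ dens Q ∧ dens Q ≤ 1 := by
  have key : ∀ q ∈ Q.primeFactors, ((q : ℝ))⁻¹ ≤ (((q : ℝ) - 1) / (2 * (q : ℝ))) ∧
      (((q : ℝ) - 1) / (2 * (q : ℝ))) ≤ 1 := by
    intro q hq
    have h3 := q_ge hG hq
    have h0 : (0 : ℝ) < (q : ℝ) := by linarith
    constructor
    · rw [inv_eq_one_div, div_le_div_iff₀ h0 (by positivity)]
      nlinarith
    · rw [div_le_one (by positivity)]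
      linarith
  constructor
  · rw [one_div, ← prod_eqR hG, ← prod_inv_distrib]
    unfold dens
    refine prod_le_prod (fun q hq => ?_) (fun q hq => (key q hq).1)
    positivity
  · unfold dens
    refine prod_le_one (fun q hq => ?_) (fun q hq => (key q hq).2)
    exact le_trans (by positivity) (key q hq).1

private theorem jac_add_dvd {q Q : ℕ} (h : q ∣ Q) (n : ℕ) :
    jacobiSym ((n + Q : ℕ) : ℤ) q = jacobiSym (n : ℤ) q := by
  refine jacobiSym.mod_left' ?_
  obtain ⟨k, rfl⟩ := h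
  push_cast
  rw [Int.add_mul_emod_self_left]

theorem Pat_add (e : ℕ → ℤ) {Q : ℕ} (hQ : 0 < Q) (n : ℕ) : Pat e Q (n + Q) ↔ Pat e Q n := by
  unfold Pat
  constructor
  · intro h q hq
    rw [← h q hq, jac_add_dvd (Nat.dvd_of_mem_primeFactors hq)]
  · intro h q hq
    rw [← h q hq, jac_add_dvd (Nat.dvd_of_mem_primeFactors hq)]

private theorem prod_ite_all {s : Finset ℕ} (P : ℕ → Prop) [DecidablePred P] :
    (∏ q ∈ s, (if P q then (1 : ℝ) else 0)) = if ∀ q ∈ s, P q then 1 else 0 := by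
  split_ifs with h
  · exact prod_eq_one (fun q hq => by rw [if_pos (h q hq)])
  · push Not at h
    obtain ⟨q, hq, hn⟩ := h
    exact prod_eq_zero hq (by rw [if_neg hn])

open Classical in
theorem glob_pat {e : ℕ → ℤ} {Q : ℕ} (hG : Good e Q) :
    (((range Q).filter (fun a => Pat e Q a)).card : ℝ) = Q * dens Q := by
  have h1 := per_prod Q.primeFactors (fun q hq => Nat.prime_of_mem_primeFactors hq)
    (fun q a => if jacobiSym (a : ℤ) q = e q then (1 : ℝ) else 0) (by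
      intro q hq a
      have : jacobiSym ((a + q : ℕ) : ℤ) q = jacobiSym (a : ℤ) q := jac_add_dvd dvd_rfl a
      simp only [this])
  rw [prod_eq hG] at h1
  have h2 : (((range Q).filter (fun a => Pat e Q a)).card : ℝ) =
      ∑ a ∈ range Q, ∏ q ∈ Q.primeFactors, (if jacobiSym (a : ℤ) q = e q then (1 : ℝ) else 0) := by
    rw [card_filter]
    push_cast
    refine sum_congr rfl (fun a _ => ?_)
    rw [prod_ite_all (fun q => jacobiSym (a : ℤ) q = e q)]
    by_cases hp : Pat e Q a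
    · rw [if_pos hp]
      exact (if_pos hp).symm
    · rw [if_neg hp]
      exact (if_neg hp).symm
  rw [h2, h1]
  unfold dens
  rw [← prod_eqR hG]
  rw [← prod_mul_distrib]
  refine prod_congr rfl (fun q hq => ?_)
  have h3 := q_ge hG hq
  have hp := Nat.prime_of_mem_primeFactors hq
  have hq2 : q ≠ 2 := by
    have := prime_ge_three hG.1 hq
    omega
  have h4 := loc_pat hp hq2 (hG.2.2 q)
  rw [card_filter] at h4
  rw [Nat.cast_sum] at h4
  have h7 : ((range q) >>= (fun a : ℕ => (pure (a : ℤ) : Finset ℤ))) = (range q).image (fun a : ℕ => (a : ℤ)) := by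
    have h8 := congrFun (congrFun (Finset.bind_def (α := ℤ) (β := ℕ)) (range q)) (fun a : ℕ => (pure (a : ℤ) : Finset ℤ))
    ext x
    rw [show ((range q) >>= (fun a : ℕ => (pure (a : ℤ) : Finset ℤ))) = _ from h8]
    refine (@Finset.mem_sup ℤ ℕ (fun a b => propDecidable (a = b)) _ _ _).trans ?_
    rw [mem_image]
    simp only [Finset.pure_def, mem_singleton, eq_comm]
  rw [h7] at h4
  rw [sum_image (fun a _ b _ h => by exact_mod_cast h)] at h4
  have h5 : ∑ a ∈ range q, (if jacobiSym ((a : ℕ) : ℤ) q = e q then (1 : ℝ) else 0) = ((q : ℝ) - 1) / 2 := by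
    rw [← h4]
    refine sum_congr rfl (fun a _ => ?_)
    split_ifs <;> simp
  rw [h5]
  field_simp

private theorem not_dvd_of_coprime {p Q q : ℕ} (hp : p.Coprime Q) (hq : q ∈ Q.primeFactors) : ¬ q ∣ p := by
  intro h
  have h1 := Nat.dvd_gcd h (Nat.dvd_of_mem_primeFactors hq)
  rw [hp] at h1
  exact (Nat.prime_of_mem_primeFactors hq).one_lt.ne' (Nat.dvd_one.mp h1)

open Classical in
theorem glob_rep {e : ℕ → ℤ} {Q : ℕ} (hG : Good e Q) {p : ℕ} (hp : p.Coprime Q) :
    (((range Q).filter (fun r => Pat e Q (p + r ^ 2))).card : ℝ) = Q * rho e Q * FF e Q p := by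
  have h1 := per_prod Q.primeFactors (fun q hq => Nat.prime_of_mem_primeFactors hq)
    (fun q r => if jacobiSym ((p + r ^ 2 : ℕ) : ℤ) q = e q then (1 : ℝ) else 0) (by
      intro q hq a
      have : jacobiSym ((p + (a + q) ^ 2 : ℕ) : ℤ) q = jacobiSym ((p + a ^ 2 : ℕ) : ℤ) q := by
        have e1 : p + (a + q) ^ 2 = (p + a ^ 2) + q * (2 * a + q) := by ring
        rw [e1]
        exact jac_add_dvd (Dvd.intro _ rfl) _
      simp only [this])
  rw [prod_eq hG] at h1
  have h2 : (((range Q).filter (fun r => Pat e Q (p + r ^ 2))).card : ℝ) =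
      ∑ r ∈ range Q, ∏ q ∈ Q.primeFactors,
        (if jacobiSym ((p + r ^ 2 : ℕ) : ℤ) q = e q then (1 : ℝ) else 0) := by
    rw [card_filter]
    push_cast
    refine sum_congr rfl (fun a _ => ?_)
    have := prod_ite_all (s := Q.primeFactors) (fun q => jacobiSym ((p + a ^ 2 : ℕ) : ℤ) q = e q)
    push_cast at this
    rw [this]
    by_cases hp : Pat e Q (p + a ^ 2)
    · rw [if_pos hp, if_pos (by unfold Pat at hp; push_cast at hp; exact hp)]
    · rw [if_neg hp, if_neg (by unfold Pat at hp; push_cast at hp; exact hp)]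
  rw [h2, h1]
  unfold rho dens PP FF
  rw [← prod_eqR hG]
  rw [← prod_mul_distrib, ← prod_mul_distrib, ← prod_mul_distrib]
  refine prod_congr rfl (fun q hq => ?_)
  have h3 := q_ge hG hq
  have hpr := Nat.prime_of_mem_primeFactors hq
  have hq2 : q ≠ 2 := by
    have := prime_ge_three hG.1 hq
    omega
  have h4 := loc_rep hpr hq2 (hG.2.2 q) (not_dvd_of_coprime hp hq)
  rw [card_filter] at h4
  rw [Nat.cast_sum] at h4
  have h5 : ∑ a ∈ range q, (if jacobiSym ((p + a ^ 2 : ℕ) : ℤ) q = e q then (1 : ℝ) else 0) =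
      ((q : ℝ) - 1 - (e q : ℝ) - chi q p) / 2 := by
    rw [← h4]
    refine sum_congr rfl (fun a _ => ?_)
    split_ifs <;> simp
  rw [h5]
  unfold bb
  have he := e_bds hG q
  have n1 : (q : ℝ) ≠ 0 := by
    have : (0 : ℝ) < q := by linarith
    exact this.ne'
  have n2 : (q : ℝ) - 1 ≠ 0 := by
    have : (0 : ℝ) < (q : ℝ) - 1 := by linarith
    exact this.ne'
  have n3 : (q : ℝ) - 1 - (e q : ℝ) ≠ 0 := by
    have : (0 : ℝ) < (q : ℝ) - 1 - (e q : ℝ) := by linarith [he.2]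
    exact this.ne'
  field_simp

private theorem coprime_iff {e : ℕ → ℤ} {Q : ℕ} (hG : Good e Q) (a : ℕ) :
    a.Coprime Q ↔ ∀ q ∈ Q.primeFactors, ¬ q ∣ a := by
  constructor
  · intro h q hq
    exact not_dvd_of_coprime h hq
  · intro h
    refine Nat.Coprime.symm ?_
    refine Nat.coprime_of_dvd ?_
    intro k hk h1 h2
    exact h k (Nat.mem_primeFactors.mpr ⟨hk, h1, (Q_pos hG).ne'⟩) h2

private theorem totient_eq {e : ℕ → ℤ} {Q : ℕ} (hG : Good e Q) :
    (Q.totient : ℝ) = ∏ q ∈ Q.primeFactors, ((q : ℝ) - 1) := by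
  have h := Nat.totient_mul_prod_primeFactors Q
  rw [prod_eq hG, mul_comm] at h
  have h2 := Nat.eq_of_mul_eq_mul_left (Q_pos hG) h
  rw [h2]
  push_cast
  refine prod_congr rfl (fun q hq => ?_)
  have := prime_ge_three hG.1 hq
  rw [Nat.cast_sub (by omega)]
  simp

private theorem glob_gen {e : ℕ → ℤ} {Q : ℕ} (hG : Good e Q) (g : ℕ → ℕ → ℝ)
    (hg : ∀ q ∈ Q.primeFactors, ∀ a, g q (a + q) = g q a) :
    ∑ a ∈ (range Q).filter (fun a => a.Coprime Q), ∏ q ∈ Q.primeFactors, g q a =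
      ∏ q ∈ Q.primeFactors, ∑ a ∈ (range q).filter (fun a => ¬ q ∣ a), g q a := by
  have h1 := per_prod Q.primeFactors (fun q hq => Nat.prime_of_mem_primeFactors hq)
    (fun q a => if q ∣ a then (0 : ℝ) else g q a) (by
      intro q hq a
      have : (q ∣ a + q) ↔ (q ∣ a) := by simp
      simp only [this, hg q hq a])
  rw [prod_eq hG] at h1
  have h2 : ∀ a, (∏ q ∈ Q.primeFactors, if q ∣ a then (0 : ℝ) else g q a) =
      if a.Coprime Q then ∏ q ∈ Q.primeFactors, g q a else 0 := by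
    intro a
    split_ifs with h
    · rw [coprime_iff hG] at h
      refine prod_congr rfl (fun q hq => ?_)
      rw [if_neg (h q hq)]
    · rw [coprime_iff hG] at h
      push Not at h
      obtain ⟨q, hq, hn⟩ := h
      exact prod_eq_zero hq (by rw [if_pos hn])
  rw [sum_filter]
  simp only [h2] at h1
  rw [h1]
  refine prod_congr rfl (fun q hq => ?_)
  rw [sum_filter]
  refine sum_congr rfl (fun a _ => ?_)
  split_ifs <;> simp_all

private theorem card_ndvd {q : ℕ} (hq : q.Prime) :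
    (((range q).filter (fun a => ¬ q ∣ a)).card : ℝ) = (q : ℝ) - 1 := by
  have : (range q).filter (fun a => ¬ q ∣ a) = (range q).erase 0 := by
    ext a
    simp only [mem_filter, mem_range, mem_erase]
    constructor
    · rintro ⟨h1, h2⟩
      refine ⟨?_, h1⟩
      rintro rfl
      exact h2 (dvd_zero q)
    · rintro ⟨h1, h2⟩
      refine ⟨h2, fun h => ?_⟩
      have := Nat.le_of_dvd (Nat.pos_of_ne_zero h1) h
      omega
  rw [this, card_erase_of_mem (by simp [hq.pos]), card_range, Nat.cast_sub hq.one_lt.le]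
  simp

private theorem loc1 {e : ℕ → ℤ} {Q q : ℕ} (hG : Good e Q) (hq : q ∈ Q.primeFactors) :
    ∑ a ∈ (range q).filter (fun a => ¬ q ∣ a), (1 - chi q a * bb e q) = (q : ℝ) - 1 := by
  classical
  have hp := Nat.prime_of_mem_primeFactors hq
  have hq2 : q ≠ 2 := by
    have := prime_ge_three hG.1 hq
    omega
  have h0 := chi_sum hp hq2
  have h0' : ∑ a ∈ (range q).filter (fun a => ¬ q ∣ a), chi q a = 0 := by
    rw [← h0]
  rw [sum_sub_distrib, ← sum_mul, h0', zero_mul, sub_zero, sum_const, nsmul_eq_mul, mul_one]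
  exact card_ndvd hp

private theorem loc2 {e : ℕ → ℤ} {Q q : ℕ} (hG : Good e Q) (hq : q ∈ Q.primeFactors) :
    ∑ a ∈ (range q).filter (fun a => ¬ q ∣ a), (1 - chi q a * bb e q) ^ 2 =
      ((q : ℝ) - 1) * (1 + bb e q ^ 2) := by
  have hp := Nat.prime_of_mem_primeFactors hq
  have h1 : ∀ a ∈ (range q).filter (fun a => ¬ q ∣ a), (1 - chi q a * bb e q) ^ 2 =
      2 * (1 - chi q a * bb e q) + (bb e q ^ 2 - 1) := by
    intro a ha
    have h2 := chi_sq hp (mem_filter.mp ha).2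
    have : (1 - chi q a * bb e q) ^ 2 = 1 - 2 * (chi q a * bb e q) + chi q a ^ 2 * bb e q ^ 2 := by ring
    rw [this, h2]
    ring
  rw [sum_congr rfl h1, sum_add_distrib, ← mul_sum, loc1 hG hq, sum_const, nsmul_eq_mul, card_ndvd hp]
  ring

theorem glob_FF {e : ℕ → ℤ} {Q : ℕ} (hG : Good e Q) :
    ∑ a ∈ (range Q).filter (fun a => a.Coprime Q), FF e Q a = (Q.totient : ℝ) := by
  have h := glob_gen hG (fun q a => 1 - chi q a * bb e q) (fun q _ a => by
    show 1 - chi q (a + q) * bb e q = 1 - chi q a * bb e q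
    rw [chi_add])
  unfold FF
  rw [h, totient_eq hG]
  exact prod_congr rfl (fun q hq => loc1 hG hq)

theorem glob_FF2 {e : ℕ → ℤ} {Q : ℕ} (hG : Good e Q) :
    ∑ a ∈ (range Q).filter (fun a => a.Coprime Q), (FF e Q a) ^ 2 =
      (Q.totient : ℝ) * ∏ q ∈ Q.primeFactors, (1 + bb e q ^ 2) := by
  have h := glob_gen hG (fun q a => (1 - chi q a * bb e q) ^ 2) (fun q _ a => by
    show (1 - chi q (a + q) * bb e q) ^ 2 = (1 - chi q a * bb e q) ^ 2
    rw [chi_add])
  unfold FF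
  simp only [← prod_pow]
  rw [h, totient_eq hG, ← prod_mul_distrib]
  exact prod_congr rfl (fun q hq => loc2 hG hq)

private theorem tele {z : ℕ} (hz : 3 ≤ z) : ∀ N : ℕ, z ≤ N →
    ∏ n ∈ Ioc z N, (1 + (1 / ((n : ℝ) - 2)) ^ 2) ≤
      (((z : ℝ) - 1) / ((z : ℝ) - 2)) * (((N : ℝ) - 2) / ((N : ℝ) - 1)) := by
  intro N hN
  have hz' : (3 : ℝ) ≤ z := by exact_mod_cast hz
  induction N, hN using Nat.le_induction with
  | base =>
    rw [Ioc_self, prod_empty]
    have n1 : (z : ℝ) - 1 ≠ 0 := by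
      have : (0 : ℝ) < (z : ℝ) - 1 := by linarith
      exact this.ne'
    have n2 : (z : ℝ) - 2 ≠ 0 := by
      have : (0 : ℝ) < (z : ℝ) - 2 := by linarith
      exact this.ne'
    apply le_of_eq
    field_simp
  | succ N hN ih =>
    have hN' : (z : ℝ) ≤ N := by exact_mod_cast hN
    rw [prod_Ioc_succ_top (by omega)]
    have p1 : (0 : ℝ) < (N : ℝ) - 1 := by linarith
    have p0 : (0 : ℝ) < (N : ℝ) := by linarith
    have p2 : (0 : ℝ) < (z : ℝ) - 2 := by linarith
    have p3 : (0 : ℝ) < (z : ℝ) - 1 := by linarith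
    refine (mul_le_mul_of_nonneg_right ih (by positivity)).trans ?_
    rw [mul_assoc]
    refine mul_le_mul_of_nonneg_left ?_ (by positivity)
    push_cast
    have e1 : (N : ℝ) + 1 - 2 = (N : ℝ) - 1 := by ring
    have e2 : (N : ℝ) + 1 - 1 = (N : ℝ) := by ring
    rw [e1, e2]
    have e3 : ((N : ℝ) - 2) / ((N : ℝ) - 1) * (1 + (1 / ((N : ℝ) - 1)) ^ 2) =
        (((N : ℝ) - 2) * (((N : ℝ) - 1) ^ 2 + 1)) / (((N : ℝ) - 1) ^ 3) := by
      field_simp
    rw [e3, div_le_div_iff₀ (by positivity) p0]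
    nlinarith [sq_nonneg ((N : ℝ) - 1)]

private theorem prod_bb {e : ℕ → ℤ} {Q z : ℕ} (hG : Good e Q) (hz : 3 ≤ z)
    (h : ∀ q ∈ Q.primeFactors, z < q) :
    ∏ q ∈ Q.primeFactors, (1 + bb e q ^ 2) ≤ 1 + 1 / ((z : ℝ) - 2) := by
  have hz' : (3 : ℝ) ≤ z := by exact_mod_cast hz
  set N := max z Q with hN
  have hsub : Q.primeFactors ⊆ Ioc z N := by
    intro q hq
    rw [mem_Ioc]
    exact ⟨h q hq, (Nat.le_of_dvd (Q_pos hG) (Nat.dvd_of_mem_primeFactors hq)).trans (le_max_right _ _)⟩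
  have h1 : ∏ q ∈ Q.primeFactors, (1 + bb e q ^ 2) ≤
      ∏ q ∈ Q.primeFactors, (1 + (1 / ((q : ℝ) - 2)) ^ 2) := by
    refine prod_le_prod (fun q _ => by positivity) (fun q hq => ?_)
    have h2 := bb_pos hG hq
    have := pow_le_pow_left₀ h2.1.le h2.2 2
    linarith
  have h2 : ∏ q ∈ Q.primeFactors, (1 + (1 / ((q : ℝ) - 2)) ^ 2) ≤
      ∏ n ∈ Ioc z N, (1 + (1 / ((n : ℝ) - 2)) ^ 2) := by
    refine prod_le_prod_of_subset_of_one_le hsub (fun q _ => by positivity) (fun q _ _ => ?_)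
    have : 0 ≤ (1 / ((q : ℝ) - 2)) ^ 2 := sq_nonneg _
    linarith
  have h3 := tele hz N (le_max_left _ _)
  have hN' : (z : ℝ) ≤ N := by exact_mod_cast le_max_left z Q
  have p1 : (0 : ℝ) < (N : ℝ) - 1 := by linarith
  have p2 : (0 : ℝ) < (z : ℝ) - 2 := by linarith
  have p3 : (0 : ℝ) < (z : ℝ) - 1 := by linarith
  have h4 : (((z : ℝ) - 1) / ((z : ℝ) - 2)) * (((N : ℝ) - 2) / ((N : ℝ) - 1)) ≤
      (((z : ℝ) - 1) / ((z : ℝ) - 2)) * 1 := by
    refine mul_le_mul_of_nonneg_left ?_ (by positivity)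
    rw [div_le_one p1]
    linarith
  have h5 : (((z : ℝ) - 1) / ((z : ℝ) - 2)) * 1 = 1 + 1 / ((z : ℝ) - 2) := by
    field_simp
    ring
  linarith

/-- Mean square of `FF - 1` when all primes of `Q` exceed `z`. -/
theorem glob_var {e : ℕ → ℤ} {Q z : ℕ} (hG : Good e Q) (hz : 3 ≤ z) (h : ∀ q ∈ Q.primeFactors, z < q) :
    ∑ a ∈ (range Q).filter (fun a => a.Coprime Q), (FF e Q a - 1) ^ 2 ≤ (Q.totient : ℝ) * (2 / ((z : ℝ) - 2)) := by
  have hz' : (3 : ℝ) ≤ z := by exact_mod_cast hz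
  have h1 : ∀ a ∈ (range Q).filter (fun a => a.Coprime Q), (FF e Q a - 1) ^ 2 =
      (FF e Q a) ^ 2 - 2 * FF e Q a + 1 := fun a _ => by ring
  have hc : (((range Q).filter (fun a => a.Coprime Q)).card : ℝ) = (Q.totient : ℝ) := by
    have : (range Q).filter (fun a => a.Coprime Q) = (range Q).filter (fun a => Q.Coprime a) := by
      ext a
      simp only [mem_filter, mem_range, and_congr_right_iff]
      intro _
      exact Nat.coprime_comm
    rw [this, Nat.totient_eq_card_coprime]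
  rw [sum_congr rfl h1, sum_add_distrib, sum_sub_distrib, ← mul_sum, glob_FF hG, glob_FF2 hG, sum_const,
    nsmul_eq_mul, mul_one, hc]
  have h2 := prod_bb hG hz h
  have ht : (0 : ℝ) ≤ (Q.totient : ℝ) := Nat.cast_nonneg _
  have h3 : 1 / ((z : ℝ) - 2) ≤ 2 / ((z : ℝ) - 2) := by
    have : (0 : ℝ) < (z : ℝ) - 2 := by linarith
    rw [div_le_div_iff₀ this this]
    linarith
  nlinarith

end Pool.Agent.P83e
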