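import Pool.Agent.Lib.P83e.Base

/-!
# The mean value for all `y ≥ x^(1/2+δ)`

PROOF. We may assume `δ ≤ 1/5` (the hypothesis is stronger for larger `δ`). Put `g x = ⌈x^(1/2+δ)⌉`. Claim, by strong
induction on `y`: for all `x ≥ x0` and `y ≥ x^(1/2+δ)` the inequality holds. If `y ≤ 3 g x` this is `base` (`(3 g x)^4 ≤ x^3`
as `4 (1/2 + 1/5) < 3`). Otherwise `SS e Q x y = SS e Q x (g x) ∪ SS e Q (x + g x) (y - g x)` (disjoint),
`y - g x ≥ 2 g x ≥ (x + g x)^(1/2+δ)`, and the condition on `Q` gets weaker when `x` grows; add the two inequalities.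
-/

set_option autoImplicit false

open Finset

namespace Pool.Agent.P83e

namespace LongAux

theorem SS_split (e : ℕ → ℤ) (Q x g y : ℕ) (h : g ≤ y) (f : ℕ → ℝ) :
    ∑ n ∈ SS e Q x y, f n = ∑ n ∈ SS e Q x g, f n + ∑ n ∈ SS e Q (x + g) (y - g), f n := by
  classical
  have hu : SS e Q x y = SS e Q x g ∪ SS e Q (x + g) (y - g) := by
    ext n
    simp only [SS, mem_filter, mem_Ioc, mem_union]
    constructor
    · rintro ⟨⟨h1, h2⟩, h3⟩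
      rcases le_or_gt n (x + g) with h4 | h4
      · exact Or.inl ⟨⟨h1, h4⟩, h3⟩
      · exact Or.inr ⟨⟨h4, by omega⟩, h3⟩
    · rintro (⟨⟨h1, h2⟩, h3⟩ | ⟨⟨h1, h2⟩, h3⟩)
      · exact ⟨⟨h1, by omega⟩, h3⟩
      · exact ⟨⟨by omega, by omega⟩, h3⟩
  have hd : Disjoint (SS e Q x g) (SS e Q (x + g) (y - g)) := by
    rw [Finset.disjoint_left]
    intro n hn hn2
    simp only [SS, mem_filter, mem_Ioc] at hn hn2
    omega
  rw [hu, Finset.sum_union hd]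

theorem ceil_facts (δ : ℝ) (hδ : 0 < δ) (hδ2 : δ ≤ 1 / 5) (x : ℕ) (hx : 1296 ^ 5 ≤ x) :
    1 ≤ ⌈(x : ℝ) ^ (1 / 2 + δ)⌉₊ ∧ (3 * ⌈(x : ℝ) ^ (1 / 2 + δ)⌉₊) ^ 4 ≤ x ^ 3 ∧
    ((x + ⌈(x : ℝ) ^ (1 / 2 + δ)⌉₊ : ℕ) : ℝ) ^ (1 / 2 + δ) ≤ 2 * (⌈(x : ℝ) ^ (1 / 2 + δ)⌉₊ : ℝ) := by
  have hx1 : (1 : ℝ) ≤ x := by
    have : 1 ≤ x := le_trans (by norm_num) hx
    exact_mod_cast this
  have hx0 : (0 : ℝ) < x := by linarith
  have hxr : ((1296 : ℝ)) ^ (5 : ℕ) ≤ x := by exact_mod_cast hx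
  set t : ℝ := (x : ℝ) ^ (1 / 2 + δ) with ht
  have ht1 : 1 ≤ t := Real.one_le_rpow hx1 (by linarith)
  set g : ℕ := ⌈t⌉₊ with hg
  have hgt : t ≤ g := Nat.le_ceil t
  have hgl : (g : ℝ) < t + 1 := Nat.ceil_lt_add_one (by linarith)
  have hg2 : (g : ℝ) ≤ 2 * t := by linarith
  have ht2 : t ≤ (x : ℝ) ^ (7 / 10 : ℝ) := Real.rpow_le_rpow_of_exponent_le hx1 (by linarith)
  have hroot : (1296 : ℝ) ≤ (x : ℝ) ^ (1 / 5 : ℝ) := by
    calc (1296 : ℝ) = ((1296 : ℝ) ^ (5 : ℕ)) ^ (1 / 5 : ℝ) := by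
          rw [← Real.rpow_natCast, ← Real.rpow_mul (by norm_num)]; norm_num
      _ ≤ (x : ℝ) ^ (1 / 5 : ℝ) := Real.rpow_le_rpow (by positivity) hxr (by norm_num)
  have h4 : ((x : ℝ) ^ (7 / 10 : ℝ)) ^ 4 = (x : ℝ) ^ (14 / 5 : ℝ) := by
    rw [← Real.rpow_natCast, ← Real.rpow_mul hx0.le]; norm_num
  have h3 : (x : ℝ) ^ (1 / 5 : ℝ) * (x : ℝ) ^ (14 / 5 : ℝ) = (x : ℝ) ^ 3 := by
    rw [← Real.rpow_add hx0, ← Real.rpow_natCast]; norm_num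
  have hpow : (3 * (g : ℝ)) ^ 4 ≤ (x : ℝ) ^ 3 := by
    have hg0 : (0 : ℝ) ≤ g := Nat.cast_nonneg g
    calc (3 * (g : ℝ)) ^ 4 ≤ (3 * (2 * (x : ℝ) ^ (7 / 10 : ℝ))) ^ 4 := by
          apply pow_le_pow_left₀ (by positivity)
          nlinarith
      _ = 1296 * ((x : ℝ) ^ (7 / 10 : ℝ)) ^ 4 := by ring
      _ = 1296 * (x : ℝ) ^ (14 / 5 : ℝ) := by rw [h4]
      _ ≤ (x : ℝ) ^ (1 / 5 : ℝ) * (x : ℝ) ^ (14 / 5 : ℝ) :=
          mul_le_mul_of_nonneg_right hroot (by positivity)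
      _ = (x : ℝ) ^ 3 := h3
  have hgx : (g : ℝ) ≤ x := by
    have e1 : (x : ℝ) ^ (3 / 10 : ℝ) * (x : ℝ) ^ (7 / 10 : ℝ) = x := by
      rw [← Real.rpow_add hx0]; norm_num
    have e2 : (x : ℝ) ^ (1 / 5 : ℝ) ≤ (x : ℝ) ^ (3 / 10 : ℝ) :=
      Real.rpow_le_rpow_of_exponent_le hx1 (by norm_num)
    have e3 : (0 : ℝ) < (x : ℝ) ^ (7 / 10 : ℝ) := by positivity
    nlinarith
  refine ⟨?_, ?_, ?_⟩
  · exact Nat.one_le_iff_ne_zero.mpr (fun h => by rw [h] at hgt; norm_num at hgt; linarith)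
  · exact_mod_cast hpow
  · push_cast
    calc ((x : ℝ) + g) ^ (1 / 2 + δ) ≤ (2 * (x : ℝ)) ^ (1 / 2 + δ) :=
          Real.rpow_le_rpow (by positivity) (by linarith) (by linarith)
      _ = (2 : ℝ) ^ (1 / 2 + δ) * t := by rw [Real.mul_rpow (by norm_num) hx0.le]
      _ ≤ (2 : ℝ) ^ (1 : ℝ) * t :=
          mul_le_mul_of_nonneg_right (Real.rpow_le_rpow_of_exponent_le (by norm_num) (by linarith))
            (by linarith)
      _ = 2 * t := by rw [Real.rpow_one]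
      _ ≤ 2 * (g : ℝ) := by linarith

end LongAux

theorem mean_value (ε δ : ℝ) (hε : 0 < ε) (hδ : 0 < δ) :
    ∃ c : ℝ, 0 < c ∧ ∃ x0 : ℕ, ∀ x : ℕ, x0 ≤ x → ∀ y : ℕ, (x : ℝ) ^ (1 / 2 + δ) ≤ y →
    ∀ (e : ℕ → ℤ) (Q : ℕ), Good e Q → (Q : ℝ) ≤ (x : ℝ) ^ c →
    |∑ n ∈ SS e Q x y, (reps n : ℝ) - PP e Q * ∑ n ∈ SS e Q x y, √(n : ℝ) / Real.log n| ≤
      ε * (PP e Q * ∑ n ∈ SS e Q x y, √(n : ℝ) / Real.log n) := by
  obtain ⟨d, hd0, hd1, hd2⟩ : ∃ d : ℝ, 0 < d ∧ d ≤ 1 / 5 ∧ d ≤ δ :=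
    ⟨min δ (1 / 5), lt_min hδ (by norm_num), min_le_right _ _, min_le_left _ _⟩
  obtain ⟨x0, hb⟩ := base ε d hε hd0 (by linarith)
  refine ⟨d / 2, by linarith, max x0 (1296 ^ 5), ?_⟩
  have claim : ∀ y : ℕ, ∀ x : ℕ, max x0 (1296 ^ 5) ≤ x → (x : ℝ) ^ (1 / 2 + d) ≤ y →
      ∀ (e : ℕ → ℤ) (Q : ℕ), Good e Q → (Q : ℝ) ≤ (x : ℝ) ^ (d / 2) →
      |∑ n ∈ SS e Q x y, (reps n : ℝ) - PP e Q * ∑ n ∈ SS e Q x y, √(n : ℝ) / Real.log n| ≤
        ε * (PP e Q * ∑ n ∈ SS e Q x y, √(n : ℝ) / Real.log n) := by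
    intro y
    induction y using Nat.strong_induction_on with
    | _ y ih =>
      intro x hx hy e Q hG hQ
      have hx1 : x0 ≤ x := le_trans (le_max_left _ _) hx
      have hx2 : 1296 ^ 5 ≤ x := le_trans (le_max_right _ _) hx
      have hxp : (1 : ℝ) ≤ x := by
        have : 1 ≤ x := le_trans (by norm_num) hx2
        exact_mod_cast this
      have hQ2 : ((Q : ℝ)) ^ 2 ≤ (x : ℝ) ^ d := by
        calc ((Q : ℝ)) ^ 2 ≤ ((x : ℝ) ^ (d / 2)) ^ 2 := pow_le_pow_left₀ (Nat.cast_nonneg Q) hQ 2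
          _ = (x : ℝ) ^ d := by
            rw [← Real.rpow_natCast, ← Real.rpow_mul (by linarith)]; congr 1; push_cast; ring
      obtain ⟨hg1, hg2, hg3⟩ := LongAux.ceil_facts d hd0 hd1 x hx2
      set g : ℕ := ⌈(x : ℝ) ^ (1 / 2 + d)⌉₊ with hg
      rcases le_or_gt y (3 * g) with hc | hc
      · exact hb x hx1 y hy (le_trans (Nat.pow_le_pow_left hc 4) hg2) e Q hG hQ2
      · have b1 := hb x hx1 g (Nat.le_ceil _)
          (le_trans (Nat.pow_le_pow_left (by omega) 4) hg2) e Q hG hQ2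
        have hyg : ((x + g : ℕ) : ℝ) ^ (1 / 2 + d) ≤ ((y - g : ℕ) : ℝ) := by
          refine le_trans hg3 ?_
          have : 2 * g ≤ y - g := by omega
          exact_mod_cast this
        have hQ3 : (Q : ℝ) ≤ ((x + g : ℕ) : ℝ) ^ (d / 2) := by
          refine le_trans hQ (Real.rpow_le_rpow (by positivity) ?_ (by linarith))
          push_cast
          have : (0 : ℝ) ≤ g := Nat.cast_nonneg g
          linarith
        have b2 := ih (y - g) (by omega) (x + g) (le_trans hx (by omega)) hyg e Q hG hQ3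
        rw [LongAux.SS_split e Q x g y (by omega) (fun n => (reps n : ℝ)),
          LongAux.SS_split e Q x g y (by omega) (fun n => √(n : ℝ) / Real.log n)]
        rw [abs_le] at b1 b2 ⊢
        constructor <;> nlinarith
  intro x hx y hy e Q hG hQ
  have hxp : (1 : ℝ) ≤ x := by
    have h2 : 1296 ^ 5 ≤ x := le_trans (le_max_right _ _) hx
    have : 1 ≤ x := le_trans (by norm_num) h2
    exact_mod_cast this
  exact claim y x hx (le_trans (Real.rpow_le_rpow_of_exponent_le hxp (by linarith)) hy) e Q hG hQ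

end Pool.Agent.P83e
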