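import Pool.Agent.Lib.P83e.Abel

/-!
# The sum of the weights

PROOF. `X = ⌊(1 - η²) x⌋`. Termwise `y / (2 √(x + y - t)) ≤ ww x y t ≤ y / (2 √(x - t))`;
`∑_{t ≤ X} 1 / (2 √(x - t)) ≤ ∫_1^{X+1} ≤ √x - √(x - X - 1) + ...` and `∑_{t ≤ X} 1/(2 √(x + y - t)) ≥
∫_0^X = √(x + y) - √(x + y - X)`. `√(x - X) = η √x + O(1)`, `√(x + y - X) ≤ √(η² x + y + 1) ≤ η √x + √(y+1)`,
`√(y + 1) ≤ small * √x` as `y^4 ≤ x^3`.
(Telescoping instead of integrals: `1 / (2 √(s+1)) ≤ √(s+1) - √s ≤ 1 / (2 √s)`.)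
-/

set_option autoImplicit false

open Finset

namespace Pool.Agent.P83e

namespace WsumAux

theorem step_up {a b : ℝ} (hb : 1 ≤ b) (hab : b ≤ a) :
    √a - √b ≤ (a - b) * (√b - √(b - 1)) := by
  have h1 : 0 < √b := Real.sqrt_pos.2 (by linarith)
  have h2 : √b ≤ √a := Real.sqrt_le_sqrt hab
  have h3 : √(b - 1) ≤ √b := Real.sqrt_le_sqrt (by linarith)
  have h4 : 0 ≤ √(b - 1) := Real.sqrt_nonneg _
  have e1 := Real.mul_self_sqrt (show (0 : ℝ) ≤ a by linarith)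
  have e2 := Real.mul_self_sqrt (show (0 : ℝ) ≤ b by linarith)
  have e3 := Real.mul_self_sqrt (show (0 : ℝ) ≤ b - 1 by linarith)
  -- `a - b = (√a - √b) (√a + √b)`, `1 = (√b - √(b-1)) (√b + √(b-1))`
  have e4 : a - b = (√a - √b) * (√a + √b) := by linear_combination -e1 + e2
  have e5 : (1 : ℝ) = (√b - √(b - 1)) * (√b + √(b - 1)) := by linear_combination -e2 + e3
  rw [e4]
  have h5 : 0 ≤ √b - √(b - 1) := by linarith
  have h6 : 1 ≤ (√a + √b) * (√b - √(b - 1)) := by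
    calc (1 : ℝ) = (√b - √(b - 1)) * (√b + √(b - 1)) := e5
      _ ≤ (√b - √(b - 1)) * (√a + √b) := mul_le_mul_of_nonneg_left (by linarith) h5
      _ = _ := by ring
  have h7 : 0 ≤ √a - √b := by linarith
  calc √a - √b = (√a - √b) * 1 := by ring
    _ ≤ (√a - √b) * ((√a + √b) * (√b - √(b - 1))) := mul_le_mul_of_nonneg_left h6 h7
    _ = _ := by ring

theorem step_lo {a b : ℝ} (hb : 0 ≤ b) (hab : b ≤ a) :
    (a - b) * (√(a + 1) - √a) ≤ √a - √b := by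
  have h2 : √b ≤ √a := Real.sqrt_le_sqrt hab
  have h3 : √a ≤ √(a + 1) := Real.sqrt_le_sqrt (by linarith)
  have h4 : 0 ≤ √b := Real.sqrt_nonneg _
  have e1 := Real.mul_self_sqrt (show (0 : ℝ) ≤ a by linarith)
  have e2 := Real.mul_self_sqrt hb
  have e3 := Real.mul_self_sqrt (show (0 : ℝ) ≤ a + 1 by linarith)
  have e4 : a - b = (√a - √b) * (√a + √b) := by linear_combination -e1 + e2
  have e5 : (1 : ℝ) = (√(a + 1) - √a) * (√(a + 1) + √a) := by linear_combination -e3 + e1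
  rw [e4]
  have h5 : 0 ≤ √(a + 1) - √a := by linarith
  have h6 : (√a + √b) * (√(a + 1) - √a) ≤ 1 := by
    calc (√a + √b) * (√(a + 1) - √a) ≤ (√(a + 1) + √a) * (√(a + 1) - √a) :=
          mul_le_mul_of_nonneg_right (by linarith) h5
      _ = 1 := by linear_combination -e5
  have h7 : 0 ≤ √a - √b := by linarith
  calc (√a - √b) * (√a + √b) * (√(a + 1) - √a) =
        (√a - √b) * ((√a + √b) * (√(a + 1) - √a)) := by ring
    _ ≤ (√a - √b) * 1 := mul_le_mul_of_nonneg_left h6 h7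
    _ = _ := by ring

theorem sum_up (x y X : ℕ) (hX : (X : ℝ) + 1 ≤ x) : ∀ n ≤ X,
    ∑ t ∈ Icc 1 n, ww x y t ≤ y * (√(x : ℝ) - √((x : ℝ) - n - 1)) := by
  intro n
  have hy : (0 : ℝ) ≤ y := Nat.cast_nonneg y
  induction n with
  | zero =>
    intro _
    have h1 : √((x : ℝ) - (0 : ℕ) - 1) ≤ √(x : ℝ) := Real.sqrt_le_sqrt (by push_cast; linarith)
    simpa using mul_nonneg hy (sub_nonneg.2 h1)
  | succ n ih =>
    intro hn
    have h1 := ih (by omega)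
    have hn' : ((n : ℝ) + 1) ≤ X := by exact_mod_cast hn
    have e1 : Icc 1 (n + 1) = insert (n + 1) (Icc 1 n) := by
      ext i; simp only [mem_Icc, mem_insert]; omega
    have e2 : n + 1 ∉ Icc 1 n := by simp
    rw [e1, sum_insert e2]
    have h2 := step_up (a := (x : ℝ) + y - ((n + 1 : ℕ) : ℝ)) (b := (x : ℝ) - ((n + 1 : ℕ) : ℝ))
      (by push_cast; linarith) (by linarith)
    have h3 : ww x y (n + 1) ≤ y * (√((x : ℝ) - n - 1) - √((x : ℝ) - ((n + 1 : ℕ) : ℝ) - 1)) := by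
      have e3 : (x : ℝ) + y - ((n + 1 : ℕ) : ℝ) - ((x : ℝ) - ((n + 1 : ℕ) : ℝ)) = y := by ring
      rw [e3] at h2
      have e4 : (x : ℝ) - n - 1 = (x : ℝ) - ((n + 1 : ℕ) : ℝ) := by push_cast; ring
      rw [e4]
      exact h2
    calc ww x y (n + 1) + ∑ t ∈ Icc 1 n, ww x y t
        ≤ y * (√((x : ℝ) - n - 1) - √((x : ℝ) - ((n + 1 : ℕ) : ℝ) - 1)) +
          y * (√(x : ℝ) - √((x : ℝ) - n - 1)) := add_le_add h3 h1
      _ = _ := by ring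

theorem sum_lo (x y X : ℕ) (hX : (X : ℝ) ≤ x) : ∀ n ≤ X,
    y * (√((x : ℝ) + y) - √((x : ℝ) + y - n)) ≤ ∑ t ∈ Icc 1 n, ww x y t := by
  intro n
  have hy : (0 : ℝ) ≤ y := Nat.cast_nonneg y
  induction n with
  | zero => intro _; simp
  | succ n ih =>
    intro hn
    have h1 := ih (by omega)
    have hn' : ((n : ℝ) + 1) ≤ X := by exact_mod_cast hn
    have e1 : Icc 1 (n + 1) = insert (n + 1) (Icc 1 n) := by
      ext i; simp only [mem_Icc, mem_insert]; omega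
    have e2 : n + 1 ∉ Icc 1 n := by simp
    rw [e1, sum_insert e2]
    have h2 := step_lo (a := (x : ℝ) + y - ((n + 1 : ℕ) : ℝ)) (b := (x : ℝ) - ((n + 1 : ℕ) : ℝ))
      (by push_cast; linarith) (by linarith)
    have h3 : y * (√((x : ℝ) + y - n) - √((x : ℝ) + y - ((n + 1 : ℕ) : ℝ))) ≤ ww x y (n + 1) := by
      have e3 : (x : ℝ) + y - ((n + 1 : ℕ) : ℝ) - ((x : ℝ) - ((n + 1 : ℕ) : ℝ)) = y := by ring
      rw [e3] at h2
      have e4 : (x : ℝ) + y - n = (x : ℝ) + y - ((n + 1 : ℕ) : ℝ) + 1 := by push_cast; ring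
      rw [e4]
      exact h2
    calc y * (√((x : ℝ) + y) - √((x : ℝ) + y - ((n + 1 : ℕ) : ℝ)))
        = y * (√((x : ℝ) + y - n) - √((x : ℝ) + y - ((n + 1 : ℕ) : ℝ))) +
          y * (√((x : ℝ) + y) - √((x : ℝ) + y - n)) := by ring
      _ ≤ _ := add_le_add h3 h1

end WsumAux

theorem ww_sum (η : ℝ) (h0 : 0 < η) (h1 : η < 1 / 2) : ∃ x0 : ℕ, ∀ x : ℕ, x0 ≤ x → ∀ y : ℕ, 1 ≤ y →
    y ^ 4 ≤ x ^ 3 → |∑ t ∈ Icc 1 ⌊(1 - η ^ 2) * (x : ℝ)⌋₊, ww x y t - y * √(x : ℝ)| ≤ 2 * η * (y * √(x : ℝ)) := by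
  have hη2 : 0 < η ^ 2 := by positivity
  have hη3 : η ^ 2 < 1 := by nlinarith
  refine ⟨⌈(2 / η ^ 2) ^ 4⌉₊ + 1, fun x hx y hy hxy => ?_⟩
  have hK : 1 ≤ 2 / η ^ 2 := by rw [le_div_iff₀ hη2]; linarith
  have hx1 : (2 / η ^ 2) ^ 4 < (x : ℝ) := by
    have h2 : (2 / η ^ 2) ^ 4 ≤ (⌈(2 / η ^ 2) ^ 4⌉₊ : ℝ) := Nat.le_ceil _
    have h3 : ((⌈(2 / η ^ 2) ^ 4⌉₊ + 1 : ℕ) : ℝ) ≤ x := by exact_mod_cast hx
    push_cast at h3
    linarith
  have hx2 : 2 / η ^ 2 < (x : ℝ) := by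
    have : 2 / η ^ 2 ≤ (2 / η ^ 2) ^ 4 := le_self_pow₀ hK (by norm_num)
    linarith
  have hx3 : 2 < η ^ 2 * x := by
    rw [div_lt_iff₀ hη2] at hx2
    linarith
  have hx0 : (0 : ℝ) < x := by
    have : (0 : ℝ) < 2 / η ^ 2 := by positivity
    linarith
  have hy0 : (1 : ℝ) ≤ y := by exact_mod_cast hy
  have hxy' : (y : ℝ) ^ 4 ≤ (x : ℝ) ^ 3 := by exact_mod_cast hxy
  set X : ℕ := ⌊(1 - η ^ 2) * (x : ℝ)⌋₊ with hXdef
  have hX1 : (X : ℝ) ≤ (1 - η ^ 2) * x :=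
    Nat.floor_le (mul_nonneg (by linarith) hx0.le)
  have hX2 : (1 - η ^ 2) * x < (X : ℝ) + 1 := Nat.lt_floor_add_one _
  -- `y + 1 ≤ η² x`
  have hy1 : (y : ℝ) + 1 ≤ η ^ 2 * x := by
    by_contra hc
    push Not at hc
    have h2 : η ^ 2 * x / 2 < y := by linarith
    have h3 : (η ^ 2 * x / 2) ^ 4 < (y : ℝ) ^ 4 := by gcongr
    have h4 : (x : ℝ) ^ 3 ≤ (η ^ 2 * x / 2) ^ 4 := by
      have h5 : (η ^ 2 * x / 2) ^ 4 = (x / (2 / η ^ 2) ^ 4) * (x : ℝ) ^ 3 := by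
        field_simp
      rw [h5]
      have h6 : 1 ≤ (x : ℝ) / (2 / η ^ 2) ^ 4 := by
        rw [le_div_iff₀ (by positivity)]
        linarith
      have h7 : (0 : ℝ) ≤ (x : ℝ) ^ 3 := by positivity
      nlinarith
    linarith
  have hs0 : 0 ≤ √(x : ℝ) := Real.sqrt_nonneg _
  have hsx := Real.mul_self_sqrt hx0.le
  have hηs : 1 ≤ η * √(x : ℝ) := by
    by_contra hc
    push Not at hc
    have h2 : 0 ≤ η * √(x : ℝ) := by positivity
    have h3 : (η * √(x : ℝ)) * (η * √(x : ℝ)) < 1 := by nlinarith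
    have h4 : (η * √(x : ℝ)) * (η * √(x : ℝ)) = η ^ 2 * x := by
      calc (η * √(x : ℝ)) * (η * √(x : ℝ)) = η ^ 2 * (√(x : ℝ) * √(x : ℝ)) := by ring
        _ = _ := by rw [hsx]
    linarith
  have hup := WsumAux.sum_up x y X (by linarith) X le_rfl
  have hlo := WsumAux.sum_lo x y X (by nlinarith) X le_rfl
  -- `√(x - X - 1) ≥ η √x - 1`
  have h2 : η * √(x : ℝ) - 1 ≤ √((x : ℝ) - X - 1) := by
    apply Real.le_sqrt_of_sq_le
    have h4 : (η * √(x : ℝ) - 1) ^ 2 = η ^ 2 * x - 2 * (η * √(x : ℝ)) + 1 := by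
      calc (η * √(x : ℝ) - 1) ^ 2 = η ^ 2 * (√(x : ℝ) * √(x : ℝ)) - 2 * (η * √(x : ℝ)) + 1 := by ring
        _ = _ := by rw [hsx]
    rw [h4]
    linarith
  -- `√(x + y - X) ≤ 2 η √x`
  have h3 : √((x : ℝ) + y - X) ≤ 2 * (η * √(x : ℝ)) := by
    apply Real.sqrt_le_iff.2
    refine ⟨by positivity, ?_⟩
    have h4 : (2 * (η * √(x : ℝ))) ^ 2 = 4 * (η ^ 2 * x) := by
      calc (2 * (η * √(x : ℝ))) ^ 2 = 4 * (η ^ 2 * (√(x : ℝ) * √(x : ℝ))) := by ring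
        _ = _ := by rw [hsx]
    rw [h4]
    linarith
  have h4 : √(x : ℝ) ≤ √((x : ℝ) + y) := Real.sqrt_le_sqrt (by linarith)
  rw [abs_le]
  constructor
  · have h5 : (y : ℝ) * (√(x : ℝ) - 2 * (η * √(x : ℝ))) ≤ y * (√((x : ℝ) + y) - √((x : ℝ) + y - X)) :=
      mul_le_mul_of_nonneg_left (by linarith) (by linarith)
    linarith
  · have h5 : (y : ℝ) * (√(x : ℝ) - √((x : ℝ) - X - 1)) ≤ y * √(x : ℝ) :=
      mul_le_mul_of_nonneg_left (by linarith) (by linarith)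
    have h6 : 0 ≤ 2 * η * (y * √(x : ℝ)) := by positivity
    linarith

end Pool.Agent.P83e
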