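import Pool.Agent.Lib.P83e.TTb
import Pool.Agent.Lib.P83e.Wsum
import Pool.Agent.Lib.P83e.Resc

/-!
# The primes `p ≤ (1 - η²) x`

PROOF. Let `X = ⌊(1 - η²) x⌋`, `F i = FF e Q i` if `i ∈ prs Q X` and `0` otherwise, `lam = 1 / log x`,
`E = ε x / log x` (`tt_asymp`). By `cnt_eq` the sum over `p` coprime to `Q` is `rho * ∑ F p * ww p` up to
`3 Q rho ∑ F p ≤ 6 Q rho x / log x`, which is `≤ η/4 * rho y √x / log x` as `y ≥ x^(1/2+δ)`, `Q^2 ≤ x^δ`. `abel` gives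
`∑ F w = (1 / log x) ∑ w + O(2 E w(X))`, `w(X) ≤ y / (2 η √x)`; take `ε` small in terms of `η`; `ww_sum`.
The primes dividing `Q` (at most `log2 Q`) contribute at most `log2 Q * (y/(2 η √x) + 1)`, negligible because
`rho e Q ≥ 1/Q^2`, `Q^4 ≤ x` (`Q^2 ≤ x^δ ≤ x^(1/4)`).
-/

set_option autoImplicit false

open Finset

namespace Pool.Agent.P83e

namespace PartAAux

/-- The sum of `F` up to `t` is `TT`. -/
theorem sumF (e : ℕ → ℤ) (Q X t : ℕ) (ht : t ≤ X) :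
    ∑ i ∈ Icc 1 t, (if i ∈ prs Q X then FF e Q i else 0) = TT e Q t := by
  classical
  rw [TT, ← Finset.sum_filter]
  apply Finset.sum_congr _ (fun _ _ => rfl)
  ext i
  simp only [prs, mem_filter, mem_Icc]
  constructor
  · rintro ⟨h1, _, h3⟩; exact ⟨h1, h3⟩
  · rintro ⟨h1, h3⟩; exact ⟨h1, ⟨h1.1, h1.2.trans ht⟩, h3⟩

theorem sumFw (e : ℕ → ℤ) (Q X : ℕ) (w : ℕ → ℝ) :
    ∑ i ∈ Icc 1 X, (if i ∈ prs Q X then FF e Q i else 0) * w i = ∑ p ∈ prs Q X, FF e Q p * w p := by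
  classical
  simp only [ite_mul, zero_mul]
  rw [← Finset.sum_filter]
  apply Finset.sum_congr _ (fun _ _ => rfl)
  ext i
  simp only [prs, mem_filter, mem_Icc]
  tauto

theorem ww_nonneg (x y t : ℕ) : 0 ≤ ww x y t := by
  rw [ww, sub_nonneg]
  apply Real.sqrt_le_sqrt
  have : (0 : ℝ) ≤ y := Nat.cast_nonneg y
  linarith

theorem ev1 (η δ : ℝ) (hδ : 0 < δ) : ∀ᶠ x : ℕ in Filter.atTop, 24 / η ≤ (x : ℝ) ^ (δ / 2) :=
  ((tendsto_rpow_atTop (by linarith : (0 : ℝ) < δ / 2)).comp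
    tendsto_natCast_atTop_atTop).eventually_ge_atTop _

theorem ev2 (η : ℝ) (h0 : 0 < η) : ∀ᶠ x : ℕ in Filter.atTop,
    (1 / (2 * η) + 1) * (Real.log x * (x : ℝ) ^ (3 / 8 : ℝ)) ≤ η / 4 * x := by
  have h1 := (isLittleO_log_rpow_atTop (by norm_num : (0 : ℝ) < 5 / 8)).def
    (c := η / 4 / (1 / (2 * η) + 1)) (by positivity)
  have h2 := tendsto_natCast_atTop_atTop (R := ℝ) |>.eventually h1
  filter_upwards [h2, Filter.eventually_ge_atTop 1] with x hx hx1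
  have hx0 : (0 : ℝ) < x := by exact_mod_cast hx1
  have h3 : Real.log x ≤ η / 4 / (1 / (2 * η) + 1) * (x : ℝ) ^ (5 / 8 : ℝ) := by
    have := (le_abs_self _).trans hx
    rwa [Real.norm_eq_abs, abs_of_nonneg (by positivity)] at this
  have h4 : (x : ℝ) ^ (5 / 8 : ℝ) * (x : ℝ) ^ (3 / 8 : ℝ) = x := by
    rw [← Real.rpow_add hx0]; norm_num
  calc (1 / (2 * η) + 1) * (Real.log x * (x : ℝ) ^ (3 / 8 : ℝ))
      ≤ (1 / (2 * η) + 1) * (η / 4 / (1 / (2 * η) + 1) * (x : ℝ) ^ (5 / 8 : ℝ) * (x : ℝ) ^ (3 / 8 : ℝ)) := by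
        gcongr
    _ = η / 4 * ((x : ℝ) ^ (5 / 8 : ℝ) * (x : ℝ) ^ (3 / 8 : ℝ)) := by field_simp
    _ = η / 4 * x := by rw [h4]

theorem aux1 (η x s y L Q : ℝ) (h : s * s = x) (hs : s ≠ 0) (hL : L ≠ 0) (hQ : Q ≠ 0) :
    η / 4 * x * ((y / s) / (L * Q ^ 2)) = η / 4 * ((1 / Q ^ 2) * (y * s) / L) := by
  subst h
  field_simp

theorem aux2 (η x s y L : ℝ) (h : s * s = x) (hs : s ≠ 0) (hL : L ≠ 0) (hη : η ≠ 0) :
    2 * (η ^ 2 / 4 * (x / L)) * (y / (2 * (η * s))) = η / 4 * (y * s / L) := by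
  subst h
  field_simp

end PartAAux

open PartAAux

open Classical in
theorem part_a (η δ : ℝ) (h0 : 0 < η) (h1 : η < 1 / 2) (hδ : 0 < δ) (hδ2 : δ ≤ 1 / 4) :
    ∃ x0 : ℕ, ∀ x : ℕ, x0 ≤ x → ∀ y : ℕ, (x : ℝ) ^ (1 / 2 + δ) ≤ y → y ^ 4 ≤ x ^ 3 →
    ∀ (e : ℕ → ℤ) (Q : ℕ), Good e Q → ((Q : ℝ)) ^ 2 ≤ (x : ℝ) ^ δ →
    |∑ p ∈ (Icc 1 ⌊(1 - η ^ 2) * (x : ℝ)⌋₊).filter Nat.Prime, (cnt e Q x y p : ℝ) -
      rho e Q * (y * √(x : ℝ)) / Real.log x| ≤ 3 * η * (rho e Q * (y * √(x : ℝ)) / Real.log x) := by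
  obtain ⟨x1, H1⟩ := tt_asymp (η ^ 2 / 4) (by positivity)
  obtain ⟨x2, H2⟩ := ww_sum η h0 h1
  obtain ⟨x3, H3⟩ := Filter.eventually_atTop.1 ((ev1 η δ hδ).and (ev2 η h0))
  refine ⟨max (max x1 x2) (max x3 3), fun x hx y hy hy2 e Q hG hQ => ?_⟩
  have hx1 : x1 ≤ x := le_trans (le_trans (le_max_left _ _) (le_max_left _ _)) hx
  have hx2 : x2 ≤ x := le_trans (le_trans (le_max_right _ _) (le_max_left _ _)) hx
  have hx3 : x3 ≤ x := le_trans (le_trans (le_max_left _ _) (le_max_right _ _)) hx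
  have hx4 : 3 ≤ x := le_trans (le_trans (le_max_right _ _) (le_max_right _ _)) hx
  obtain ⟨E1, E2⟩ := H3 x hx3
  have hxR : (3 : ℝ) ≤ x := by exact_mod_cast hx4
  have hx0 : (0 : ℝ) < x := by linarith
  have hlog : 0 < Real.log x := Real.log_pos (by linarith)
  have hs : 0 < √(x : ℝ) := Real.sqrt_pos.2 hx0
  have hss : √(x : ℝ) * √(x : ℝ) = x := Real.mul_self_sqrt hx0.le
  have hsr : √(x : ℝ) = (x : ℝ) ^ (1 / 2 : ℝ) := Real.sqrt_eq_rpow _
  -- Q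
  have hQ1 : 1 ≤ Q := by
    obtain ⟨k, hk⟩ := hG.1
    omega
  have hQR : (1 : ℝ) ≤ Q := by exact_mod_cast hQ1
  have hQd : (Q : ℝ) ≤ (x : ℝ) ^ (δ / 2) := by
    have h2 : ((x : ℝ) ^ (δ / 2)) ^ 2 = (x : ℝ) ^ δ := by
      rw [← Real.rpow_natCast, ← Real.rpow_mul hx0.le]
      congr 1
      push_cast
      ring
    have h3 : (0 : ℝ) ≤ (x : ℝ) ^ (δ / 2) := by positivity
    rw [← h2] at hQ
    exact (pow_le_pow_iff_left₀ (by linarith) h3 (by norm_num)).1 hQ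
  have hQ8 : (Q : ℝ) ≤ (x : ℝ) ^ (1 / 8 : ℝ) :=
    hQd.trans (Real.rpow_le_rpow_of_exponent_le (by linarith) (by linarith))
  have hQ3 : (Q : ℝ) ^ 3 ≤ (x : ℝ) ^ (3 / 8 : ℝ) := by
    calc (Q : ℝ) ^ 3 ≤ ((x : ℝ) ^ (1 / 8 : ℝ)) ^ 3 := by gcongr
      _ = (x : ℝ) ^ (3 / 8 : ℝ) := by
        rw [← Real.rpow_natCast, ← Real.rpow_mul hx0.le]
        norm_num
  have hQ4 : Q ^ 4 ≤ x := by
    have : (Q : ℝ) ^ 4 ≤ x := by
      calc (Q : ℝ) ^ 4 ≤ ((x : ℝ) ^ (1 / 8 : ℝ)) ^ 4 := by gcongr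
        _ = (x : ℝ) ^ (1 / 2 : ℝ) := by
          rw [← Real.rpow_natCast, ← Real.rpow_mul hx0.le]
          norm_num
        _ ≤ (x : ℝ) ^ (1 : ℝ) := Real.rpow_le_rpow_of_exponent_le (by linarith) (by norm_num)
        _ = x := Real.rpow_one _
    exact_mod_cast this
  -- y
  have hy1 : (x : ℝ) ^ (1 / 2 + δ) = √(x : ℝ) * (x : ℝ) ^ (δ / 2) * (x : ℝ) ^ (δ / 2) := by
    rw [hsr, ← Real.rpow_add hx0, ← Real.rpow_add hx0]
    congr 1
    ring
  have hxd : (1 : ℝ) ≤ (x : ℝ) ^ (δ / 2) := Real.one_le_rpow (by linarith) (by linarith)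
  have hyQ : 24 * Q * √(x : ℝ) ≤ η * y := by
    have a1 : 24 ≤ η * (x : ℝ) ^ (δ / 2) := by
      rw [div_le_iff₀ h0] at E1
      linarith
    calc 24 * Q * √(x : ℝ) ≤ (η * (x : ℝ) ^ (δ / 2)) * (x : ℝ) ^ (δ / 2) * √(x : ℝ) := by gcongr
      _ = η * (x : ℝ) ^ (1 / 2 + δ) := by rw [hy1]; ring
      _ ≤ η * y := by gcongr
  have hys : √(x : ℝ) ≤ y := by
    calc √(x : ℝ) = √(x : ℝ) * 1 * 1 := by ring
      _ ≤ √(x : ℝ) * (x : ℝ) ^ (δ / 2) * (x : ℝ) ^ (δ / 2) := by gcongr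
      _ ≤ y := by rw [← hy1]; exact hy
  have hyp : (0 : ℝ) < y := lt_of_lt_of_le hs hys
  have hyn : 1 ≤ y := by exact_mod_cast hyp
  -- rho
  have hd := (dens_bounds hG).1
  have hP := (PP_bounds hG).1
  have hρ : 1 / (Q : ℝ) ^ 2 ≤ rho e Q := by
    rw [rho]
    calc 1 / (Q : ℝ) ^ 2 = (1 / (Q : ℝ)) * (1 / (Q : ℝ)) := by field_simp
      _ ≤ dens Q * PP e Q := mul_le_mul hd hP (by positivity) (le_trans (by positivity) hd)
  have hρ0 : 0 < rho e Q := lt_of_lt_of_le (by positivity) hρ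
  set X := ⌊(1 - η ^ 2) * (x : ℝ)⌋₊ with hXd
  have hη2 : 0 < η ^ 2 := by positivity
  have hη21 : η ^ 2 < 1 := by nlinarith
  have hXle : (X : ℝ) ≤ (1 - η ^ 2) * x := Nat.floor_le (by nlinarith)
  have hXx : X < x := by
    have : (X : ℝ) < x := by nlinarith
    exact_mod_cast this
  set r := rho e Q with hr
  set M := r * (y * √(x : ℝ)) / Real.log x with hM
  have hM0 : 0 < M := by positivity
  -- w X
  have hwX : ww x y X ≤ y / (2 * (η * √(x : ℝ))) := by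
    refine (ww_bounds hXx).2.trans ?_
    have a1 : η * √(x : ℝ) ≤ √((x : ℝ) - X) := by
      apply Real.le_sqrt_of_sq_le
      rw [mul_pow, Real.sq_sqrt hx0.le]
      linarith
    gcongr
  -- T X
  have hT := H1 x hx1 e Q hG hQ4
  have hTX : TT e Q X ≤ 2 * (x / Real.log x) := by
    have a1 := hT X (by omega)
    rw [abs_le] at a1
    have a2 : (X : ℝ) / Real.log x ≤ x / Real.log x := by
      gcongr
    have a3 : η ^ 2 / 4 * (x / Real.log x) ≤ 1 * (x / Real.log x) := by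
      gcongr
      linarith
    linarith [a1.2]
  -- split
  have hsplit : ∑ p ∈ (Icc 1 X).filter Nat.Prime, (cnt e Q x y p : ℝ) =
      ∑ p ∈ prs Q X, (cnt e Q x y p : ℝ) +
      ∑ p ∈ ((Icc 1 X).filter Nat.Prime).filter (fun p => ¬ p.Coprime Q), (cnt e Q x y p : ℝ) := by
    rw [← Finset.sum_filter_add_sum_filter_not ((Icc 1 X).filter Nat.Prime) (fun p => p.Coprime Q)]
    congr 1
    apply Finset.sum_congr _ (fun _ _ => rfl)
    ext p
    simp only [prs, mem_filter, mem_Icc]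
    tauto
  -- first error
  have e1 : |∑ p ∈ prs Q X, (cnt e Q x y p : ℝ) - r * ∑ p ∈ prs Q X, FF e Q p * ww x y p| ≤
      η / 4 * M := by
    rw [Finset.mul_sum, ← Finset.sum_sub_distrib]
    refine (Finset.abs_sum_le_sum_abs _ _).trans ?_
    have a1 : ∀ p ∈ prs Q X, |(cnt e Q x y p : ℝ) - r * (FF e Q p * ww x y p)| ≤ 3 * (Q * r) * FF e Q p := by
      intro p hp
      simp only [prs, mem_filter, mem_Icc] at hp
      have := cnt_eq (y := y) hG (lt_of_le_of_lt hp.1.2 hXx) hp.2.2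
      rw [← hr] at this
      calc |(cnt e Q x y p : ℝ) - r * (FF e Q p * ww x y p)|
          = |(cnt e Q x y p : ℝ) - ww x y p * (r * FF e Q p)| := by congr 1; ring
        _ ≤ _ := this
        _ = _ := by ring
    refine (Finset.sum_le_sum a1).trans ?_
    rw [← Finset.mul_sum]
    change 3 * (Q * r) * TT e Q X ≤ _
    calc 3 * (Q * r) * TT e Q X ≤ 3 * (Q * r) * (2 * (x / Real.log x)) := by gcongr
      _ = r * ((24 * Q * √(x : ℝ)) * √(x : ℝ)) / (4 * Real.log x) := by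
        rw [mul_assoc (24 * (Q : ℝ)) _ _, hss]
        field_simp
        ring
      _ ≤ r * ((η * y) * √(x : ℝ)) / (4 * Real.log x) := by gcongr
      _ = η / 4 * M := by rw [hM]; field_simp
  -- Abel
  have e2 : |∑ p ∈ prs Q X, FF e Q p * ww x y p - 1 / Real.log x * ∑ i ∈ Icc 1 X, ww x y i| ≤
      η / 4 * (y * √(x : ℝ) / Real.log x) := by
    have a1 := abel X (fun i => if i ∈ prs Q X then FF e Q i else 0) (ww x y) (1 / Real.log x)
      (η ^ 2 / 4 * (x / Real.log x)) (fun t ht => by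
        rw [sumF e Q X t ht]
        have := hT t (by omega)
        rwa [one_div_mul_eq_div])
      (ww_nonneg x y) (fun i j hij hj => ww_mono hij (lt_of_le_of_lt hj hXx))
    rw [sumFw] at a1
    refine a1.trans ?_
    calc 2 * (η ^ 2 / 4 * (x / Real.log x)) * ww x y X
        ≤ 2 * (η ^ 2 / 4 * (x / Real.log x)) * (y / (2 * (η * √(x : ℝ)))) := by
          gcongr
      _ = η / 4 * (y * √(x : ℝ) / Real.log x) :=
          aux2 _ _ _ _ _ hss hs.ne' hlog.ne' h0.ne'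
  have e3 := H2 x hx2 y hyn hy2
  rw [← hXd] at e3
  -- primes dividing Q
  have e4 : ∑ p ∈ ((Icc 1 X).filter Nat.Prime).filter (fun p => ¬ p.Coprime Q), (cnt e Q x y p : ℝ) ≤
      η / 4 * M := by
    have a1 : ∀ p ∈ ((Icc 1 X).filter Nat.Prime).filter (fun p => ¬ p.Coprime Q),
        (cnt e Q x y p : ℝ) ≤ y / (2 * (η * √(x : ℝ))) + y / √(x : ℝ) := by
      intro p hp
      simp only [mem_filter, mem_Icc] at hp
      have b1 := cnt_le (e := e) (Q := Q) (y := y) (lt_of_le_of_lt hp.1.1.2 hXx)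
      have b2 := (ww_mono (y := y) hp.1.1.2 hXx).trans hwX
      have b3 : 1 ≤ (y : ℝ) / √(x : ℝ) := by rw [le_div_iff₀ hs]; linarith
      linarith
    refine (Finset.sum_le_card_nsmul _ _ _ a1).trans ?_
    rw [nsmul_eq_mul]
    have a2 : ((((Icc 1 X).filter Nat.Prime).filter (fun p => ¬ p.Coprime Q)).card : ℝ) ≤ Q := by
      have : (((Icc 1 X).filter Nat.Prime).filter (fun p => ¬ p.Coprime Q)).card ≤ (Icc 1 Q).card := by
        apply Finset.card_le_card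
        intro p hp
        simp only [mem_filter, mem_Icc] at hp
        simp only [mem_Icc]
        refine ⟨hp.1.1.1, Nat.le_of_dvd (by omega) ?_⟩
        by_contra h
        exact hp.2 ((Nat.Prime.coprime_iff_not_dvd hp.1.2).2 h)
      rw [Nat.card_Icc] at this
      exact_mod_cast this.trans (by omega)
    have a3 : (Q : ℝ) ^ 3 * ((1 / (2 * η) + 1) * Real.log x) ≤ η / 4 * x := by
      calc (Q : ℝ) ^ 3 * ((1 / (2 * η) + 1) * Real.log x)
          ≤ (x : ℝ) ^ (3 / 8 : ℝ) * ((1 / (2 * η) + 1) * Real.log x) := by gcongr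
        _ = (1 / (2 * η) + 1) * (Real.log x * (x : ℝ) ^ (3 / 8 : ℝ)) := by ring
        _ ≤ _ := E2
    have a4 : y / (2 * (η * √(x : ℝ))) + y / √(x : ℝ) = (1 / (2 * η) + 1) * (y / √(x : ℝ)) := by
      field_simp
    rw [a4]
    calc ((((Icc 1 X).filter Nat.Prime).filter (fun p => ¬ p.Coprime Q)).card : ℝ) *
          ((1 / (2 * η) + 1) * (y / √(x : ℝ)))
        ≤ Q * ((1 / (2 * η) + 1) * (y / √(x : ℝ))) := by gcongr
      _ = (Q : ℝ) ^ 3 * ((1 / (2 * η) + 1) * Real.log x) * ((y / √(x : ℝ)) / (Real.log x * Q ^ 2)) := by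
          field_simp
      _ ≤ η / 4 * x * ((y / √(x : ℝ)) / (Real.log x * Q ^ 2)) := by gcongr
      _ = η / 4 * ((1 / (Q : ℝ) ^ 2) * (y * √(x : ℝ)) / Real.log x) :=
          aux1 _ _ _ _ _ _ hss hs.ne' hlog.ne' (by positivity)
      _ ≤ η / 4 * M := by
          rw [hM]
          gcongr
  have e4' : 0 ≤ ∑ p ∈ ((Icc 1 X).filter Nat.Prime).filter (fun p => ¬ p.Coprime Q), (cnt e Q x y p : ℝ) :=
    Finset.sum_nonneg fun p _ => Nat.cast_nonneg _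
  rw [hsplit]
  set S1 := ∑ p ∈ prs Q X, (cnt e Q x y p : ℝ)
  set S2 := ∑ p ∈ ((Icc 1 X).filter Nat.Prime).filter (fun p => ¬ p.Coprime Q), (cnt e Q x y p : ℝ)
  set A := ∑ p ∈ prs Q X, FF e Q p * ww x y p
  set B := ∑ i ∈ Icc 1 X, ww x y i
  have f2 : |r * A - r * (1 / Real.log x * B)| ≤ η / 4 * M := by
    rw [← mul_sub, abs_mul, abs_of_pos hρ0]
    calc r * |A - 1 / Real.log x * B| ≤ r * (η / 4 * (y * √(x : ℝ) / Real.log x)) := by gcongr
      _ = η / 4 * M := by rw [hM]; ring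
  have f3 : |r * (1 / Real.log x * B) - M| ≤ 2 * η * M := by
    have a1 : r * (1 / Real.log x * B) - M = (r / Real.log x) * (B - y * √(x : ℝ)) := by
      rw [hM]; ring
    rw [a1, abs_mul, abs_of_pos (by positivity)]
    calc r / Real.log x * |B - y * √(x : ℝ)| ≤ r / Real.log x * (2 * η * (y * √(x : ℝ))) := by gcongr
      _ = 2 * η * M := by rw [hM]; ring
  rw [abs_le] at e1 f2 f3 ⊢
  have hηM : 0 ≤ η * M := by positivity
  constructor <;> linarith [e1.1, e1.2, f2.1, f2.2, f3.1, f3.2]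

end Pool.Agent.P83e
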