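import Pool.Agent.Lib.P83e.Defs

/-!
# Products of periodic functions with coprime periods

PROOF. `per_mul`: `a ↦ (a % m, a % n)` is a bijection from `range (m * n)` to `range m ×ˢ range n`
(Chinese remainder theorem, `Nat.chineseRemainder`), `f a = f (a % m)`, `g a = g (a % n)`.
`per_prod`: induction on `s` with `per_mul` (`∏ q ∈ s, q` is coprime to a prime not in `s`; a product of
functions periodic mod `q ∈ s` is periodic mod `∏ q ∈ s, q`).
-/

set_option autoImplicit false

open Finset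

namespace Pool.Agent.P83e

theorem per_mod {m : ℕ} (f : ℕ → ℝ) (hf : ∀ a, f (a + m) = f a) (a b : ℕ) (h : a % m = b % m) :
    f a = f b := by
  have hp : Function.Periodic f m := hf
  rw [← hp.map_mod_nat a, ← hp.map_mod_nat b, h]

theorem per_mul {m n : ℕ} (hm : 0 < m) (hn : 0 < n) (h : m.Coprime n) (f g : ℕ → ℝ)
    (hf : ∀ a, f (a + m) = f a) (hg : ∀ a, g (a + n) = g a) :
    ∑ a ∈ range (m * n), f a * g a = (∑ a ∈ range m, f a) * ∑ a ∈ range n, g a := by
  rw [Finset.sum_mul_sum, ← Finset.sum_product']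
  refine Finset.sum_nbij' (fun a => (a % m, a % n))
    (fun p => (Nat.chineseRemainder h p.1 p.2 : ℕ)) ?_ ?_ ?_ ?_ ?_
  · intro a _
    rw [Finset.mem_product, Finset.mem_range, Finset.mem_range]
    exact ⟨Nat.mod_lt _ hm, Nat.mod_lt _ hn⟩
  · intro p _
    rw [Finset.mem_range]
    exact Nat.chineseRemainder_lt_mul h p.1 p.2 hm.ne' hn.ne'
  · intro a ha
    have hlt : (Nat.chineseRemainder h (a % m) (a % n) : ℕ) < m * n :=
      Nat.chineseRemainder_lt_mul h _ _ hm.ne' hn.ne'
    have h1 : (Nat.chineseRemainder h (a % m) (a % n) : ℕ) ≡ a [MOD m] :=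
      (Nat.chineseRemainder h (a % m) (a % n)).2.1.trans (Nat.mod_modEq a m)
    have h2 : (Nat.chineseRemainder h (a % m) (a % n) : ℕ) ≡ a [MOD n] :=
      (Nat.chineseRemainder h (a % m) (a % n)).2.2.trans (Nat.mod_modEq a n)
    exact Nat.ModEq.eq_of_lt_of_lt ((Nat.modEq_and_modEq_iff_modEq_mul h).1 ⟨h1, h2⟩) hlt
      (Finset.mem_range.1 ha)
  · intro p hp
    rw [Finset.mem_product, Finset.mem_range, Finset.mem_range] at hp
    have h1 := (Nat.chineseRemainder h p.1 p.2).2.1
    have h2 := (Nat.chineseRemainder h p.1 p.2).2.2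
    have e1 : (Nat.chineseRemainder h p.1 p.2 : ℕ) % m = p.1 := by
      rw [h1]
      exact Nat.mod_eq_of_lt hp.1
    have e2 : (Nat.chineseRemainder h p.1 p.2 : ℕ) % n = p.2 := by
      rw [h2]
      exact Nat.mod_eq_of_lt hp.2
    exact Prod.ext e1 e2
  · intro a _
    show f a * g a = f (a % m) * g (a % n)
    rw [per_mod f hf (a % m) a (Nat.mod_mod a m), per_mod g hg (a % n) a (Nat.mod_mod a n)]

namespace PerAux

private theorem per_mult {m : ℕ} (f : ℕ → ℝ) (hf : ∀ a, f (a + m) = f a) (k a : ℕ) (h : m ∣ k) :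
    f (a + k) = f a := by
  obtain ⟨c, rfl⟩ := h
  exact per_mod f hf _ _ (Nat.add_mul_mod_self_left a m c)

end PerAux

theorem per_prod (s : Finset ℕ) (hs : ∀ q ∈ s, q.Prime) (g : ℕ → ℕ → ℝ)
    (hg : ∀ q ∈ s, ∀ a, g q (a + q) = g q a) :
    ∑ a ∈ range (∏ q ∈ s, q), ∏ q ∈ s, g q a = ∏ q ∈ s, ∑ a ∈ range q, g q a := by
  classical
  induction s using Finset.induction_on with
  | empty => simp
  | insert p s hps ih =>
    have hs' : ∀ q ∈ s, q.Prime := fun q hq => hs q (Finset.mem_insert_of_mem hq)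
    have hg' : ∀ q ∈ s, ∀ a, g q (a + q) = g q a := fun q hq => hg q (Finset.mem_insert_of_mem hq)
    have hp : p.Prime := hs p (Finset.mem_insert_self p s)
    rw [Finset.prod_insert hps, Finset.prod_insert hps, ← ih hs' hg']
    have hcop : p.Coprime (∏ q ∈ s, q) := by
      rw [Nat.coprime_prod_right_iff]
      intro q hq
      rw [Nat.coprime_primes hp (hs' q hq)]
      rintro rfl
      exact hps hq
    have hpos : 0 < ∏ q ∈ s, q := Finset.prod_pos fun q hq => (hs' q hq).pos
    rw [← per_mul hp.pos hpos hcop (g p) (fun a => ∏ q ∈ s, g q a)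
      (hg p (Finset.mem_insert_self p s))
      (fun a => Finset.prod_congr rfl fun q hq =>
        PerAux.per_mult (g q) (hg' q hq) _ a (Finset.dvd_prod_of_mem _ hq))]
    exact Finset.sum_congr rfl fun a _ => Finset.prod_insert hps

end Pool.Agent.P83e
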