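import Pool.Agent.Lib.P83e.Defs
import Pool.Agent.Lib.PntAP.PntAP

/-!
# Uniform prime number theorem for boundedly many moduli

PROOF. `Pool.Agent.PntAP.piAP_tendsto` for the finitely many pairs `(q, a mod q)`, `q ≤ K`: for `t ≥ t0` the
count is `t / (φ(q) log t)` up to `(ε/4) t / log t`. For `t ≤ x^(1-ε')` everything is `≤ x^(1-ε')`, small; for
`x^(1-ε') ≤ t ≤ 2 x` one has `|t / log t - t / log x| ≤ small * x / log x`.
-/

set_option autoImplicit false

open Finset

namespace Pool.Agent.P83e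

namespace PntuAux

open Filter Topology

open Classical in
noncomputable def NN (q a t : ℕ) : ℝ :=
  (((Icc 1 t).filter (fun p => p.Prime ∧ p ≡ a [MOD q])).card : ℝ)

lemma NN_eq (q a t : ℕ) : NN q a t = (Pool.Agent.PntAP.piAP (a : ZMod q) (t : ℝ) : ℝ) := by
  classical
  unfold NN Pool.Agent.PntAP.piAP Pool.Agent.PntAP.primesAP
  rw [Nat.floor_natCast]
  congr 2
  ext p
  simp only [mem_filter]
  refine and_congr Iff.rfl (and_congr Iff.rfl ?_)
  rw [ZMod.natCast_eq_natCast_iff]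

lemma NN_mono (q a : ℕ) {s t : ℕ} (h : s ≤ t) : NN q a s ≤ NN q a t := by
  classical
  unfold NN
  have : ((Icc 1 s).filter (fun p => p.Prime ∧ p ≡ a [MOD q])).card ≤
      ((Icc 1 t).filter (fun p => p.Prime ∧ p ≡ a [MOD q])).card :=
    card_le_card (filter_subset_filter _ (Icc_subset_Icc le_rfl h))
  exact_mod_cast this

lemma NN_nonneg (q a t : ℕ) : 0 ≤ NN q a t := by unfold NN; positivity

lemma NN_tendsto {q a : ℕ} (hq : 1 ≤ q) (ha : a.Coprime q) :
    Tendsto (fun t : ℕ => NN q a t * Real.log t / t) atTop (𝓝 ((q.totient : ℝ)⁻¹)) := by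
  have : NeZero q := ⟨by omega⟩
  have hu : IsUnit (a : ZMod q) := (ZMod.isUnit_iff_coprime a q).mpr ha
  have h := (Pool.Agent.PntAP.piAP_tendsto hu).comp (tendsto_natCast_atTop_atTop (R := ℝ))
  refine h.congr fun t => ?_
  simp only [Function.comp, NN_eq]

/-- range `η x ≤ t ≤ 2 x` -/
lemma big_range {q a : ℕ} (hq : 1 ≤ q) (ha : a.Coprime q) (η δ : ℝ) (hη : 0 < η) (hη1 : η ≤ 1)
    (hδ : 0 < δ) (hδ1 : δ ≤ 1) : ∃ x0 : ℕ, 3 ≤ x0 ∧ ∀ x : ℕ, x0 ≤ x → ∀ t : ℕ, η * x ≤ t → t ≤ 2 * x →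
      |NN q a t * Real.log x / x - (q.totient : ℝ)⁻¹ * (t / x)| ≤ 6 * δ := by
  have hφ : 1 ≤ (q.totient : ℝ) := by
    have := Nat.totient_pos.mpr hq
    exact_mod_cast this
  set c : ℝ := (q.totient : ℝ)⁻¹ with hc
  have hc0 : 0 < c := by positivity
  have hc1 : c ≤ 1 := inv_le_one_of_one_le₀ hφ
  obtain ⟨T, hT⟩ := (Metric.tendsto_atTop.mp (NN_tendsto hq ha)) δ hδ
  set L : ℝ := Real.log 2 - Real.log η with hL
  have hl2 : 0 < Real.log 2 := Real.log_pos (by norm_num)
  have hlη : Real.log η ≤ 0 := Real.log_nonpos hη.le hη1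
  have hL0 : 0 < L := by linarith
  -- x large
  have hlog : Tendsto (fun x : ℕ => Real.log (x : ℝ)) atTop atTop :=
    Real.tendsto_log_atTop.comp tendsto_natCast_atTop_atTop
  obtain ⟨X1, hX1⟩ := (tendsto_atTop_atTop.mp hlog) (L + L / δ + 1)
  obtain ⟨X2, hX2⟩ := (tendsto_atTop_atTop.mp (tendsto_natCast_atTop_atTop (R := ℝ))) ((T : ℝ) / η)
  refine ⟨max 3 (max X1 X2), le_max_left _ _, ?_⟩
  intro x hx t ht1 ht2
  have hx3 : 3 ≤ x := le_trans (le_max_left _ _) hx
  have hx1 := hX1 x (le_trans (le_trans (le_max_left _ _) (le_max_right _ _)) hx)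
  have hx2 := hX2 x (le_trans (le_trans (le_max_right _ _) (le_max_right _ _)) hx)
  have hx0 : (0 : ℝ) < x := by
    have : 0 < x := by omega
    exact_mod_cast this
  have ht0 : (0 : ℝ) < t := lt_of_lt_of_le (by positivity) ht1
  have ht2' : (t : ℝ) ≤ 2 * x := by exact_mod_cast ht2
  have hTt : T ≤ t := by
    have : (T : ℝ) ≤ t := by
      have h1 : (T : ℝ) / η * η ≤ x * η := by gcongr
      rw [div_mul_cancel₀ _ hη.ne'] at h1
      linarith
    exact_mod_cast this
  have hg := hT t hTt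
  rw [Real.dist_eq] at hg
  have hlx : L + L / δ + 1 ≤ Real.log x := hx1
  have hLδ : 0 < L / δ := by positivity
  have hlx0 : 0 < Real.log x := by linarith
  have hlt_up : Real.log t ≤ Real.log x + L := by
    have h1 : Real.log t ≤ Real.log (2 * x) := Real.log_le_log ht0 ht2'
    rw [Real.log_mul (by norm_num) hx0.ne'] at h1
    linarith
  have hlt_lo : Real.log x - L ≤ Real.log t := by
    have h1 : Real.log (η * x) ≤ Real.log t := Real.log_le_log (by positivity) ht1
    rw [Real.log_mul hη.ne' hx0.ne'] at h1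
    linarith
  have hlt0 : 0 < Real.log t := by linarith
  set r : ℝ := Real.log x / Real.log t with hr
  have hr1 : |r - 1| ≤ δ := by
    rw [hr, div_sub_one hlt0.ne', abs_div, abs_of_pos hlt0, div_le_iff₀ hlt0]
    have h1 : |Real.log x - Real.log t| ≤ L := by
      rw [abs_le]; constructor <;> linarith
    have h2 : L ≤ δ * Real.log t := by
      have h3 : L / δ ≤ Real.log t := by linarith
      rw [div_le_iff₀ hδ] at h3
      linarith
    linarith
  set g : ℝ := NN q a t * Real.log t / t with hgdef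
  have hkey : NN q a t * Real.log x / x - c * (t / x) = (t / x) * ((g - c) * r + c * (r - 1)) := by
    rw [hgdef, hr]
    field_simp
    ring
  have htx : (t : ℝ) / x ≤ 2 := by
    rw [div_le_iff₀ hx0]; exact ht2'
  have htx0 : 0 ≤ (t : ℝ) / x := by positivity
  have hrabs : |r| ≤ 2 := by
    have := abs_le.mp hr1
    rw [abs_le]; constructor <;> linarith
  have h1 : |(g - c) * r + c * (r - 1)| ≤ 3 * δ := by
    calc |(g - c) * r + c * (r - 1)| ≤ |(g - c) * r| + |c * (r - 1)| := abs_add_le _ _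
      _ = |g - c| * |r| + c * |r - 1| := by rw [abs_mul, abs_mul, abs_of_pos hc0]
      _ ≤ δ * 2 + 1 * δ := by
          have := abs_nonneg (r - 1)
          have h5 := abs_nonneg r
          gcongr
      _ = 3 * δ := by ring
  rw [hkey, abs_mul, abs_of_nonneg htx0]
  calc (t : ℝ) / x * |(g - c) * r + c * (r - 1)| ≤ 2 * (3 * δ) := by gcongr
    _ = 6 * δ := by ring

lemma single {q a : ℕ} (hq : 1 ≤ q) (ha : a.Coprime q) (ε : ℝ) (hε : 0 < ε) :
    ∃ x0 : ℕ, ∀ x : ℕ, x0 ≤ x → ∀ t : ℕ, t ≤ 2 * x →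
      |NN q a t - t / ((q.totient : ℝ) * Real.log x)| ≤ ε * (x / Real.log x) := by
  have hφ : 1 ≤ (q.totient : ℝ) := by
    have := Nat.totient_pos.mpr hq
    exact_mod_cast this
  set c : ℝ := (q.totient : ℝ)⁻¹ with hc
  have hc0 : 0 < c := by positivity
  have hc1 : c ≤ 1 := inv_le_one_of_one_le₀ hφ
  set e : ℝ := min ε 1 with he
  have he0 : 0 < e := lt_min hε one_pos
  have heε : e ≤ ε := min_le_left _ _
  have he1 : e ≤ 1 := min_le_right _ _
  obtain ⟨x1, hx13, hx1⟩ := big_range hq ha (e / 4) (e / 24) (by positivity) (by linarith)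
    (by positivity) (by linarith)
  obtain ⟨x2, hx2⟩ := exists_nat_gt (4 / e)
  refine ⟨max x1 x2, ?_⟩
  intro x hx t ht
  have hxx1 : x1 ≤ x := le_trans (le_max_left _ _) hx
  have hxx2 : x2 ≤ x := le_trans (le_max_right _ _) hx
  have hx3 : 3 ≤ x := by omega
  have hx0 : (0 : ℝ) < x := by
    have : 0 < x := by omega
    exact_mod_cast this
  have hlx : 0 < Real.log x := Real.log_pos (by exact_mod_cast (by omega : 1 < x))
  have hxe : 4 / e < x := lt_of_lt_of_le hx2 (by exact_mod_cast hxx2)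
  have hinv : 1 / (x : ℝ) ≤ e / 4 := by
    rw [div_lt_iff₀ he0] at hxe
    rw [div_le_iff₀ hx0]
    linarith
  have hrw : ∀ s : ℕ, NN q a s - s / ((q.totient : ℝ) * Real.log x) =
      (NN q a s * Real.log x / x - c * (s / x)) * (x / Real.log x) := by
    intro s
    rw [hc]
    field_simp
  have hXL : 0 < (x : ℝ) / Real.log x := by positivity
  rw [hrw, abs_mul, abs_of_pos hXL]
  refine mul_le_mul_of_nonneg_right (le_trans ?_ heε) hXL.le
  by_cases hts : e / 4 * x ≤ t
  · have := hx1 x hxx1 t hts ht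
    linarith
  · push Not at hts
    set t1 : ℕ := ⌈e / 4 * x⌉₊ with ht1
    have h1 : e / 4 * x ≤ t1 := Nat.le_ceil _
    have h2 : (t1 : ℝ) < e / 4 * x + 1 := Nat.ceil_lt_add_one (by positivity)
    have h3 : t1 ≤ 2 * x := by
      have h4 : (t1 : ℝ) < 2 * x := by
        have h5 : (3 : ℝ) ≤ x := by exact_mod_cast hx3
        nlinarith
      have : t1 < 2 * x := by exact_mod_cast h4
      omega
    have hb := hx1 x hxx1 t1 h1 h3
    have htt1 : t ≤ t1 := by
      have : (t : ℝ) ≤ t1 := by linarith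
      exact_mod_cast this
    have hmono := NN_mono q a htt1
    have hb2 := (abs_le.mp hb).2
    have hup : NN q a t * Real.log x / x ≤ e := by
      have h5 : NN q a t * Real.log x / x ≤ NN q a t1 * Real.log x / x := by gcongr
      have h6 : (t1 : ℝ) / x ≤ e / 4 + 1 / x := by
        rw [div_le_iff₀ hx0, add_mul, div_mul_cancel₀ _ hx0.ne']
        linarith
      have h7 : c * ((t1 : ℝ) / x) ≤ 1 * (e / 4 + 1 / x) := by
        have h8 : 0 ≤ (t1 : ℝ) / x := by positivity
        gcongr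
      linarith
    have hlo : 0 ≤ NN q a t * Real.log x / x := by
      have := NN_nonneg q a t
      positivity
    have hct : c * ((t : ℝ) / x) ≤ e := by
      have h6 : (t : ℝ) / x ≤ e / 4 := by
        rw [div_le_iff₀ hx0]; linarith
      have h8 : 0 ≤ (t : ℝ) / x := by positivity
      nlinarith
    have hct0 : 0 ≤ c * ((t : ℝ) / x) := by positivity
    rw [abs_le]
    constructor <;> linarith

end PntuAux

open Classical in
theorem pnt_uniform (K : ℕ) (ε : ℝ) (hε : 0 < ε) : ∃ x0 : ℕ, ∀ x : ℕ, x0 ≤ x → ∀ t : ℕ, t ≤ 2 * x →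
    ∀ q : ℕ, 1 ≤ q → q ≤ K → ∀ a : ℕ, a.Coprime q →
    |(((Icc 1 t).filter (fun p => p.Prime ∧ p ≡ a [MOD q])).card : ℝ) - t / ((q.totient : ℝ) * Real.log x)| ≤
      ε * (x / Real.log x) := by
  have hall : ∀ q r : ℕ, ∃ x0 : ℕ, 1 ≤ q → r.Coprime q → ∀ x : ℕ, x0 ≤ x → ∀ t : ℕ, t ≤ 2 * x →
      |PntuAux.NN q r t - t / ((q.totient : ℝ) * Real.log x)| ≤ ε * (x / Real.log x) := by
    intro q r
    by_cases h : 1 ≤ q ∧ r.Coprime q
    · obtain ⟨x0, hx0⟩ := PntuAux.single h.1 h.2 ε hε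
      exact ⟨x0, fun _ _ => hx0⟩
    · exact ⟨0, fun h1 h2 => absurd ⟨h1, h2⟩ h⟩
  choose X hX using hall
  refine ⟨(range (K + 1)).sup (fun q => (range (K + 1)).sup (fun r => X q r)), ?_⟩
  intro x hx t ht q hq1 hqK a ha
  have hr : a % q < q := Nat.mod_lt _ (by omega)
  have hle : X q (a % q) ≤ x := by
    refine le_trans ?_ hx
    refine le_trans ?_ (Finset.le_sup (f := fun q => (range (K + 1)).sup (fun r => X q r))
      (mem_range.mpr (by omega : q < K + 1)))
    exact Finset.le_sup (f := fun r => X q r) (mem_range.mpr (by omega : a % q < K + 1))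
  have hcop : (a % q).Coprime q := by
    have : Nat.gcd (a % q) q = Nat.gcd a q := by
      rw [Nat.gcd_comm a q, Nat.gcd_rec q a]
    unfold Nat.Coprime at ha ⊢
    rw [this]; exact ha
  have h := hX q (a % q) hq1 hcop x hle t ht
  have heq : PntuAux.NN q (a % q) t =
      (((Icc 1 t).filter (fun p => p.Prime ∧ p ≡ a [MOD q])).card : ℝ) := by
    unfold PntuAux.NN
    congr 2
    ext p
    simp only [mem_filter]
    refine and_congr Iff.rfl (and_congr Iff.rfl ?_)
    unfold Nat.ModEq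
    rw [Nat.mod_mod]
  rw [heq] at h
  exact h

end Pool.Agent.P83e
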