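import Pool.Agent.Lib.P83e.Glob
import Pool.Agent.Lib.P83e.BTs
import Pool.Agent.Lib.P83e.Pntu

/-!
# Mean value of `FF` over primes: the two parts

PROOF. `tt_small` (fixed modulus `Q0 ≤ K`): split the primes according to `a = p % Q0`, use `pnt_uniform` for each
of the `≤ K` classes (with `ε` divided by `K * max |FF| ≤ K * 2^K`) and `glob_FF`.
`tt_large`: `Q = Q0 * Q1` coprime, all primes of `Q1` exceed `z`. `bt_sum` with modulus `Q`, interval `Ioc 0 (2x)`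
and `G p = FF e Q0 p * |FF e Q1 p - 1|`; `∑_{a mod Q, (a,Q)=1} G a` factors by `per_mul` (indicators of
coprimality are periodic) as `(∑_{a mod Q0} FF e Q0 a) (∑_{b mod Q1} |FF e Q1 b - 1|) ≤ φ(Q0) * √φ(Q1) *
√(∑ (FF - 1)^2) ≤ φ(Q) * √(2/(z-2))` by `glob_FF`, Cauchy-Schwarz and `glob_var`; `φ(Q) = φ(Q0) φ(Q1)`,
`2 x / log (2 x) ≤ 2 x / log x`.
-/

set_option autoImplicit false

open Finset

namespace Pool.Agent.P83e

namespace TTaAux

theorem good_pos {e : ℕ → ℤ} {Q : ℕ} (h : Good e Q) : 0 < Q := h.1.pos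

theorem good_left {e : ℕ → ℤ} {Q0 Q1 : ℕ} (h : Good e (Q0 * Q1)) : Good e Q0 :=
  ⟨Nat.Odd.of_mul_left h.1, h.2.1.of_mul_left, h.2.2⟩

theorem good_right {e : ℕ → ℤ} {Q0 Q1 : ℕ} (h : Good e (Q0 * Q1)) : Good e Q1 :=
  ⟨Nat.Odd.of_mul_right h.1, h.2.1.of_mul_right, h.2.2⟩

theorem cop_mod {p Q : ℕ} : (p % Q).Coprime Q ↔ p.Coprime Q := by
  unfold Nat.Coprime
  rw [Nat.gcd_comm, Nat.gcd_comm p Q, Nat.gcd_rec Q p, Nat.gcd_comm]

open Classical in
/-- Splitting the primes into residue classes. -/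
theorem split (e : ℕ → ℤ) {Q : ℕ} (hG : Good e Q) (t : ℕ) :
    ∑ p ∈ prs Q t, FF e Q p = ∑ a ∈ (range Q).filter (fun a => a.Coprime Q),
      FF e Q a * (((Icc 1 t).filter (fun p => p.Prime ∧ p ≡ a [MOD Q])).card : ℝ) := by
  have hQ := good_pos hG
  rw [← Finset.sum_fiberwise_of_maps_to (s := prs Q t) (t := (range Q).filter (fun a => a.Coprime Q))
    (g := fun p => p % Q)]
  · refine Finset.sum_congr rfl fun a ha => ?_
    rw [mem_filter, mem_range] at ha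
    have h1 : (prs Q t).filter (fun p => p % Q = a) =
        (Icc 1 t).filter (fun p => p.Prime ∧ p ≡ a [MOD Q]) := by
      ext p
      unfold prs
      simp only [mem_filter, mem_Icc]
      constructor
      · rintro ⟨⟨h1, h2, h3⟩, h4⟩
        refine ⟨h1, h2, ?_⟩
        unfold Nat.ModEq
        rw [h4, Nat.mod_eq_of_lt ha.1]
      · rintro ⟨h1, h2, h3⟩
        unfold Nat.ModEq at h3
        rw [Nat.mod_eq_of_lt ha.1] at h3
        refine ⟨⟨h1, h2, ?_⟩, h3⟩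
        rw [← cop_mod, h3]
        exact ha.2
    rw [h1, Finset.sum_congr rfl (g := fun _ => FF e Q a)]
    · rw [Finset.sum_const, nsmul_eq_mul, mul_comm]
    · intro p hp
      rw [mem_filter] at hp
      have h3 := hp.2.2
      unfold Nat.ModEq at h3
      exact per_mod _ (FF_add hG) _ _ h3
  · intro p hp
    unfold prs at hp
    rw [mem_filter] at hp
    rw [mem_filter, mem_range]
    exact ⟨Nat.mod_lt _ hQ, cop_mod.mpr hp.2.2⟩

theorem xlog_nonneg (x : ℕ) : (0 : ℝ) ≤ x / Real.log x :=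
  div_nonneg (Nat.cast_nonneg _) (Real.log_natCast_nonneg _)

theorem factor {Q0 Q1 : ℕ} (h0 : 0 < Q0) (h1 : 0 < Q1) (hc : Q0.Coprime Q1) (f g : ℕ → ℝ)
    (hf : ∀ a, f (a + Q0) = f a) (hg : ∀ a, g (a + Q1) = g a) :
    ∑ a ∈ (range (Q0 * Q1)).filter (fun a => a.Coprime (Q0 * Q1)), f a * g a =
      (∑ a ∈ (range Q0).filter (fun a => a.Coprime Q0), f a) *
      ∑ a ∈ (range Q1).filter (fun a => a.Coprime Q1), g a := by
  classical
  rw [Finset.sum_filter, Finset.sum_filter, Finset.sum_filter,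
    ← per_mul h0 h1 hc (fun a => if a.Coprime Q0 then f a else 0) (fun a => if a.Coprime Q1 then g a else 0)]
  · refine Finset.sum_congr rfl fun a _ => ?_
    by_cases ha : a.Coprime Q0
    · by_cases hb : a.Coprime Q1
      · rw [if_pos (Nat.Coprime.mul_right ha hb)]
        simp only [if_pos ha, if_pos hb]
      · rw [if_neg (fun h => hb (Nat.Coprime.coprime_mul_left_right h))]
        simp only [if_neg hb, mul_zero]
    · rw [if_neg (fun h => ha (Nat.Coprime.coprime_mul_right_right h))]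
      simp only [if_neg ha, zero_mul]
  · intro a
    have : (a + Q0).Coprime Q0 ↔ a.Coprime Q0 := by simp
    simp only [this, hf a]
  · intro a
    have : (a + Q1).Coprime Q1 ↔ a.Coprime Q1 := by simp
    simp only [this, hg a]

theorem card_tot (Q : ℕ) : ((range Q).filter (fun a => a.Coprime Q)).card = Q.totient := by
  rw [Nat.totient_eq_card_coprime]
  congr 1
  ext a
  simp only [mem_filter, mem_range]
  rw [Nat.coprime_comm]

/-- Cauchy-Schwarz. -/
theorem cs {e : ℕ → ℤ} {Q z : ℕ} (hG : Good e Q) (hz : 3 ≤ z) (h : ∀ q ∈ Q.primeFactors, z < q) :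
    ∑ a ∈ (range Q).filter (fun a => a.Coprime Q), |FF e Q a - 1| ≤
      (Q.totient : ℝ) * √(2 / ((z : ℝ) - 2)) := by
  have hz' : (3 : ℝ) ≤ z := by exact_mod_cast hz
  set s := (range Q).filter (fun a => a.Coprime Q) with hs
  have h1 : (∑ a ∈ s, |FF e Q a - 1|) ^ 2 ≤ (s.card : ℝ) * ∑ a ∈ s, |FF e Q a - 1| ^ 2 :=
    sq_sum_le_card_mul_sum_sq
  have h2 : ∑ a ∈ s, |FF e Q a - 1| ^ 2 ≤ (Q.totient : ℝ) * (2 / ((z : ℝ) - 2)) := by
    simp only [sq_abs]
    exact glob_var hG hz h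
  rw [card_tot] at h1
  have h3 : (∑ a ∈ s, |FF e Q a - 1|) ^ 2 ≤ ((Q.totient : ℝ) * √(2 / ((z : ℝ) - 2))) ^ 2 := by
    rw [mul_pow, Real.sq_sqrt (div_nonneg (by norm_num) (by linarith))]
    calc _ ≤ (Q.totient : ℝ) * ∑ a ∈ s, |FF e Q a - 1| ^ 2 := h1
      _ ≤ (Q.totient : ℝ) * ((Q.totient : ℝ) * (2 / ((z : ℝ) - 2))) :=
        mul_le_mul_of_nonneg_left h2 (Nat.cast_nonneg _)
      _ = _ := by ring
  exact le_of_sq_le_sq h3 (by positivity)

end TTaAux

open TTaAux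

theorem tt_small (K : ℕ) (ε : ℝ) (hε : 0 < ε) : ∃ x0 : ℕ, ∀ x : ℕ, x0 ≤ x → ∀ (e : ℕ → ℤ) (Q0 : ℕ), Q0 ≤ K →
    Good e Q0 → ∀ t : ℕ, t ≤ 2 * x →
    |∑ p ∈ prs Q0 t, FF e Q0 p - t / Real.log x| ≤ ε * (x / Real.log x) := by
  classical
  obtain ⟨x0, h0⟩ := pnt_uniform K (ε / (K + 1)) (by positivity)
  refine ⟨x0, fun x hx e Q0 hK hG t ht => ?_⟩
  have hQ := good_pos hG
  have hφ : (0 : ℝ) < (Q0.totient : ℝ) := by exact_mod_cast Nat.totient_pos.mpr hQ
  rw [split e hG t]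
  have h1 : (t : ℝ) / Real.log x = ∑ a ∈ (range Q0).filter (fun a => a.Coprime Q0),
      FF e Q0 a * (t / ((Q0.totient : ℝ) * Real.log x)) := by
    rw [← Finset.sum_mul, glob_FF hG]
    by_cases hl : Real.log x = 0
    · rw [hl]; simp
    · field_simp
  rw [h1, ← Finset.sum_sub_distrib]
  calc |∑ a ∈ (range Q0).filter (fun a => a.Coprime Q0),
        (FF e Q0 a * (((Icc 1 t).filter (fun p => p.Prime ∧ p ≡ a [MOD Q0])).card : ℝ) -
          FF e Q0 a * (t / ((Q0.totient : ℝ) * Real.log x)))|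
      ≤ ∑ a ∈ (range Q0).filter (fun a => a.Coprime Q0),
        |FF e Q0 a * (((Icc 1 t).filter (fun p => p.Prime ∧ p ≡ a [MOD Q0])).card : ℝ) -
          FF e Q0 a * (t / ((Q0.totient : ℝ) * Real.log x))| := Finset.abs_sum_le_sum_abs _ _
    _ ≤ ∑ a ∈ (range Q0).filter (fun a => a.Coprime Q0), FF e Q0 a * (ε / (K + 1) * (x / Real.log x)) := by
        refine Finset.sum_le_sum fun a ha => ?_
        rw [mem_filter, mem_range] at ha
        rw [← mul_sub, abs_mul, abs_of_nonneg (FF_nonneg hG a)]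
        exact mul_le_mul_of_nonneg_left (h0 x hx t ht Q0 hQ hK a ha.2) (FF_nonneg hG a)
    _ = (Q0.totient : ℝ) * (ε / (K + 1) * (x / Real.log x)) := by
        rw [← Finset.sum_mul, glob_FF hG]
    _ ≤ ((K : ℝ) + 1) * (ε / (K + 1) * (x / Real.log x)) := by
        refine mul_le_mul_of_nonneg_right ?_ (mul_nonneg (by positivity) (xlog_nonneg x))
        have : (Q0.totient : ℝ) ≤ K := by exact_mod_cast (Nat.totient_le Q0).trans hK
        linarith
    _ = ε * (x / Real.log x) := by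
        have : (K : ℝ) + 1 ≠ 0 := by positivity
        field_simp

theorem tt_large : ∃ C : ℝ, 0 < C ∧ ∀ x : ℕ, 2 ≤ x → ∀ (e : ℕ → ℤ) (Q0 Q1 z : ℕ), Good e (Q0 * Q1) →
    3 ≤ z → (∀ q ∈ Q1.primeFactors, z < q) → (Q0 * Q1) ^ 4 ≤ x → ∀ t : ℕ, t ≤ 2 * x →
    ∑ p ∈ prs (Q0 * Q1) t, FF e Q0 p * |FF e Q1 p - 1| ≤ C * (x / Real.log x) * √(1 / ((z : ℝ) - 2)) := by
  classical
  obtain ⟨C, hC, hB⟩ := bt_sum
  refine ⟨C * 2 * √2, by positivity, fun x hx e Q0 Q1 z hG hz hq hQx t ht => ?_⟩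
  have hG0 := good_left hG
  have hG1 := good_right hG
  have hp0 := good_pos hG0
  have hp1 := good_pos hG1
  have hp := good_pos hG
  have hcop : Q0.Coprime Q1 := Nat.coprime_of_squarefree_mul hG.2.1
  have hz' : (3 : ℝ) ≤ z := by exact_mod_cast hz
  have hx' : (2 : ℝ) ≤ x := by exact_mod_cast hx
  have per0 : ∀ a, FF e Q0 (a + Q0 * Q1) = FF e Q0 a := fun a =>
    per_mod _ (FF_add hG0) _ _ (by simp)
  have per1 : ∀ a, FF e Q1 (a + Q0 * Q1) = FF e Q1 a := fun a =>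
    per_mod _ (FF_add hG1) _ _ (by simp)
  have hbt := hB (2 * x) (by omega) 0 (Q0 * Q1) hp (by omega)
    (fun p => FF e Q0 p * |FF e Q1 p - 1|)
    (fun a => mul_nonneg (FF_nonneg hG0 a) (abs_nonneg _))
    (fun a => by simp only [per0, per1])
  rw [factor hp0 hp1 hcop (fun a => FF e Q0 a) (fun a => |FF e Q1 a - 1|) (FF_add hG0)
    (fun a => by simp only [FF_add hG1]), glob_FF hG0] at hbt
  have hcs := cs hG1 hz hq
  have hsub : ∑ p ∈ prs (Q0 * Q1) t, FF e Q0 p * |FF e Q1 p - 1| ≤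
      ∑ p ∈ (Ioc 0 (0 + 2 * x)).filter (fun p => p.Prime ∧ p.Coprime (Q0 * Q1)),
        FF e Q0 p * |FF e Q1 p - 1| := by
    refine Finset.sum_le_sum_of_subset_of_nonneg ?_ fun a _ _ => mul_nonneg (FF_nonneg hG0 a) (abs_nonneg _)
    intro p hp
    unfold prs at hp
    rw [mem_filter, mem_Icc] at hp
    rw [mem_filter, mem_Ioc]
    exact ⟨⟨by omega, by omega⟩, hp.2⟩
  have hφ : ((Q0 * Q1).totient : ℝ) = (Q0.totient : ℝ) * (Q1.totient : ℝ) := by
    rw [Nat.totient_mul hcop]; push_cast; ring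
  have hφ0 : (0 : ℝ) < (Q0.totient : ℝ) := by exact_mod_cast Nat.totient_pos.mpr hp0
  have hφ1 : (0 : ℝ) < (Q1.totient : ℝ) := by exact_mod_cast Nat.totient_pos.mpr hp1
  have hlx : 0 < Real.log x := Real.log_pos (by linarith)
  have hl2 : Real.log x ≤ Real.log ((2 * x : ℕ) : ℝ) := by
    apply Real.log_le_log (by linarith)
    push_cast
    linarith
  have hsq : √(2 / ((z : ℝ) - 2)) = √2 * √(1 / ((z : ℝ) - 2)) := by
    rw [← Real.sqrt_mul (by norm_num)]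
    congr 1
    ring
  calc ∑ p ∈ prs (Q0 * Q1) t, FF e Q0 p * |FF e Q1 p - 1|
      ≤ C * ((2 * x : ℕ) : ℝ) / (((Q0 * Q1).totient : ℝ) * Real.log ((2 * x : ℕ) : ℝ)) *
        ((Q0.totient : ℝ) * ∑ a ∈ (range Q1).filter (fun a => a.Coprime Q1), |FF e Q1 a - 1|) :=
        hsub.trans hbt
    _ ≤ C * ((2 * x : ℕ) : ℝ) / (((Q0 * Q1).totient : ℝ) * Real.log ((2 * x : ℕ) : ℝ)) *
        ((Q0.totient : ℝ) * ((Q1.totient : ℝ) * √(2 / ((z : ℝ) - 2)))) := by
        refine mul_le_mul_of_nonneg_left (mul_le_mul_of_nonneg_left hcs hφ0.le) ?_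
        have : 0 ≤ Real.log ((2 * x : ℕ) : ℝ) := hlx.le.trans hl2
        positivity
    _ = C * 2 * √2 * (x / Real.log ((2 * x : ℕ) : ℝ)) * √(1 / ((z : ℝ) - 2)) := by
        rw [hφ, hsq]
        have : Real.log ((2 * x : ℕ) : ℝ) ≠ 0 := (hlx.trans_le hl2).ne'
        push_cast at this ⊢
        field_simp
    _ ≤ C * 2 * √2 * (x / Real.log x) * √(1 / ((z : ℝ) - 2)) := by
        refine mul_le_mul_of_nonneg_right (mul_le_mul_of_nonneg_left ?_ (by positivity)) (Real.sqrt_nonneg _)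
        exact div_le_div_of_nonneg_left (by linarith) hlx hl2

end Pool.Agent.P83e
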