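import Pool.Agent.Lib.P83e.TTa

/-!
# Mean value of `FF` over primes

PROOF. Choose `z` with `C √(1/(z-2)) ≤ ε/3`, `K = primorial z`; `Q0 = ∏ q ∈ Q.primeFactors.filter (· ≤ z), q ≤ K`,
`Q1 = ∏ q ∈ Q.primeFactors.filter (z < ·), q`, `Q = Q0 * Q1`, `FF e Q p = FF e Q0 p * FF e Q1 p`;
`TT e Q t = ∑_{p ∈ prs Q t} FF e Q0 p + ∑_{p ∈ prs Q t} FF e Q0 p (FF e Q1 p - 1)`. The primes of `prs Q0 t` not in
`prs Q t` divide `Q1`, at most `log2 Q` of them, each with `FF e Q0 p ≤ 2^K`.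
-/

set_option autoImplicit false

open Finset

namespace Pool.Agent.P83e

namespace TTbAux

theorem FF_le {e : ℕ → ℤ} {Q : ℕ} (hG : Good e Q) (p : ℕ) : FF e Q p ≤ 2 ^ Q := by
  have hQ : 0 < Q := hG.1.pos
  have h1 : FF e Q p ≤ ∏ q ∈ Q.primeFactors, (2 : ℝ) := by
    unfold FF
    refine prod_le_prod (fun q hq => ?_) (fun q hq => ?_)
    · have h3 : (3 : ℝ) ≤ q := by exact_mod_cast prime_ge_three hG.1 hq
      obtain ⟨h4, h5⟩ := bb_pos hG hq
      have h6 : bb e q ≤ 1 := h5.trans (by rw [div_le_one (by linarith)]; linarith)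
      have h7 := (abs_le.mp (abs_chi_le q p)).2
      nlinarith
    · have h3 : (3 : ℝ) ≤ q := by exact_mod_cast prime_ge_three hG.1 hq
      obtain ⟨h4, h5⟩ := bb_pos hG hq
      have h6 : bb e q ≤ 1 := h5.trans (by rw [div_le_one (by linarith)]; linarith)
      have h7 := (abs_le.mp (abs_chi_le q p)).1
      nlinarith
  rw [prod_const] at h1
  refine h1.trans (pow_le_pow_right₀ (by norm_num) ?_)
  have : Q.primeFactors ⊆ Icc 1 Q := by
    intro q hq
    rw [mem_Icc]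
    exact ⟨(Nat.prime_of_mem_primeFactors hq).pos, Nat.le_of_dvd hQ (Nat.dvd_of_mem_primeFactors hq)⟩
  simpa using card_le_card this

theorem split_mod (e : ℕ → ℤ) {Q : ℕ} (hG : Good e Q) (z : ℕ) : ∃ Q0 Q1 : ℕ, Q = Q0 * Q1 ∧
    Q0 ≤ primorial z ∧ Good e Q0 ∧ Good e Q1 ∧ (∀ q ∈ Q1.primeFactors, z < q) ∧
    ∀ p, FF e Q p = FF e Q0 p * FF e Q1 p := by
  classical
  set s0 := Q.primeFactors.filter (fun q => q ≤ z) with hs0
  set s1 := Q.primeFactors.filter (fun q => ¬ q ≤ z) with hs1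
  have hp0 : ∀ q ∈ s0, q.Prime := fun q hq => Nat.prime_of_mem_primeFactors (mem_filter.mp hq).1
  have hp1 : ∀ q ∈ s1, q.Prime := fun q hq => Nat.prime_of_mem_primeFactors (mem_filter.mp hq).1
  have hpr : (∏ q ∈ s0, q) * (∏ q ∈ s1, q) = Q := by
    rw [hs0, hs1, prod_filter_mul_prod_filter_not]
    exact Nat.prod_primeFactors_of_squarefree hG.2.1
  have hf0 : (∏ q ∈ s0, q).primeFactors = s0 := Nat.primeFactors_prod hp0
  have hf1 : (∏ q ∈ s1, q).primeFactors = s1 := Nat.primeFactors_prod hp1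
  have hG' : Good e ((∏ q ∈ s0, q) * (∏ q ∈ s1, q)) := by rw [hpr]; exact hG
  refine ⟨∏ q ∈ s0, q, ∏ q ∈ s1, q, hpr.symm, ?_, TTaAux.good_left hG', TTaAux.good_right hG', ?_, ?_⟩
  · unfold primorial
    refine Finset.prod_le_prod_of_subset_of_one_le' ?_ ?_
    · intro q hq
      have h1 := hp0 q hq
      have h2 := (mem_filter.mp hq).2
      rw [mem_filter, mem_range]
      exact ⟨by omega, h1⟩
    · intro q hq _
      exact (mem_filter.mp hq).2.pos
  · intro q hq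
    rw [hf1] at hq
    exact not_le.mp (mem_filter.mp hq).2
  · intro p
    unfold FF
    rw [hf0, hf1, hs0, hs1, prod_filter_mul_prod_filter_not]

theorem card_pf {Q : ℕ} (hQ : 0 < Q) : (Q.primeFactors.card : ℝ) * Real.log 2 ≤ Real.log Q := by
  have h1 : 2 ^ Q.primeFactors.card ≤ Q := by
    calc 2 ^ Q.primeFactors.card = ∏ q ∈ Q.primeFactors, 2 := by rw [prod_const]
      _ ≤ ∏ q ∈ Q.primeFactors, q :=
        prod_le_prod' fun q hq => (Nat.prime_of_mem_primeFactors hq).two_le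
      _ ≤ Q := Nat.le_of_dvd hQ (Nat.prod_primeFactors_dvd Q)
  have h2 : ((2 : ℝ)) ^ Q.primeFactors.card ≤ Q := by exact_mod_cast h1
  have h3 := Real.log_le_log (by positivity) h2
  rwa [Real.log_pow] at h3

theorem ev (c : ℝ) (hc : 0 < c) : ∃ x0 : ℕ, ∀ x : ℕ, x0 ≤ x → Real.log x ^ 2 ≤ c * x := by
  have h := (Real.isLittleO_pow_log_id_atTop (n := 2)).bound hc
  have h2 := tendsto_natCast_atTop_atTop (R := ℝ) |>.eventually h
  obtain ⟨x0, h3⟩ := Filter.eventually_atTop.mp h2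
  refine ⟨x0, fun x hx => ?_⟩
  have h4 := h3 x hx
  rw [Real.norm_eq_abs, abs_of_nonneg (by positivity)] at h4
  simpa using h4

end TTbAux

open TTbAux in
theorem tt_asymp (ε : ℝ) (hε : 0 < ε) : ∃ x0 : ℕ, ∀ x : ℕ, x0 ≤ x → ∀ (e : ℕ → ℤ) (Q : ℕ), Good e Q →
    Q ^ 4 ≤ x → ∀ t : ℕ, t ≤ 2 * x → |TT e Q t - t / Real.log x| ≤ ε * (x / Real.log x) := by
  classical
  obtain ⟨C, hC, hL⟩ := tt_large
  -- the choice of `z`
  obtain ⟨z, hz3, hz⟩ : ∃ z : ℕ, 3 ≤ z ∧ C * √(1 / ((z : ℝ) - 2)) ≤ ε / 3 := by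
    obtain ⟨n, hn⟩ := exists_nat_gt ((3 * C / ε) ^ 2)
    refine ⟨n + 3, by omega, ?_⟩
    have hn0 : (0 : ℝ) ≤ n := Nat.cast_nonneg n
    have h1 : √(1 / (((n + 3 : ℕ) : ℝ) - 2)) ≤ ε / (3 * C) := by
      rw [Real.sqrt_le_left (by positivity)]
      push_cast
      rw [div_pow, one_div, inv_eq_one_div, div_le_div_iff₀ (by linarith) (by positivity)]
      have h2 : (3 * C / ε) ^ 2 * ε ^ 2 = (3 * C) ^ 2 := by
        field_simp
      nlinarith [sq_nonneg ε, sq_pos_of_pos hε]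
    calc C * √(1 / (((n + 3 : ℕ) : ℝ) - 2)) ≤ C * (ε / (3 * C)) := mul_le_mul_of_nonneg_left h1 hC.le
      _ = ε / 3 := by field_simp
  set K := primorial z with hK
  obtain ⟨x1, h1⟩ := tt_small K (ε / 3) (by positivity)
  obtain ⟨x2, h2⟩ := ev (ε / 3 * Real.log 2 / 2 ^ K) (by positivity)
  refine ⟨max (max x1 x2) 2, fun x hx e Q hG hQx t ht => ?_⟩
  have hx1 : x1 ≤ x := (le_max_left _ _).trans ((le_max_left _ _).trans hx)
  have hx2 : x2 ≤ x := (le_max_right _ _).trans ((le_max_left _ _).trans hx)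
  have hx3 : 2 ≤ x := (le_max_right _ _).trans hx
  have hxr : (2 : ℝ) ≤ x := by exact_mod_cast hx3
  have hlx : 0 < Real.log x := Real.log_pos (by linarith)
  obtain ⟨Q0, Q1, hQ, hQ0, hG0, hG1, hq1, hFF⟩ := split_mod e hG z
  have hQpos : 0 < Q := hG.1.pos
  have hQle : Q ≤ x := (Nat.le_self_pow (by norm_num) Q).trans hQx
  have hQ1pos : 0 < Q1 := hG1.1.pos
  -- the three parts
  have hA := h1 x hx1 e Q0 hQ0 hG0 t ht
  have hB := hL x hx3 e Q0 Q1 z (hQ ▸ hG) hz3 hq1 (hQ ▸ hQx) t ht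
  rw [← hQ] at hB
  have hsub : prs Q t ⊆ prs Q0 t := by
    intro p hp
    unfold prs at hp ⊢
    rw [mem_filter] at hp ⊢
    refine ⟨hp.1, hp.2.1, ?_⟩
    have := hp.2.2
    rw [hQ] at this
    exact Nat.Coprime.coprime_mul_right_right this
  have hD : prs Q0 t \ prs Q t ⊆ Q1.primeFactors := by
    intro p hp
    rw [mem_sdiff] at hp
    unfold prs at hp
    simp only [mem_filter, not_and] at hp
    obtain ⟨⟨h3, h4, h5⟩, h6⟩ := hp
    have h7 := h6 h3 h4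
    rw [hQ] at h7
    have h8 : ¬ p.Coprime Q1 := fun h => h7 (Nat.Coprime.mul_right h5 h)
    rw [Nat.mem_primeFactors]
    exact ⟨h4, by
      by_contra h9
      exact h8 ((Nat.Prime.coprime_iff_not_dvd h4).mpr h9), hQ1pos.ne'⟩
  have hcard : ((prs Q0 t \ prs Q t).card : ℝ) * Real.log 2 ≤ Real.log x := by
    have h3 : ((prs Q0 t \ prs Q t).card : ℝ) ≤ (Q1.primeFactors.card : ℝ) := by
      exact_mod_cast card_le_card hD
    have h4 := card_pf hQ1pos
    have h5 : Real.log Q1 ≤ Real.log x := by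
      apply Real.log_le_log (by exact_mod_cast hQ1pos)
      have : Q1 ≤ Q := Nat.le_of_dvd hQpos ⟨Q0, by rw [hQ]; ring⟩
      exact_mod_cast this.trans hQle
    have h6 : 0 < Real.log 2 := Real.log_pos (by norm_num)
    nlinarith
  have hE : ∑ p ∈ prs Q0 t \ prs Q t, FF e Q0 p ≤ ε / 3 * (x / Real.log x) := by
    have h3 : ∑ p ∈ prs Q0 t \ prs Q t, FF e Q0 p ≤ ∑ p ∈ prs Q0 t \ prs Q t, (2 : ℝ) ^ K := by
      refine sum_le_sum fun p _ => (FF_le hG0 p).trans (pow_le_pow_right₀ (by norm_num) hQ0)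
    rw [sum_const, nsmul_eq_mul] at h3
    refine h3.trans ?_
    have h4 := h2 x hx2
    have h6 : 0 < Real.log 2 := Real.log_pos (by norm_num)
    have h7 : ((prs Q0 t \ prs Q t).card : ℝ) ≤ Real.log x / Real.log 2 := by
      rw [le_div_iff₀ h6]; exact hcard
    have h2K : (0 : ℝ) < 2 ^ K := by positivity
    calc ((prs Q0 t \ prs Q t).card : ℝ) * 2 ^ K ≤ Real.log x / Real.log 2 * 2 ^ K :=
          mul_le_mul_of_nonneg_right h7 h2K.le
      _ = (Real.log x ^ 2) * (2 ^ K / (Real.log 2 * Real.log x)) := by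
          field_simp
      _ ≤ (ε / 3 * Real.log 2 / 2 ^ K * x) * (2 ^ K / (Real.log 2 * Real.log x)) :=
          mul_le_mul_of_nonneg_right h4 (by positivity)
      _ = ε / 3 * (x / Real.log x) := by
          field_simp
  have hE0 : 0 ≤ ∑ p ∈ prs Q0 t \ prs Q t, FF e Q0 p := sum_nonneg fun p _ => FF_nonneg hG0 p
  have hTT : TT e Q t = (∑ p ∈ prs Q0 t, FF e Q0 p) - (∑ p ∈ prs Q0 t \ prs Q t, FF e Q0 p) +
      ∑ p ∈ prs Q t, FF e Q0 p * (FF e Q1 p - 1) := by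
    have h3 := sum_sdiff (f := fun p => FF e Q0 p) hsub
    have h4 : TT e Q t = ∑ p ∈ prs Q t, FF e Q0 p + ∑ p ∈ prs Q t, FF e Q0 p * (FF e Q1 p - 1) := by
      unfold TT
      rw [← sum_add_distrib]
      refine sum_congr rfl fun p _ => ?_
      rw [hFF p]
      ring
    rw [h4]
    linarith
  have hF : |∑ p ∈ prs Q t, FF e Q0 p * (FF e Q1 p - 1)| ≤ ε / 3 * (x / Real.log x) := by
    calc |∑ p ∈ prs Q t, FF e Q0 p * (FF e Q1 p - 1)|
        ≤ ∑ p ∈ prs Q t, |FF e Q0 p * (FF e Q1 p - 1)| := abs_sum_le_sum_abs _ _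
      _ = ∑ p ∈ prs Q t, FF e Q0 p * |FF e Q1 p - 1| := by
          refine sum_congr rfl fun p _ => ?_
          rw [abs_mul, abs_of_nonneg (FF_nonneg hG0 p)]
      _ ≤ C * (x / Real.log x) * √(1 / ((z : ℝ) - 2)) := hB
      _ = (C * √(1 / ((z : ℝ) - 2))) * (x / Real.log x) := by ring
      _ ≤ ε / 3 * (x / Real.log x) := mul_le_mul_of_nonneg_right hz (by positivity)
  rw [hTT]
  have e1 := abs_le.mp hA
  have e2 := abs_le.mp hF
  rw [abs_le]
  constructor <;> linarith [e1.1, e1.2, e2.1, e2.2]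

end Pool.Agent.P83e
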